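import Pool.Agent.Lib.MP_410da7_agN.SpecN

/-!
# C46, block N: Z2, big systems contain `g Y`
-/

set_option autoImplicit false

namespace Pool.Agent.Lib.MP_410da7_agN

open Pool.Agent.Lib.MP_410da7_agA WithZero MvPolynomial Module
open Pool.Agent.Lib.MP_410da7_agA.c2Aux (PP LL gg gL)

namespace BigAux

variable {K : Type} [Field K] [Algebra ℂ K]

theorem good_base {n : ℕ} (h : Algebra.trdeg ℂ K = n) : (Pr.base K).Good n := by
  refine ⟨?_, h⟩
  rw [eq_top_iff]
  intro x _
  exact IntermediateField.subset_adjoin _ _ ⟨x, rfl⟩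

theorem hf_of_le (p : Pr K) {N N' : Sz K} (h : ∀ v : Valuation K ℤᵐ⁰, Tr ℂ v → N v ≤ N' v)
    (hN : p.HF N') : p.HF N := by
  have hle : p.H0 N ≤ p.H0 N' := p.H0_mono h
  have : Module.Finite p.F (p.H0 N') := hN
  exact Submodule.finiteDimensional_of_le hle

theorem h_le (p : Pr K) {N N' : Sz K} (h : ∀ v : Valuation K ℤᵐ⁰, Tr ℂ v → N v ≤ N' v)
    (hN : p.HF N') : p.h N ≤ p.h N' := by
  have hle : p.H0 N ≤ p.H0 N' := p.H0_mono h
  have : Module.Finite p.F (p.H0 N') := hN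
  exact Submodule.finrank_mono hle

theorem hf_div (p : Pr K) (W : Row K) {N : Sz K} (hN : p.HF N) :
    p.HF (fun v => N v / rz W v) := by
  have hfin : Module.Finite p.F (p.H0 N) := hN
  have hmap : ∀ f ∈ p.H0 (fun v => N v / rz W v),
      LinearMap.mulLeft p.F (algebraMap K p.E (W.b 0)) f ∈ p.H0 N := by
    intro f hf w hw
    rw [LinearMap.mulLeft_apply, map_mul, ← Pr.res_apply]
    have h1 : w f ≤ N (p.res w) / rz W (p.res w) := hf w hw
    have h0 : 0 < rz W (p.res w) := zero_lt_iff.mpr (rz_ne W _)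
    rw [le_div_iff₀ h0] at h1
    calc p.res w (W.b 0) * w f ≤ rz W (p.res w) * w f := mul_le_mul_left (le_rz W _ 0) _
      _ = w f * rz W (p.res w) := mul_comm _ _
      _ ≤ N (p.res w) := h1
  let φ : p.H0 (fun v => N v / rz W v) →ₗ[p.F] p.H0 N :=
    (LinearMap.mulLeft p.F (algebraMap K p.E (W.b 0))).restrict hmap
  have hinj : Function.Injective φ := by
    intro x y hxy
    have h2 : algebraMap K p.E (W.b 0) * (x : p.E) = algebraMap K p.E (W.b 0) * (y : p.E) :=
      congrArg Subtype.val hxy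
    have h3 : algebraMap K p.E (W.b 0) ≠ 0 := by
      rw [Ne, map_eq_zero]
      exact W.ne
    exact Subtype.ext (mul_left_cancel₀ h3 h2)
  exact Module.Finite.of_injective φ hinj

theorem growth (c γ : ℝ) (d : ℕ) (hc : 0 ≤ c) (hγ : 0 < γ) : ∀ᶠ k : ℕ in Filter.atTop,
    c * ((k + d).choose d : ℝ) < γ * (k : ℝ) ^ (d + 1) := by
  obtain ⟨M, hM⟩ := exists_nat_gt (c * 2 ^ d / γ)
  filter_upwards [Filter.eventually_ge_atTop (max M (d + 1))] with k hk
  have hkM : M ≤ k := le_trans (le_max_left _ _) hk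
  have hkd : d + 1 ≤ k := le_trans (le_max_right _ _) hk
  have hk0 : (0 : ℝ) < k := by
    have : 0 < k := by omega
    exact_mod_cast this
  have h1 : ((k + d).choose d : ℝ) ≤ ((k + d : ℕ) : ℝ) ^ d := by
    exact_mod_cast Nat.choose_le_pow (k + d) d
  have h2 : ((k + d : ℕ) : ℝ) ≤ 2 * k := by
    have : k + d ≤ 2 * k := by omega
    exact_mod_cast this
  have h3 : ((k + d : ℕ) : ℝ) ^ d ≤ (2 * k : ℝ) ^ d := pow_le_pow_left₀ (by positivity) h2 d
  have h4 : c * 2 ^ d < γ * k := by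
    have h5 : c * 2 ^ d / γ < k := lt_of_lt_of_le hM (by exact_mod_cast hkM)
    rw [div_lt_iff₀ hγ] at h5
    linarith
  calc c * ((k + d).choose d : ℝ) ≤ c * (2 * k : ℝ) ^ d :=
        mul_le_mul_of_nonneg_left (h1.trans h3) hc
    _ = (c * 2 ^ d) * (k : ℝ) ^ d := by rw [mul_pow]; ring
    _ < (γ * k) * (k : ℝ) ^ d := mul_lt_mul_of_pos_right h4 (pow_pos hk0 d)
    _ = γ * (k : ℝ) ^ (d + 1) := by ring

end BigAux

open BigAux

theorem big (hn : N1Stmt) (h1 : R1Stmt) (hu : UBStmt) : BigStmt := by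
  intro K _ _ n hK hn1 htr A W N γ hA hW hγ hNA hbig
  obtain ⟨d, rfl⟩ : ∃ d, n = d + 1 := ⟨n - 1, by omega⟩
  have hp : (Pr.base K).Good (d + 1) := good_base htr
  have hq : ((Pr.base K).cut W).Good d := (hn K (Pr.base K) W d hW hp).2
  set c : ℕ := ((Pr.base K).cut W).deg (List.replicate d A) with hc
  have hgr := growth (c : ℝ) γ d (Nat.cast_nonneg _) hγ
  filter_upwards [hbig, hgr] with k hk1 hk2
  have hpA := (hu K A hK hA (d + 1) (Pr.base K) hp k).1
  have hqA := hu K A hK hA d ((Pr.base K).cut W) hq k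
  have hpN : (Pr.base K).HF (N k) := hf_of_le _ (fun v hv => hNA k v hv) hpA
  have hqN : ((Pr.base K).cut W).HF (N k) := hf_of_le _ (fun v hv => hNA k v hv) hqA.1
  have hqh : ((Pr.base K).cut W).h (N k) ≤ c * (k + d).choose d :=
    (h_le _ (fun v hv => hNA k v hv) hqA.1).trans hqA.2
  have hR := (h1 K (Pr.base K) W (N k) d hW hp (hf_div _ W hpN) hqN).2
  have hpos : 0 < (Pr.base K).h (fun v => N k v / rz W v) := by
    by_contra hcon
    have h0 : (Pr.base K).h (fun v => N k v / rz W v) = 0 := by omega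
    rw [h0, zero_add] at hR
    have h6 : ((Pr.base K).h (N k) : ℝ) ≤ (c : ℝ) * ((k + d).choose d : ℝ) := by
      exact_mod_cast hR.trans hqh
    linarith
  have hfin : Module.Finite (Pr.base K).F ((Pr.base K).H0 (fun v => N k v / rz W v)) :=
    hf_div _ W hpN
  have hnt : Nontrivial ((Pr.base K).H0 (fun v => N k v / rz W v)) :=
    Module.nontrivial_of_finrank_pos hpos
  obtain ⟨g, hg⟩ := exists_ne (0 : (Pr.base K).H0 (fun v => N k v / rz W v))
  refine ⟨(g : (Pr.base K).E), ?_, ?_⟩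
  · intro h0
    exact hg (Subtype.ext h0)
  · intro v hv
    have h7 : v (g : (Pr.base K).E) ≤ N k v / rz W v := g.2 v hv
    have h0 : 0 < rz W v := zero_lt_iff.mpr (rz_ne W _)
    rwa [le_div_iff₀ h0] at h7

end Pool.Agent.Lib.MP_410da7_agN
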