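import Pool.Agent.Lib.MP_410da7_agN.SpecN
import Pool.Agent.Lib.MP_410da7_agA.NF

/-!
# C46, block N: cubes (Fujita approximation)
-/

set_option autoImplicit false

namespace Pool.Agent.Lib.MP_410da7_agN

open Pool.Agent.Lib.MP_410da7_agA WithZero MvPolynomial Module

theorem cube : CubeStmt := by
  intro K _ _ n hK htr
  obtain ⟨T, hT, hT'⟩ := hK
  obtain ⟨B, hB, -, h⟩ := nfB ℂ K n ⟨hT.toFinset, by rw [Set.Finite.coe_toFinset]; exact hT'⟩ htr
  refine ⟨B, hB, fun A hA k => ?_⟩
  rcases Nat.eq_zero_or_pos k with rfl | hk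
  · rcases Nat.eq_zero_or_pos n with rfl | hn
    · have halg : Algebra.IsAlgebraic ℂ K := trdeg_eq_zero_iff.1 (by rw [htr, Nat.cast_zero])
      have hsurj := (IsAlgClosed.algebraMap_bijective_of_isIntegral (k := ℂ) (K := K)).2
      have h1 : A ≤ (A * B ^ 0) ^ 0 := by
        rw [pow_zero]
        intro a _
        obtain ⟨c, rfl⟩ := hsurj a
        exact Submodule.algebraMap_mem c
      have h2 : ((A * B ^ 0) ^ 0 : Submodule ℂ K).FG := (hA.mul (hB.pow 0)).pow 0
      have : Module.Finite ℂ ↥((A * B ^ 0) ^ 0 : Submodule ℂ K) := Module.Finite.iff_fg.2 h2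
      rw [pow_zero, one_mul]
      exact Submodule.finrank_mono h1
    · rw [zero_pow hn.ne', zero_mul]
      exact Nat.zero_le _
  · exact h A hA k hk

end Pool.Agent.Lib.MP_410da7_agN
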