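import Pool.Agent.Lib.MP_410da7_agN.SpecN

/-!
# C46, block N, module Curve: the curve
-/

set_option autoImplicit false

namespace Pool.Agent.Lib.MP_410da7_agN

open Pool.Agent.Lib.MP_410da7_agA WithZero MvPolynomial Module
open Pool.Agent.Lib.MP_410da7_agA.c2Aux (PP LL gg gL)

namespace CurveAux

section

variable {K : Type} [Field K] [Algebra ℂ K]

theorem good_base {n : ℕ} (hn : Algebra.trdeg ℂ K = n) : (Pr.base K).Good n where
  gen := by
    show IntermediateField.adjoin ℂ (Set.range (algebraMap K K)) = ⊤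
    rw [eq_top_iff]
    intro y _
    exact IntermediateField.subset_adjoin _ _ ⟨y, rfl⟩
  trdeg := hn

theorem good_it (hn : N1Stmt) (l : List (Row K)) : ∀ (p : Pr K) (d : ℕ), (∀ A ∈ l, Bir A) →
    p.Good (d + l.length) → (p.it l).Good d := by
  induction l with
  | nil =>
    intro p d _ h
    exact h
  | cons A l ih =>
    intro p d hl h
    have h1 : p.Good (d + l.length + 1) := h
    exact ih (p.cut A) d (fun B hB => hl B (List.mem_cons_of_mem A hB))
      (hn K p A (d + l.length) (hl A List.mem_cons_self) h1).2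

theorem deg_pos (hn : N1Stmt) (hf : FinStmt) (hK : Fg K) (p : Pr K) (l : List (Row K))
    (hl : ∀ A ∈ l, Bir A) (h : p.Good l.length) : 1 ≤ p.deg l := by
  have h1 := good_it hn l p 0 hl (by rw [zero_add]; exact h)
  have h2 := hf K (p.it l) hK h1
  exact Module.finrank_pos

/-- The elements of the powers of a row. -/
theorem val_pow (A : Row K) (v : Valuation K ℤᵐ⁰) (hv : Tr ℂ v) (k : ℕ) :
    ∀ f ∈ rspan A ^ k, v f ≤ rz A v ^ k := by
  have hc : ∀ c : ℂ, v (algebraMap ℂ K c) ≤ 1 := by
    intro c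
    by_cases h : c = 0
    · rw [h, map_zero, map_zero]
      exact zero_le
    · exact (hv c h).le
  induction k with
  | zero =>
    intro f hf
    rw [pow_zero, Submodule.mem_one] at hf
    obtain ⟨c, rfl⟩ := hf
    rw [pow_zero]
    exact hc c
  | succ k ih =>
    intro f hf
    rw [pow_succ] at hf
    have h1 : ∀ g ∈ rspan A, v g ≤ rz A v := by
      intro g hg
      unfold rspan at hg
      induction hg using Submodule.span_induction with
      | mem x hx =>
        obtain ⟨j, rfl⟩ := hx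
        exact le_rz A v j
      | zero =>
        rw [map_zero]
        exact zero_le
      | add x y _ _ hx hy => exact (v.map_add x y).trans (max_le hx hy)
      | smul c x _ hx =>
        rw [Algebra.smul_def, map_mul]
        exact (mul_le_of_le_one_left' (hc c)).trans hx
    refine Submodule.mul_induction_on hf ?_ ?_
    · intro a ha b hb
      rw [map_mul, pow_succ]
      exact mul_le_mul' (ih a ha) (h1 b hb)
    · intro a b ha hb
      exact (v.map_add a b).trans (max_le ha hb)

theorem tr_res (p : Pr K) (w : Valuation p.E ℤᵐ⁰) (hw : Tr p.F w) : Tr ℂ (p.res w) := by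
  intro c hc
  rw [Pr.res_apply, ← IsScalarTower.algebraMap_apply ℂ K p.E,
    IsScalarTower.algebraMap_apply ℂ p.F p.E]
  refine hw _ ?_
  rw [Ne, map_eq_zero]
  exact hc

theorem S_le (p : Pr K) (A : Row K) (k : ℕ) :
    p.S (rspan A ^ k) ≤ p.H0 (fun v => rz A v ^ k) := by
  unfold Pr.S
  rw [Submodule.span_le]
  rintro _ ⟨f, hf, rfl⟩
  intro w hw
  exact val_pow A (p.res w) (tr_res p w hw) k f hf

theorem d_le (hu : UBStmt) (hK : Fg K) (A : Row K) (hA : Bir A) (d : ℕ) (p : Pr K)
    (hp : p.Good d) (k : ℕ) : p.d (rspan A ^ k) ≤ p.h (fun v => rz A v ^ k) := by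
  have h1 := (hu K A hK hA d p hp k).1
  unfold Pr.HF at h1
  exact Submodule.finrank_mono (S_le p A k)

theorem it_append (l : List (Row K)) (A : Row K) : ∀ p : Pr K, p.it (l ++ [A]) = (p.it l).cut A := by
  induction l with
  | nil =>
    intro p
    rfl
  | cons B l ih =>
    intro p
    exact ih (p.cut B)

theorem HF_mono (p : Pr K) {N N' : Sz K} (h : ∀ v : Valuation K ℤᵐ⁰, Tr ℂ v → N v ≤ N' v)
    (hN : p.HF N') : p.HF N := by
  unfold Pr.HF at hN ⊢
  exact Submodule.finiteDimensional_of_le (p.H0_mono h)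

/-- Dimension zero: all the spaces of sections are bounded. -/
theorem zero_bd (hn : N1Stmt) (hf : FinStmt) (hK : Fg K) (p : Pr K) (hp : p.Good 1) (A : Row K)
    (hA : Bir A) (N : Sz K) : (p.cut A).HF N ∧ (p.cut A).h N ≤ p.deg [A] := by
  have h1 : (p.cut A).Good 0 := (hn K p A 0 hA hp).2
  have h2 := hf K (p.cut A) hK h1
  refine ⟨?_, ?_⟩
  · unfold Pr.HF
    infer_instance
  · exact Submodule.finrank_le _

end

end CurveAux

open CurveAux

theorem curve (hn : N1Stmt) (h1 : R1Stmt) (hf : FinStmt) (hu : UBStmt) (hl : LBStmt)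
    (hs : SymStmt) : CurveStmt := by
  intro K _ _ n P Q H M hK hn1 htr hP hQ hH hM hP1 hH1 hlt
  obtain ⟨p, hpd⟩ : ∃ p : Pr K, p = (Pr.base K).it (List.replicate (n - 1) M) := ⟨_, rfl⟩
  have hp : p.Good 1 := by
    rw [hpd]
    refine good_it hn _ _ 1 (fun A hA => ?_) ?_
    · rw [List.eq_of_mem_replicate hA]
      exact hM
    · rw [List.length_replicate]
      have h2 : 1 + (n - 1) = n := by omega
      rw [h2]
      exact good_base htr
  have hI : ∀ A : Row K, p.deg [A] = (Pr.base K).deg (A :: List.replicate (n - 1) M) := by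
    intro A
    rw [hs K (Pr.base K) A M (n - 1)]
    unfold Pr.deg
    rw [it_append, ← hpd]
    rfl
  rw [← hI, ← hI] at hlt
  obtain ⟨c, hc⟩ := hl K Q hK hQ 1 p hp
  set IP := p.deg [P] with hIP
  set IH := p.deg [H] with hIH
  set k : ℕ := c * (IP + 1) + IH + 1 + c with hk
  have hP' : ∀ v : Valuation K ℤᵐ⁰, 1 ≤ rz P v := fun v => one_le_rsize P hP1 v
  have hH' : ∀ v : Valuation K ℤᵐ⁰, 1 ≤ rz H v := fun v => one_le_rsize H hH1 v
  have hQk : p.HF (fun v => rz Q v ^ k) := (hu K Q hK hQ 1 p hp k).1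
  have hle : ∀ i : ℕ, ∀ v : Valuation K ℤᵐ⁰, rz Q v ^ k / rz P v ^ i ≤ rz Q v ^ k := by
    intro i v
    exact div_le_of_le_mul₀ zero_le zero_le (le_mul_of_one_le_right' (one_le_pow₀ (hP' v)))
  have hHF : ∀ i : ℕ, p.HF (fun v => rz Q v ^ k / rz P v ^ i) := fun i =>
    HF_mono p (fun v _ => hle i v) hQk
  have hind : ∀ i : ℕ, p.h (fun v => rz Q v ^ k) ≤
      p.h (fun v => rz Q v ^ k / rz P v ^ i) + i * IP := by
    intro i
    induction i with
    | zero => simp
    | succ i ih =>
      have h2 : (fun v => rz Q v ^ k / rz P v ^ i / rz P v) =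
          fun v => rz Q v ^ k / rz P v ^ (i + 1) := by
        funext v
        rw [div_div, pow_succ]
      have h3 := zero_bd hn hf hK p hp P hP (fun v => rz Q v ^ k / rz P v ^ i)
      have h4 := (h1 K p P (fun v => rz Q v ^ k / rz P v ^ i) 0 hP hp
        (by rw [h2]; exact hHF (i + 1)) h3.1).2
      rw [h2] at h4
      have h5 := h3.2
      rw [add_mul, one_mul]
      omega
  have hfin : p.h (fun v => rz Q v ^ k / rz P v ^ k) ≤
      p.h (fun v => rz Q v ^ k / (rz P v ^ k * rz H v)) + IH := by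
    have h2 : (fun v => rz Q v ^ k / rz P v ^ k / rz H v) =
        fun v => rz Q v ^ k / (rz P v ^ k * rz H v) := by
      funext v
      rw [div_div]
    have h3 := zero_bd hn hf hK p hp H hH (fun v => rz Q v ^ k / rz P v ^ k)
    have h4 := (h1 K p H (fun v => rz Q v ^ k / rz P v ^ k) 0 hH hp
      (HF_mono p (fun v _ => div_le_of_le_mul₀ zero_le zero_le
        (le_mul_of_one_le_right' (hH' v))) (hHF k)) h3.1).2
    rw [h2] at h4
    have h5 := h3.2
    omega
  have hlow : p.deg [Q] * (k - c) ≤ p.h (fun v => rz Q v ^ k) := by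
    have h2 := hc k (by omega)
    rw [Nat.choose_one_right] at h2
    exact h2.trans (d_le hu hK Q hQ 1 p hp k)
  have hne : p.h (fun v => rz Q v ^ k / (rz P v ^ k * rz H v)) ≠ 0 := by
    intro h0
    have h2 := hind k
    rw [h0] at hfin
    have h3 : (IP + 1) * (k - c) ≤ k * IP + IH := by
      have h4 : (IP + 1) * (k - c) ≤ p.deg [Q] * (k - c) := Nat.mul_le_mul_right _ hlt
      omega
    obtain ⟨m, hm⟩ : ∃ m, k = m + c := ⟨c * (IP + 1) + IH + 1, hk⟩
    have h5 : k - c = m := by omega
    have h6 : m = c * (IP + 1) + IH + 1 := by omega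
    rw [h5, hm] at h3
    nlinarith
  refine ⟨p, hp, k, by omega, ?_⟩
  by_contra hcon
  push Not at hcon
  apply hne
  have h2 : p.H0 (fun v => rz Q v ^ k / (rz P v ^ k * rz H v)) = ⊥ := by
    rw [Submodule.eq_bot_iff]
    intro f hf
    by_contra hf0
    exact hcon f hf0 hf
  unfold Pr.h
  rw [h2, finrank_bot]

end Pool.Agent.Lib.MP_410da7_agN
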