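import Pool.Agent.Lib.MP_410da7_agN.SpecN

/-!
# C46, block N, G2: the kernel of the evaluation at the generic member
-/

set_option autoImplicit false

namespace Pool.Agent.Lib.MP_410da7_agN

open Pool.Agent.Lib.MP_410da7_agA WithZero MvPolynomial Module
open Pool.Agent.Lib.MP_410da7_agA.c2Aux (PP LL gg gL)

namespace FacAux

variable {E : Type} [Field E] {s : ℕ}

/-- The substitution `U_0 ↦ - ∑ β_j X_j`, `U_j ↦ X_j`. -/
noncomputable def sg (β : Fin s → E) : MvPolynomial (Option (Fin s)) E →ₐ[E] MvPolynomial (Fin s) E :=
  aeval fun o => o.elim (-∑ j, C (β j) * X j) fun j => X j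

theorem sg_none (β : Fin s → E) : sg β (X none) = -∑ j, C (β j) * X j := by
  simp [sg]

theorem sg_some (β : Fin s → E) (j : Fin s) : sg β (X (some j)) = X j := by
  simp [sg]

theorem aeval_gg (β : Fin s → E) (P : MvPolynomial (Option (Fin s)) E) :
    aeval (gg β) P = algebraMap (MvPolynomial (Fin s) E) (PP E s) (sg β P) := by
  induction P using MvPolynomial.induction_on with
  | C a =>
    rw [aeval_C, sg, aeval_C]
    rfl
  | add p q hp hq => rw [map_add, map_add, map_add, hp, hq]
  | mul_X p o hp =>
    rw [map_mul, map_mul, map_mul, hp, aeval_X, sg, aeval_X]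
    rfl

/-- The inclusion. -/
noncomputable def ic : MvPolynomial (Fin s) E →ₐ[E] MvPolynomial (Option (Fin s)) E := rename some

theorem ic_X (j : Fin s) : (ic (X j) : MvPolynomial (Option (Fin s)) E) = X (some j) := by
  simp [ic]

theorem ic_C (a : E) : (ic (C a : MvPolynomial (Fin s) E)) = C a := by
  simp [ic]

theorem dvd_sub (β : Fin s → E) (P : MvPolynomial (Option (Fin s)) E) :
    lin β ∣ P - ic (sg β P) := by
  induction P using MvPolynomial.induction_on with
  | C a =>
    have : sg β (C a) = C a := by
      rw [sg, aeval_C]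
      rfl
    rw [this, ic_C, sub_self]
    exact dvd_zero _
  | add p q hp hq =>
    rw [map_add, map_add, add_sub_add_comm]
    exact dvd_add hp hq
  | mul_X p o hp =>
    have h1 : lin β ∣ X o - ic (sg β (X o)) := by
      cases o with
      | none =>
        rw [sg_none, map_neg, map_sum, sub_neg_eq_add]
        refine dvd_of_eq ?_
        unfold lin
        congr 1
        exact Finset.sum_congr rfl fun j _ => by rw [map_mul, ic_C, ic_X]
      | some j =>
        rw [sg_some, ic_X, sub_self]
        exact dvd_zero _
    have h2 : p * X o - ic (sg β (p * X o)) =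
        (p - ic (sg β p)) * X o + ic (sg β p) * (X o - ic (sg β (X o))) := by
      rw [map_mul, map_mul]
      ring
    rw [h2]
    exact dvd_add (hp.mul_right _) (h1.mul_left _)

end FacAux

/-- G2. The kernel of the evaluation at the generic member. -/
theorem fac : FacStmt := by
  intro E _ s β P hP
  rw [FacAux.aeval_gg] at hP
  have h0 : FacAux.sg β P = 0 :=
    (IsFractionRing.injective (MvPolynomial (Fin s) E) (PP E s)) (by rw [hP, map_zero])
  have h1 := FacAux.dvd_sub β P
  rw [h0, map_zero, sub_zero] at h1
  exact h1

end Pool.Agent.Lib.MP_410da7_agN
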