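import Pool.Agent.Lib.MP_410da7_agN.SpecN

/-!
# C46, block N: Theorem N from the modules
-/

set_option autoImplicit false

namespace Pool.Agent.Lib.MP_410da7_agN

open Pool.Agent.Lib.MP_410da7_agA WithZero MvPolynomial Module

theorem nThm (hStep : StepStmt) (hStart : StartStmt) (hPath : PathStmt) (hCurve : CurveStmt) :
    NThm := by
  intro K _ _ n P Q H hK hn htr hP hQ hH hP1 hQ1 hH1 ⟨δ, hδ, hvan⟩
  by_cases hneg : ∀ M : Row K, Bir M → (Pr.base K).deg (Q :: List.replicate (n - 1) M) ≤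
      (Pr.base K).deg (P :: List.replicate (n - 1) M)
  · -- the path
    exfalso
    obtain ⟨ν₀, α₀, hν₀, hα₀, hT⟩ := hStart K n P Q H hK hn htr hP hQ hH hP1 hQ1 hH1
    obtain ⟨C, hC, hstep⟩ := hStep K n P Q H hK hn htr hP hQ hH hP1 hQ1 hH1 hneg ν₀
    obtain ⟨ν, α, ⟨M, m, e, hM, hm, he, hin, -⟩, hνδ⟩ :=
      hPath (TT n P Q H) n C ν₀ α₀ hC hν₀ hα₀ hstep hT δ
    have hm' : (0 : ℝ) < m := by exact_mod_cast hm
    have h1 : e * δ < m := by
      have h2 : (e : ℝ) * δ < m := by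
        calc (e : ℝ) * δ ≤ ν * m * δ := mul_le_mul_of_nonneg_right he (Nat.cast_nonneg δ)
          _ = (ν * δ) * m := by ring
          _ < 1 * m := mul_lt_mul_of_pos_right hνδ hm'
          _ = m := one_mul _
      exact_mod_cast h2
    refine M.ne (hvan m e hm h1 (M.b 0) fun v hv => ?_)
    exact (mul_le_mul' (le_rz M v 0) le_rfl).trans (hin v hv)
  · push Not at hneg
    obtain ⟨M, hM, hlt⟩ := hneg
    obtain ⟨p, hp, k, hk, f, hf0, hf⟩ := hCurve K n P Q H M hK hn htr hP hQ hH hM hP1 hH1 hlt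
    refine ⟨p.F, p.E, p.fF, p.fE, p.cF, p.FE, p.kE, p.cE, p.t1, p.t2, f⁻¹, k, hk, inv_ne_zero hf0,
      by simpa using hp.trdeg, ?_, hp.gen, ?_⟩
    · obtain ⟨T, hT, hT1⟩ := hK
      refine ⟨algebraMap K p.E '' T, hT.image _, ?_⟩
      rw [eq_top_iff, ← hp.gen, IntermediateField.adjoin_le_iff]
      rintro _ ⟨x, rfl⟩
      have hx : x ∈ IntermediateField.adjoin ℂ T := by rw [hT1]; trivial
      induction hx using IntermediateField.adjoin_induction with
      | mem x hx => exact IntermediateField.subset_adjoin _ _ ⟨x, hx, rfl⟩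
      | algebraMap c =>
        rw [← IsScalarTower.algebraMap_apply ℂ K p.E, IsScalarTower.algebraMap_apply ℂ p.F p.E]
        exact IntermediateField.algebraMap_mem _ _
      | add x y hx hy h1 h2 => rw [map_add]; exact add_mem h1 h2
      | inv x hx h1 => rw [map_inv₀]; exact inv_mem h1
      | mul x y hx hy h1 h2 => rw [map_mul]; exact mul_mem h1 h2
    · intro w hw
      have h1 := hf w hw
      set v := p.res w with hv
      have h2 : w f ≠ 0 := (Valuation.ne_zero_iff w).2 hf0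
      have h3 : rz P v ^ k * rz H v ≠ 0 := mul_ne_zero (pow_ne_zero _ (rz_ne P v)) (rz_ne H v)
      rw [le_div_iff₀ (zero_lt_iff.2 h3)] at h1
      rw [map_inv₀]
      show rz H v * rz P v ^ k ≤ (w f)⁻¹ * rz Q v ^ k
      rw [mul_comm (w f)⁻¹, ← div_eq_mul_inv, le_div_iff₀ (zero_lt_iff.2 h2), mul_comm (rz H v),
        mul_comm _ (w f)]
      exact h1

end Pool.Agent.Lib.MP_410da7_agN
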