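import Pool.Agent.Lib.MP_410da7_agN.SpecN

set_option autoImplicit false

namespace Pool.Agent.Lib.MP_410da7_agN

open MvPolynomial

namespace GaussAux

variable {σ E : Type} [Field E]

theorem exists_max (w : Valuation E (WithZero (Multiplicative ℤ))) {P : MvPolynomial σ E} (hP : P ≠ 0) :
    ∃ μ, coeff μ P ≠ 0 ∧ ∀ ν, w (coeff ν P) ≤ w (coeff μ P) := by
  classical
  obtain ⟨μ, hμ, h⟩ := P.support.exists_max_image (fun m => w (coeff m P))
    (by rwa [Finset.nonempty_iff_ne_empty, Ne, MvPolynomial.support_eq_empty])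
  refine ⟨μ, by rwa [MvPolynomial.mem_support_iff] at hμ, fun ν => ?_⟩
  by_cases hν : ν ∈ P.support
  · exact h ν hν
  · rw [MvPolynomial.notMem_support_iff] at hν
    rw [hν, map_zero]
    exact zero_le

/-- Normalization. -/
theorem norm (w : Valuation E (WithZero (Multiplicative ℤ))) {P : MvPolynomial σ E} (hP : P ≠ 0) :
    ∃ (a : E) (P1 : MvPolynomial σ w.valuationSubring), (∀ ν, w (coeff ν P) ≤ w a) ∧
      P = C a * map (algebraMap w.valuationSubring E) P1 ∧ ∃ μ, coeff μ P1 = 1 := by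
  obtain ⟨μ, hμ, hmax⟩ := exists_max w hP
  have hr : C (coeff μ P)⁻¹ * P ∈ Set.range (map (algebraMap w.valuationSubring E) :
      MvPolynomial σ w.valuationSubring →+* MvPolynomial σ E) := by
    rw [MvPolynomial.mem_range_map_iff_coeffs_subset]
    intro y hy
    obtain ⟨m, hm, rfl⟩ := MvPolynomial.mem_coeffs_iff.1 (Finset.mem_coe.1 hy)
    rw [MvPolynomial.coeff_C_mul]
    have h1 : w ((coeff μ P)⁻¹ * coeff m P) ≤ 1 := by
      rw [map_mul, map_inv₀]
      have h2 : w (coeff μ P) ≠ 0 := by rwa [Ne, map_eq_zero]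
      calc (w (coeff μ P))⁻¹ * w (coeff m P) ≤ (w (coeff μ P))⁻¹ * w (coeff μ P) :=
            mul_le_mul_right (hmax m) _
        _ = 1 := inv_mul_cancel₀ h2
    exact ⟨⟨_, h1⟩, rfl⟩
  obtain ⟨P1, hP1⟩ := hr
  refine ⟨coeff μ P, P1, hmax, ?_, μ, ?_⟩
  · change P = C (coeff μ P) * (map (algebraMap w.valuationSubring E)) P1
    rw [hP1, ← mul_assoc, ← C_mul, mul_inv_cancel₀ hμ, C_1, one_mul]
  · have h3 : algebraMap w.valuationSubring E (coeff μ P1) = 1 := by
      rw [← MvPolynomial.coeff_map]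
      change coeff μ ((map (algebraMap w.valuationSubring E)) P1) = 1
      rw [hP1, MvPolynomial.coeff_C_mul, inv_mul_cancel₀ hμ]
    exact Subtype.ext h3

end GaussAux

open GaussAux

theorem gauss : GaussStmt := by
  intro σ E _ w P Q μ ν
  by_cases hP : P = 0
  · exact ⟨0, by rw [hP]; simp⟩
  by_cases hQ : Q = 0
  · exact ⟨0, by rw [hQ]; simp⟩
  obtain ⟨a, P1, ha, hP1, μ1, hμ1⟩ := norm w hP
  obtain ⟨b, Q1, hb, hQ1, ν1, hν1⟩ := norm w hQ
  let k := IsLocalRing.ResidueField w.valuationSubring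
  let π : w.valuationSubring →+* k := IsLocalRing.residue w.valuationSubring
  have hP2 : map π P1 ≠ 0 := by
    intro h
    have h1 := congrArg (coeff μ1) h
    rw [MvPolynomial.coeff_map, hμ1, map_one, coeff_zero] at h1
    exact one_ne_zero h1
  have hQ2 : map π Q1 ≠ 0 := by
    intro h
    have h1 := congrArg (coeff ν1) h
    rw [MvPolynomial.coeff_map, hν1, map_one, coeff_zero] at h1
    exact one_ne_zero h1
  have hPQ : map π (P1 * Q1) ≠ 0 := by
    rw [map_mul]
    exact mul_ne_zero hP2 hQ2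
  obtain ⟨κ, hκ⟩ := MvPolynomial.ne_zero_iff.1 hPQ
  rw [MvPolynomial.coeff_map] at hκ
  have hu : IsUnit (coeff κ (P1 * Q1)) := by
    by_contra hn
    exact hκ ((IsLocalRing.residue_eq_zero_iff _).2 hn)
  have hv : w (algebraMap w.valuationSubring E (coeff κ (P1 * Q1))) = 1 := by
    obtain ⟨u, hu⟩ := hu
    have h1 : algebraMap w.valuationSubring E (u : w.valuationSubring) *
        algebraMap w.valuationSubring E ((u⁻¹ : w.valuationSubringˣ) : w.valuationSubring) = 1 := by
      rw [← map_mul, Units.mul_inv, map_one]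
    have h2 := congrArg w h1
    rw [map_mul, map_one] at h2
    have h3 : w (algebraMap w.valuationSubring E (u : w.valuationSubring)) ≤ 1 :=
      (u : w.valuationSubring).2
    have h4 : w (algebraMap w.valuationSubring E
        ((u⁻¹ : w.valuationSubringˣ) : w.valuationSubring)) ≤ 1 :=
      ((u⁻¹ : w.valuationSubringˣ) : w.valuationSubring).2
    rw [← hu]
    refine le_antisymm h3 ?_
    rw [← h2]
    calc _ ≤ w (algebraMap w.valuationSubring E (u : w.valuationSubring)) * 1 :=
          mul_le_mul_right h4 _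
      _ = _ := mul_one _
  refine ⟨κ, ?_⟩
  have h5 : P * Q = C (a * b) * map (algebraMap w.valuationSubring E) (P1 * Q1) := by
    conv_lhs => rw [hP1, hQ1]
    rw [map_mul (map (algebraMap w.valuationSubring E)), C_mul]
    ring
  rw [h5, MvPolynomial.coeff_C_mul, MvPolynomial.coeff_map, map_mul, hv, mul_one, map_mul]
  exact mul_le_mul' (ha μ) (hb ν)

end Pool.Agent.Lib.MP_410da7_agN
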