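import Pool.Agent.Lib.MP_410da7_agN.SpecN

/-!
# C46, block N: linear algebra over `F[U]` (helper69)
-/

set_option autoImplicit false

namespace Pool.Agent.Lib.MP_410da7_agN

open MvPolynomial Module

namespace LAAux

attribute [local instance] MvPolynomial.algebraMvPolynomial

section

variable {σ F E : Type} [Field F] [Field E] [Algebra F E]

/-- The combinations `∑ c_i C (v_i)`. -/
noncomputable def cmb {N : ℕ} (v : Fin N → E) :
    (Fin N → MvPolynomial σ F) →ₗ[MvPolynomial σ F] MvPolynomial σ E :=
  Fintype.linearCombination (MvPolynomial σ F) (fun i => (C (v i) : MvPolynomial σ E))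

theorem coeff_cmb {N : ℕ} (v : Fin N → E) (c : Fin N → MvPolynomial σ F) (μ : σ →₀ ℕ) :
    coeff μ (cmb v c) = ∑ i, coeff μ (c i) • v i := by
  unfold cmb
  rw [Fintype.linearCombination_apply, coeff_sum]
  apply Finset.sum_congr rfl
  intro i _
  rw [Algebra.smul_def, MvPolynomial.algebraMap_def, mul_comm, coeff_C_mul, coeff_map,
    Algebra.smul_def, mul_comm]

theorem cmb_inj {N : ℕ} {v : Fin N → E} (hv : LinearIndependent F v) :
    Function.Injective (cmb (σ := σ) (F := F) v) := by
  rw [injective_iff_map_eq_zero]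
  intro c hc
  funext i
  ext μ
  have h1 : ∑ i, coeff μ (c i) • v i = 0 := by
    rw [← coeff_cmb, hc, coeff_zero]
  have h2 := Fintype.linearIndependent_iff.mp hv _ h1 i
  rw [h2]
  simp

theorem mem_range_cmb {N : ℕ} {v : Fin N → E} {P : MvPolynomial σ E}
    (h : ∀ μ, coeff μ P ∈ Submodule.span F (Set.range v)) :
    P ∈ LinearMap.range (cmb (σ := σ) (F := F) v) := by
  classical
  have h1 : ∀ μ, ∃ a : Fin N → F, ∑ i, a i • v i = coeff μ P := fun μ => by
    have := h μ
    rwa [Submodule.mem_span_range_iff_exists_fun] at this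
  choose a ha using h1
  refine ⟨fun i => ∑ μ ∈ P.support, monomial μ (a μ i), ?_⟩
  ext μ
  rw [coeff_cmb]
  have h2 : ∀ i, coeff μ (∑ ν ∈ P.support, monomial ν (a ν i)) =
      if μ ∈ P.support then a μ i else 0 := by
    intro i
    rw [coeff_sum]
    simp only [coeff_monomial]
    rw [Finset.sum_ite_eq' P.support μ (fun ν => a ν i)]
  simp only [h2]
  by_cases hμ : μ ∈ P.support
  · simp only [if_pos hμ]
    exact ha μ
  · simp only [if_neg hμ, zero_smul, Finset.sum_const_zero]
    rw [MvPolynomial.notMem_support_iff] at hμ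
    exact hμ.symm

theorem mul_inj {l : MvPolynomial σ E} (hl : l ≠ 0) :
    Function.Injective (LinearMap.mulLeft (MvPolynomial σ F) l) := by
  intro a b hab
  exact mul_left_cancel₀ hl hab

end

section

variable {σ F E F' E' : Type} [Field F] [Field E] [Algebra F E] [Field F'] [Field E']
  [Algebra F' E'] [Algebra (MvPolynomial σ F) F'] [IsFractionRing (MvPolynomial σ F) F']
  [Algebra (MvPolynomial σ F) E'] [IsScalarTower (MvPolynomial σ F) F' E']

/-- The linear map of `φ`. -/
noncomputable def phl (φ : MvPolynomial σ E →+* E')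
    (hφ : ∀ c : MvPolynomial σ F, φ (map (algebraMap F E) c) =
      algebraMap (MvPolynomial σ F) E' c) :
    MvPolynomial σ E →ₗ[MvPolynomial σ F] E' where
  toFun := φ
  map_add' := map_add φ
  map_smul' := fun r P => by
    rw [Algebra.smul_def, map_mul, RingHom.id_apply, Algebra.smul_def,
      MvPolynomial.algebraMap_def, hφ r]

theorem phl_apply (φ : MvPolynomial σ E →+* E')
    (hφ : ∀ c : MvPolynomial σ F, φ (map (algebraMap F E) c) =
      algebraMap (MvPolynomial σ F) E' c) (P : MvPolynomial σ E) : phl φ hφ P = φ P := rfl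

/-- The upper bound for families. -/
theorem key1 (φ : MvPolynomial σ E →+* E')
    (hφ : ∀ c : MvPolynomial σ F, φ (map (algebraMap F E) c) =
      algebraMap (MvPolynomial σ F) E' c) (l : MvPolynomial σ E) (V W : Submodule F E)
    (V' : Submodule F' E') (hW : Module.Finite F W) (hV' : Module.Finite F' V')
    (hVV : ∀ v ∈ V, φ (C v) ∈ V')
    (hG : ∀ P : MvPolynomial σ E, (∀ μ, coeff μ P ∈ V) → φ P = 0 →
      ∃ G : MvPolynomial σ E, (∀ μ, coeff μ G ∈ W) ∧ P = l * G)
    (N : ℕ) (v : Fin N → E) (hv : LinearIndependent F v) (hvV : ∀ i, v i ∈ V) :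
    N ≤ finrank F W + finrank F' V' := by
  obtain ⟨Ψ, hΨ⟩ : ∃ Ψ, Ψ = (phl φ hφ) ∘ₗ (cmb (σ := σ) (F := F) v) := ⟨_, rfl⟩
  have hrk := LinearMap.rank_range_add_rank_ker Ψ
  rw [rank_fin_fun] at hrk
  -- the range
  have h1 : Module.rank (MvPolynomial σ F) (LinearMap.range Ψ) ≤ (finrank F' V' : Cardinal) := by
    have h2 : LinearMap.range Ψ ≤ V'.restrictScalars (MvPolynomial σ F) := by
      rintro _ ⟨c, rfl⟩
      rw [Submodule.restrictScalars_mem, hΨ]
      have h3 : ((phl φ hφ) ∘ₗ (cmb (σ := σ) (F := F) v)) c =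
          ∑ i, (algebraMap (MvPolynomial σ F) F' (c i)) • φ (C (v i)) := by
        rw [LinearMap.comp_apply]
        unfold cmb
        rw [Fintype.linearCombination_apply, map_sum]
        apply Finset.sum_congr rfl
        intro i _
        rw [map_smul, phl_apply, algebraMap_smul]
      rw [h3]
      exact Submodule.sum_mem _ fun i _ => Submodule.smul_mem _ _ (hVV _ (hvV i))
    refine (Submodule.rank_mono h2).trans ?_
    rw [← IsFractionRing.rank_right_eq (MvPolynomial σ F) F'
      (V'.restrictScalars (MvPolynomial σ F))]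
    rw [finrank_eq_rank F' V']
    exact le_of_eq rfl
  -- the kernel
  have h2 : Module.rank (MvPolynomial σ F) (LinearMap.ker Ψ) ≤ (finrank F W : Cardinal) := by
    let b := Module.finBasis F W
    let w : Fin (finrank F W) → E := fun j => (b j : E)
    have hw : Submodule.span F (Set.range w) = W := by
      have h3 := b.span_eq
      have h4 : Set.range w = W.subtype '' (Set.range b) := by
        rw [← Set.range_comp]
        rfl
      rw [h4, Submodule.span_image, h3, Submodule.map_top, Submodule.range_subtype]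
    let Θ := (LinearMap.mulLeft (MvPolynomial σ F) l) ∘ₗ (cmb (σ := σ) (F := F) w)
    have h3 : (LinearMap.ker Ψ).map (cmb (σ := σ) (F := F) v) ≤ LinearMap.range Θ := by
      rintro _ ⟨c, hc, rfl⟩
      have hc' : Ψ c = 0 := hc
      obtain ⟨G, hGW, hG'⟩ := hG (cmb v c) (by
        intro μ
        rw [coeff_cmb]
        exact Submodule.sum_mem _ fun i _ => Submodule.smul_mem _ _ (hvV i)) (by
        rw [hΨ] at hc'
        exact hc')
      obtain ⟨g, hg⟩ := mem_range_cmb (v := w) (P := G) (fun μ => by rw [hw]; exact hGW μ)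
      refine ⟨g, ?_⟩
      change l * (cmb w g) = _
      rw [hg, hG']
    have h4 := (Submodule.equivMapOfInjective (cmb (σ := σ) (F := F) v) (cmb_inj hv)
      (LinearMap.ker Ψ)).rank_eq
    rw [h4]
    refine (Submodule.rank_mono h3).trans ((rank_range_le Θ).trans ?_)
    rw [rank_fin_fun]
  have h3 : (N : Cardinal) ≤ ((finrank F W + finrank F' V' : ℕ) : Cardinal) := by
    rw [← hrk, Nat.cast_add, add_comm (finrank F W : Cardinal)]
    exact add_le_add h1 h2
  exact_mod_cast h3

/-- The lower bound. -/
theorem key2 (φ : MvPolynomial σ E →+* E')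
    (hφ : ∀ c : MvPolynomial σ F, φ (map (algebraMap F E) c) =
      algebraMap (MvPolynomial σ F) E' c) (l : MvPolynomial σ E) (V W : Submodule F E)
    (hl : l ≠ 0) (hφl : φ l = 0) (hW : Module.Finite F W)
    (hVW : ∀ v ∈ V, ∀ μ, coeff μ (C v * l) ∈ W) :
    finrank F V + finrank F' (Submodule.span F' ((fun x => φ (C x)) '' (W : Set E))) ≤
      finrank F W := by
  -- `V` is finite dimensional
  have hVfin : Module.Finite F V := by
    obtain ⟨μ, hμ⟩ : ∃ μ, coeff μ l ≠ 0 := by
      by_contra h
      push Not at h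
      apply hl
      ext μ
      rw [h μ, coeff_zero]
    let T : V →ₗ[F] W := LinearMap.codRestrict W
      ((LinearMap.mulRight F (coeff μ l)) ∘ₗ V.subtype) (by
        intro x
        have := hVW x x.2 μ
        rw [coeff_C_mul] at this
        exact this)
    refine Module.Finite.of_injective T ?_
    intro x y hxy
    have h1 : (x : E) * coeff μ l = (y : E) * coeff μ l := congrArg Subtype.val hxy
    exact Subtype.ext (mul_right_cancel₀ hμ h1)
  let bV := Module.finBasis F V
  let v : Fin (finrank F V) → E := fun j => (bV j : E)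
  have hv : LinearIndependent F v := bV.linearIndependent.map' V.subtype V.ker_subtype
  let bW := Module.finBasis F W
  let w : Fin (finrank F W) → E := fun j => (bW j : E)
  have hwi : LinearIndependent F w := bW.linearIndependent.map' W.subtype W.ker_subtype
  have hws : Submodule.span F (Set.range w) = W := by
    have h3 := bW.span_eq
    have h4 : Set.range w = W.subtype '' (Set.range bW) := by
      rw [← Set.range_comp]
      rfl
    rw [h4, Submodule.span_image, h3, Submodule.map_top, Submodule.range_subtype]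
  obtain ⟨Ψ, hΨ⟩ : ∃ Ψ, Ψ = (phl φ hφ) ∘ₗ (cmb (σ := σ) (F := F) w) := ⟨_, rfl⟩
  have hrk := LinearMap.rank_range_add_rank_ker Ψ
  rw [rank_fin_fun] at hrk
  -- the kernel
  have h1 : (finrank F V : Cardinal) ≤ Module.rank (MvPolynomial σ F) (LinearMap.ker Ψ) := by
    obtain ⟨Θ, hΘ⟩ : ∃ Θ, Θ = (LinearMap.mulLeft (MvPolynomial σ F) l) ∘ₗ
      (cmb (σ := σ) (F := F) v) := ⟨_, rfl⟩
    have hΘi : Function.Injective Θ := by
      rw [hΘ, LinearMap.coe_comp]
      exact (mul_inj hl).comp (cmb_inj hv)
    have h3 : LinearMap.range Θ ≤ (LinearMap.ker Ψ).map (cmb (σ := σ) (F := F) w) := by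
      rintro _ ⟨c, rfl⟩
      have h4 : Θ c ∈ LinearMap.range (cmb (σ := σ) (F := F) w) := by
        have h5 : Θ c = ∑ i, c i • (C (v i) * l) := by
          rw [hΘ, LinearMap.comp_apply, LinearMap.mulLeft_apply]
          unfold cmb
          rw [Fintype.linearCombination_apply, Finset.mul_sum]
          apply Finset.sum_congr rfl
          intro i _
          rw [mul_smul_comm, mul_comm l]
        rw [h5]
        refine Submodule.sum_mem _ fun i _ => Submodule.smul_mem _ _ ?_
        apply mem_range_cmb
        intro μ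
        rw [hws]
        exact hVW _ (bV i).2 μ
      obtain ⟨g, hg⟩ := h4
      refine ⟨g, ?_, hg⟩
      change Ψ g = 0
      rw [hΨ, LinearMap.comp_apply, hg, hΘ, LinearMap.comp_apply, LinearMap.mulLeft_apply,
        phl_apply, map_mul, hφl, zero_mul]
    have h4 := (Submodule.equivMapOfInjective (cmb (σ := σ) (F := F) w) (cmb_inj hwi)
      (LinearMap.ker Ψ)).rank_eq
    rw [h4]
    refine le_trans ?_ (Submodule.rank_mono h3)
    rw [← (LinearEquiv.ofInjective Θ hΘi).rank_eq, rank_fin_fun]
  -- the range
  obtain ⟨t, ht, hts, hti⟩ := exists_linearIndependent F' ((fun x => φ (C x)) '' (W : Set E))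
  have hmem : ∀ x ∈ t, x ∈ LinearMap.range Ψ := by
    classical
    intro x hx
    obtain ⟨y, hy, rfl⟩ := ht hx
    obtain ⟨g, hg⟩ := mem_range_cmb (σ := σ) (F := F) (v := w) (P := (C y : MvPolynomial σ E))
      (by
        intro μ
        rw [hws, coeff_C]
        split_ifs
        · exact hy
        · exact W.zero_mem)
    refine ⟨g, ?_⟩
    rw [hΨ, LinearMap.comp_apply, hg, phl_apply]
  have hti' : LinearIndependent (MvPolynomial σ F) ((↑) : t → E') :=
    (LinearIndependent.iff_fractionRing (MvPolynomial σ F) F').mpr hti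
  have h2 : Module.rank F' (Submodule.span F' ((fun x => φ (C x)) '' (W : Set E))) ≤
      Module.rank (MvPolynomial σ F) (LinearMap.range Ψ) := by
    rw [← hts, rank_span_set hti]
    have h3 : LinearIndependent (MvPolynomial σ F)
        (fun x : t => (⟨x, hmem x x.2⟩ : LinearMap.range Ψ)) := by
      apply LinearIndependent.of_comp (LinearMap.range Ψ).subtype
      exact hti'
    exact h3.cardinal_le_rank
  have h3 : (finrank F V : Cardinal) +
      Module.rank F' (Submodule.span F' ((fun x => φ (C x)) '' (W : Set E))) ≤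
        (finrank F W : Cardinal) := by
    rw [← hrk, add_comm]
    exact add_le_add h2 h1
  obtain ⟨m, hm⟩ : ∃ m : ℕ, Module.rank F' (Submodule.span F' ((fun x => φ (C x)) ''
      (W : Set E))) = m := by
    apply Cardinal.lt_aleph0.mp
    refine lt_of_le_of_lt (le_trans le_add_self h3) (Cardinal.natCast_lt_aleph0)
  rw [finrank_eq_of_rank_eq hm]
  rw [hm] at h3
  exact_mod_cast h3

end

end LAAux

open LAAux in
theorem la1 : LA1Stmt := by
  intro σ F E F' E' _ _ _ _ _ _ _ _ φ l V W V' _hl hφ hW hV' hVV hG
  let iA : Algebra (MvPolynomial σ F) E' :=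
    ((algebraMap F' E').comp (algebraMap (MvPolynomial σ F) F')).toAlgebra
  have iT : IsScalarTower (MvPolynomial σ F) F' E' := IsScalarTower.of_algebraMap_eq fun _ => rfl
  have key := key1 (F' := F') φ hφ l V W V' hW hV' hVV hG
  have hrank : Module.rank F V ≤ ((finrank F W + finrank F' V' : ℕ) : Cardinal) := by
    apply rank_le
    intro s hs
    have h1 : LinearIndependent F (fun i : Fin s.card => ((s.equivFin.symm i : V) : E)) := by
      have h2 := (hs.comp _ s.equivFin.symm.injective).map' V.subtype V.ker_subtype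
      exact h2
    exact key s.card _ h1 (fun i => (s.equivFin.symm i : V).2)
  refine ⟨?_, finrank_le_of_rank_le hrank⟩
  rw [← Module.rank_lt_aleph0_iff]
  exact lt_of_le_of_lt hrank Cardinal.natCast_lt_aleph0

open LAAux in
theorem la2 : LA2Stmt := by
  intro σ F E F' E' _ _ _ _ _ _ _ _ φ l V W hl hφ hφl hW hVW
  let iA : Algebra (MvPolynomial σ F) E' :=
    ((algebraMap F' E').comp (algebraMap (MvPolynomial σ F) F')).toAlgebra
  have iT : IsScalarTower (MvPolynomial σ F) F' E' := IsScalarTower.of_algebraMap_eq fun _ => rfl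
  exact key2 (F' := F') φ hφ l V W hl hφl hW hVW

end Pool.Agent.Lib.MP_410da7_agN
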