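import Pool.Agent.Lib.MP_410da7_agN.SpecN

/-!
# C46, block N: growth, lower bound
-/

set_option autoImplicit false

namespace Pool.Agent.Lib.MP_410da7_agN

open Pool.Agent.Lib.MP_410da7_agA WithZero MvPolynomial Module

namespace LBAux

variable {K : Type} [Field K] [Algebra ℂ K]

theorem deg_cons (p : Pr K) (A : Row K) (l : List (Row K)) :
    p.deg (A :: l) = (p.cut A).deg l := rfl

theorem rspan_fg (A : Row K) : (rspan A).FG := Submodule.fg_span (Set.finite_range _)

end LBAux

open LBAux in
theorem lb (hn : N1Stmt) (hr : R2Stmt) (_ : FinStmt) (ht : TopStmt) : LBStmt := by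
  intro K _ _ A hK hA d
  induction d with
  | zero =>
    intro p hp
    obtain ⟨c, hc⟩ := ht K p A hK hA hp
    refine ⟨c, fun k hk => ?_⟩
    rw [Nat.choose_zero_right, mul_one]
    have e1 : p.d (rspan A ^ k) = finrank p.F p.E := by
      unfold Pr.d
      rw [hc k hk, finrank_top]
    rw [e1]
    exact le_refl _
  | succ d ih =>
    intro p hp
    obtain ⟨-, hg⟩ := hn K p A d hA hp
    obtain ⟨c, hc⟩ := ih (p.cut A) hg
    refine ⟨c, fun k hk => ?_⟩
    obtain ⟨m, rfl⟩ := Nat.exists_eq_add_of_le hk
    rw [Nat.add_sub_cancel_left, List.replicate_succ, deg_cons]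
    clear hk
    induction m with
    | zero => simp
    | succ m ihm =>
      have h1 := hr K p A (rspan A ^ (c + m)) d hA hp ((rspan_fg A).pow _)
      rw [← pow_succ] at h1
      have h2 := hc (c + (m + 1)) (by omega)
      rw [Nat.add_sub_cancel_left] at h2
      have h3 : m.choose d ≤ (m + 1).choose d := Nat.choose_le_choose d (Nat.le_succ m)
      have h4 := Nat.mul_le_mul_left ((p.cut A).deg (List.replicate d A)) h3
      rw [Nat.choose_succ_succ', mul_add]
      have e : c + (m + 1) = c + m + 1 := rfl
      rw [e] at h2 ⊢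
      omega

end Pool.Agent.Lib.MP_410da7_agN
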