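import Pool.Agent.Lib.MP_410da7_agN.SpecN

/-!
# C46, block N, Neg: there are no sections of `- A`
-/

set_option autoImplicit false

namespace Pool.Agent.Lib.MP_410da7_agN

open Pool.Agent.Lib.MP_410da7_agA WithZero Module

namespace NegAux

variable {K : Type} [Field K] [Algebra ℂ K]

theorem gen (p : Pr K) {d : ℕ} (hK : Fg K) (hp : p.Good d) :
    ∃ T : Set p.E, T.Finite ∧ IntermediateField.adjoin p.F T = ⊤ := by
  obtain ⟨T, hT, hT'⟩ := hK
  refine ⟨algebraMap K p.E '' T, hT.image _, ?_⟩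
  rw [eq_top_iff, ← hp.gen, IntermediateField.adjoin_le_iff]
  rintro _ ⟨x, rfl⟩
  have hx : x ∈ IntermediateField.adjoin ℂ T := by rw [hT']; trivial
  induction hx using IntermediateField.adjoin_induction with
  | mem x hx => exact IntermediateField.subset_adjoin _ _ ⟨x, hx, rfl⟩
  | algebraMap c =>
    rw [← IsScalarTower.algebraMap_apply ℂ K p.E, IsScalarTower.algebraMap_apply ℂ p.F p.E]
    exact IntermediateField.algebraMap_mem _ _
  | add x y hx hy h1 h2 => rw [map_add]; exact add_mem h1 h2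
  | inv x hx h1 => rw [map_inv₀]; exact inv_mem h1
  | mul x y hx hy h1 h2 => rw [map_mul]; exact mul_mem h1 h2

end NegAux

open NegAux in
theorem neg (hn : N1Stmt) (hp : PoleStmt) : NegStmt := by
  intro K _ _ p A d hK hA hG
  rw [eq_bot_iff]
  intro f hf
  rw [Submodule.mem_bot]
  by_contra hf0
  rw [Pr.mem_H0] at hf
  obtain ⟨T, hTf, hT⟩ := gen p hK hG
  have hch : CharZero p.F := charZero_of_injective_algebraMap (algebraMap ℂ p.F).injective
  have hess : Algebra.EssFiniteType p.F p.E := by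
    rw [← IntermediateField.fg_top_iff]
    exact IntermediateField.fg_def.2 ⟨T, hTf, hT⟩
  have hA1 : ∀ j, IsAlgebraic p.F (f * algebraMap K p.E (A.b j)) := by
    intro j
    by_contra hcon
    obtain ⟨w, hw, hw1⟩ := hp p.F p.E hess _ hcon
    have h1 := hf w hw
    have h2 : w (algebraMap K p.E (A.b j)) ≤ rz A (p.res w) := le_rz A (p.res w) j
    have h3 : w (f * algebraMap K p.E (A.b j)) ≤ 1 := by
      rw [map_mul]
      calc w f * w (algebraMap K p.E (A.b j)) ≤ (rz A (p.res w))⁻¹ * rz A (p.res w) :=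
            mul_le_mul' h1 h2
        _ = 1 := inv_mul_cancel₀ (rz_ne A _)
    exact absurd hw1 (not_lt.2 h3)
  obtain ⟨⟨j, hj⟩, -⟩ := hn K p A d hA hG
  apply hj
  have hb0 : algebraMap K p.E (A.b 0) ≠ 0 := by
    rw [Ne, map_eq_zero]
    exact A.ne
  have h4 : p.beta A j = (f * algebraMap K p.E (A.b j.succ)) *
      (f * algebraMap K p.E (A.b 0))⁻¹ := by
    unfold Pr.beta
    rw [map_div₀]
    field_simp
  rw [h4]
  exact (hA1 j.succ).mul (hA1 0).inv

end Pool.Agent.Lib.MP_410da7_agN
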