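import Pool.Agent.Lib.MP_410da7_agN.SpecN

/-!
# C46, block N: the path (real analysis)
-/

set_option autoImplicit false

namespace Pool.Agent.Lib.MP_410da7_agN

namespace PathAux

/-- The iteration. -/
theorem iter (T : ℝ → ℝ → Prop) (n : ℕ) (C ν₀ α₀ : ℝ) (hC : 0 ≤ C) (hν : 0 ≤ ν₀)
    (H : ∀ ν α : ℝ, ν ≤ ν₀ → ∀ s₁ s₂ : ℕ, 1 ≤ s₁ → s₁ ≤ s₂ → ∀ ε : ℝ, 0 < ε →
      0 < α - C * ((s₁ : ℝ) / s₂) ^ 2 - ε → T ν α →
      T (ν / (1 + (s₁ : ℝ) / s₂)) ((α - C * ((s₁ : ℝ) / s₂) ^ 2 - ε) / (1 + (s₁ : ℝ) / s₂) ^ n))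
    (h0 : T ν₀ α₀) (t N : ℕ) (ht : 1 ≤ t) (htN : t ≤ N) (ε X : ℝ) (hε : 0 < ε)
    (hX : ∀ k : ℕ, k ≤ N → (1 + (t : ℝ) / N) ^ (n * k) ≤ X)
    (hN : (N : ℝ) * ((C * ((t : ℝ) / N) ^ 2 + ε) * X) < α₀) :
    ∀ k : ℕ, k ≤ N → ∃ α : ℝ, T (ν₀ / (1 + (t : ℝ) / N) ^ k) α ∧
      α₀ - k * ((C * ((t : ℝ) / N) ^ 2 + ε) * X) ≤ α * (1 + (t : ℝ) / N) ^ (n * k) := by
  set σ : ℝ := (t : ℝ) / N with hσ
  have hσ0 : 0 ≤ σ := by positivity
  have h1 : 1 ≤ 1 + σ := by linarith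
  have hD : 0 ≤ C * σ ^ 2 + ε := by positivity
  intro k
  induction k with
  | zero =>
    intro _
    exact ⟨α₀, by simpa using h0, by simp⟩
  | succ k ih =>
    intro hk
    obtain ⟨α, hT, hα⟩ := ih (by omega)
    have hpk : 0 < (1 + σ) ^ (n * k) := by positivity
    have hXk := hX k (by omega)
    have hX0 : 0 ≤ X := hpk.le.trans hXk
    have hkN : ((k : ℝ) + 1) ≤ N := by exact_mod_cast hk
    have e1 : α₀ - ((k : ℝ) + 1) * ((C * σ ^ 2 + ε) * X) ≤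
        (α - C * σ ^ 2 - ε) * (1 + σ) ^ (n * k) := by
      have h2 : (C * σ ^ 2 + ε) * (1 + σ) ^ (n * k) ≤ (C * σ ^ 2 + ε) * X :=
        mul_le_mul_of_nonneg_left hXk hD
      nlinarith [h2, hα]
    have e2 : 0 < (α - C * σ ^ 2 - ε) * (1 + σ) ^ (n * k) := by
      refine lt_of_lt_of_le ?_ e1
      have h3 : ((k : ℝ) + 1) * ((C * σ ^ 2 + ε) * X) ≤ N * ((C * σ ^ 2 + ε) * X) :=
        mul_le_mul_of_nonneg_right hkN (mul_nonneg hD hX0)
      linarith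
    have e3 : 0 < α - C * σ ^ 2 - ε := by
      by_contra hneg
      have h4 := mul_nonpos_of_nonpos_of_nonneg (not_lt.1 hneg) hpk.le
      linarith
    have hνk : ν₀ / (1 + σ) ^ k ≤ ν₀ := div_le_self hν (one_le_pow₀ h1)
    have h5 := H _ α hνk t N ht htN ε hε e3 hT
    refine ⟨(α - C * σ ^ 2 - ε) / (1 + σ) ^ n, ?_, ?_⟩
    · rw [div_div, ← pow_succ] at h5
      exact h5
    · have e4 : (α - C * σ ^ 2 - ε) / (1 + σ) ^ n * (1 + σ) ^ (n * (k + 1)) =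
          (α - C * σ ^ 2 - ε) * (1 + σ) ^ (n * k) := by
        have h6 : (1 + σ) ^ n ≠ 0 := by positivity
        rw [mul_add, mul_one, pow_add]
        field_simp
      rw [e4]
      push_cast
      exact e1

end PathAux

open PathAux in
theorem path : PathStmt := by
  intro T n C ν₀ α₀ hC hν hα H h0 δ
  obtain ⟨t, ht⟩ := exists_nat_ge (max 1 (ν₀ * δ))
  have ht1 : (1 : ℝ) ≤ t := (le_max_left _ _).trans ht
  have htδ : ν₀ * δ ≤ t := (le_max_right _ _).trans ht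
  set X : ℝ := Real.exp (t * n) with hX
  have hX0 : 0 < X := Real.exp_pos _
  obtain ⟨N, hN⟩ := exists_nat_ge (max (t : ℝ) (4 * C * t ^ 2 * X / α₀))
  have htN : (t : ℝ) ≤ N := (le_max_left _ _).trans hN
  have hN2 : 4 * C * t ^ 2 * X / α₀ ≤ N := (le_max_right _ _).trans hN
  have hN0 : (0 : ℝ) < N := by linarith
  have hXk : ∀ k : ℕ, k ≤ N → (1 + (t : ℝ) / N) ^ (n * k) ≤ X := by
    intro k hk
    have h1 : 1 + (t : ℝ) / N ≤ Real.exp ((t : ℝ) / N) := by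
      have := Real.add_one_le_exp ((t : ℝ) / N)
      linarith
    have h2 : (0 : ℝ) ≤ 1 + (t : ℝ) / N := by positivity
    calc (1 + (t : ℝ) / N) ^ (n * k) ≤ Real.exp ((t : ℝ) / N) ^ (n * k) :=
          pow_le_pow_left₀ h2 h1 _
      _ = Real.exp (((n * k : ℕ) : ℝ) * ((t : ℝ) / N)) := (Real.exp_nat_mul _ _).symm
      _ ≤ X := by
        rw [hX, Real.exp_le_exp]
        have hk' : (k : ℝ) ≤ N := by exact_mod_cast hk
        have h3 : ((n * k : ℕ) : ℝ) * ((t : ℝ) / N) = t * n * (k / N) := by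
          push_cast
          ring
        rw [h3]
        have h4 : (k : ℝ) / N ≤ 1 := by
          rw [div_le_one hN0]
          exact hk'
        have h5 : (0 : ℝ) ≤ t * n := by positivity
        calc (t : ℝ) * n * (k / N) ≤ t * n * 1 := mul_le_mul_of_nonneg_left h4 h5
          _ = t * n := mul_one _
  set ε : ℝ := α₀ / (4 * N * X) with hε
  have hε0 : 0 < ε := by positivity
  have hbd : (N : ℝ) * ((C * ((t : ℝ) / N) ^ 2 + ε) * X) < α₀ := by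
    have e1 : (N : ℝ) * ((C * ((t : ℝ) / N) ^ 2 + ε) * X) = C * t ^ 2 * X / N + α₀ / 4 := by
      rw [hε]
      field_simp
    have e2 : C * t ^ 2 * X / N ≤ α₀ / 4 := by
      rw [div_le_iff₀ hα] at hN2
      rw [div_le_iff₀ hN0]
      nlinarith [hN2]
    rw [e1]
    linarith
  have ht1' : 1 ≤ t := by exact_mod_cast ht1
  have htN' : t ≤ N := by exact_mod_cast htN
  obtain ⟨α, hT, -⟩ := iter T n C ν₀ α₀ hC hν H h0 t N ht1' htN' ε X hε0 hXk hbd N (le_refl _)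
  refine ⟨_, α, hT, ?_⟩
  have hB : 1 + (t : ℝ) ≤ (1 + (t : ℝ) / N) ^ N := by
    have h1 := one_add_mul_le_pow (a := (t : ℝ) / N)
      (by have : (0 : ℝ) ≤ (t : ℝ) / N := by positivity
          linarith) N
    have h2 : 1 + (N : ℝ) * ((t : ℝ) / N) = 1 + t := by field_simp
    rw [h2] at h1
    exact h1
  have hp : (0 : ℝ) < (1 + (t : ℝ) / N) ^ N := by positivity
  rw [div_mul_eq_mul_div, div_lt_one hp]
  linarith

end Pool.Agent.Lib.MP_410da7_agN
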