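import Pool.Agent.Lib.MP_410da7_agN.SpecN
import Pool.Agent.Lib.MP_410da7_agA.A0

/-!
# C46, block N: transcendental elements have poles
-/

set_option autoImplicit false

namespace Pool.Agent.Lib.MP_410da7_agN

open Pool.Agent.Lib.MP_410da7_agA WithZero IntermediateField

open Pool.Agent.Lib.MP_410da7_agA.a0Aux in
theorem pole : PoleStmt := by
  intro k K _ _ _ _ hfin F hFt
  set G : K := F⁻¹ with hG
  have hGt : Transcendental k G := by
    intro h
    apply hFt
    rw [hG] at h
    simpa using h.inv
  obtain ⟨t, hGt', ht⟩ := exists_isTranscendenceBasis_superset (R := k) (s := ({G} : Set K)) (by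
    have h1 := (algebraicIndependent_singleton_iff (R := k)
      (x := fun i : ({G} : Set K) => (id i : K)) ⟨G, rfl⟩).mpr hGt
    exact h1)
  have hGmem : G ∈ t := hGt' rfl
  let L : IntermediateField k K := adjoin k (t \ {G})
  have hGL : Transcendental L G := by
    rw [IntermediateField.transcendental_adjoin_iff]
    have h1 := ht.1.transcendental_adjoin (s := {i : t | i.1 ≠ G}) (i := ⟨G, hGmem⟩) (by simp)
    have h2 : (Subtype.val '' {i : t | i.1 ≠ G} : Set K) = t \ {G} := by
      ext y
      simp [and_comm]
    rw [h2] at h1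
    exact h1
  have halg : Algebra.IsAlgebraic L⟮G⟯ K := by
    have h1 := ht.isAlgebraic_field
    have h2 : ∀ y ∈ adjoin k (Set.range (Subtype.val : t → K)), y ∈ L⟮G⟯ := by
      have h3 : adjoin k (Set.range (Subtype.val : t → K)) ≤ L⟮G⟯.restrictScalars k := by
        rw [adjoin_le_iff]
        rintro _ ⟨⟨y, hy⟩, rfl⟩
        by_cases hyG : y = G
        · subst hyG
          exact mem_adjoin_simple_self L _
        · have h4 : y ∈ L := subset_adjoin k _ ⟨hy, hyG⟩
          exact L⟮G⟯.algebraMap_mem ⟨y, h4⟩
      intro y hy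
      exact h3 hy
    let f : adjoin k (Set.range (Subtype.val : t → K)) →+* L⟮G⟯ :=
      { toFun := fun y => ⟨y.1, h2 y.1 y.2⟩
        map_one' := rfl
        map_zero' := rfl
        map_add' := fun _ _ => rfl
        map_mul' := fun _ _ => rfl }
    let _ : Algebra (adjoin k (Set.range (Subtype.val : t → K))) L⟮G⟯ := f.toAlgebra
    have h5 : IsScalarTower (adjoin k (Set.range (Subtype.val : t → K))) L⟮G⟯ K :=
      IsScalarTower.of_algebraMap_eq fun _ => rfl
    exact Algebra.IsAlgebraic.tower_top (K := adjoin k (Set.range (Subtype.val : t → K))) L⟮G⟯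
  have hess : Algebra.EssFiniteType L K := Algebra.EssFiniteType.of_comp k L K
  have hch : CharZero L := charZero_of_injective_algebraMap (algebraMap k L).injective
  obtain ⟨v, hv1, hv2⟩ := exists_val L K G hGL
  refine ⟨v, ?_, ?_⟩
  · intro c hc
    have h1 : ∀ c : k, v (algebraMap k K c) ≤ 1 := fun c => hv2 (algebraMap k L c)
    refine le_antisymm (h1 c) ?_
    have h2 := h1 c⁻¹
    rw [map_inv₀, map_inv₀] at h2
    have h3 : v (algebraMap k K c) ≠ 0 := by
      rw [Valuation.ne_zero_iff]
      simpa using hc
    have h4 := mul_le_mul_right h2 (v (algebraMap k K c))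
    rw [mul_inv_cancel₀ h3, mul_one] at h4
    exact h4
  · by_contra hle
    rw [not_lt] at hle
    have hF0 : v F ≠ 0 := by
      rw [Valuation.ne_zero_iff]
      rintro rfl
      exact hFt isAlgebraic_zero
    have h5 : v F * v G = 1 := by
      rw [hG, map_inv₀, mul_inv_cancel₀ hF0]
    have h6 : v F * v G < 1 := by
      refine lt_of_le_of_lt ?_ hv1
      calc v F * v G ≤ 1 * v G := by gcongr
        _ = v G := one_mul _
    exact absurd h5 h6.ne

end Pool.Agent.Lib.MP_410da7_agN
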