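import Pool.Agent.Lib.MP_410da7_agN.SpecN
import Pool.Agent.Lib.MP_410da7_agA.C1

/-!
# C46, block N: R1 and R2, the restriction to the generic cut
-/

set_option autoImplicit false

namespace Pool.Agent.Lib.MP_410da7_agN

open Pool.Agent.Lib.MP_410da7_agA WithZero MvPolynomial Module
open Pool.Agent.Lib.MP_410da7_agA.c2Aux (PP LL gg gL gg_ind gg_none)

namespace RAux

section abs

variable {F E : Type} [Field F] [Field E] [Algebra F E] {s : ℕ} (β : Fin s → E)

/-- evaluation at the generic member, coefficients in `F` -/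
noncomputable def evF : MvPolynomial (Option (Fin s)) F →ₐ[F] LL F β := aeval (gL F β)

theorem evF_val (c : MvPolynomial (Option (Fin s)) F) :
    algebraMap (LL F β) (PP E s) (evF β c) = aeval (gg β) c := by
  show (LL F β).val (aeval (gL F β) c) = _
  rw [← AlgHom.comp_apply, MvPolynomial.comp_aeval]
  rfl

theorem ev_map (c : MvPolynomial (Option (Fin s)) F) :
    (aeval (gg β) : MvPolynomial (Option (Fin s)) E →ₐ[E] PP E s)
      (map (algebraMap F E) c) = aeval (gg β) c := by
  rw [aeval_map_algebraMap]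

theorem evF_inj (hind : AlgebraicIndependent F (gg β)) : Function.Injective (evF (F := F) β) := by
  intro c c' h
  have h1 := congrArg (algebraMap (LL F β) (PP E s)) h
  rw [evF_val, evF_val] at h1
  exact hind h1

/-- the fraction field -/
theorem isFrac (hind : AlgebraicIndependent F (gg β)) :
    letI := (evF (F := F) β).toRingHom.toAlgebra
    IsFractionRing (MvPolynomial (Option (Fin s)) F) (LL F β) := by
  let _ := (evF (F := F) β).toRingHom.toAlgebra
  have : FaithfulSMul (MvPolynomial (Option (Fin s)) F) (LL F β) := by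
    rw [faithfulSMul_iff_algebraMap_injective]
    exact evF_inj β hind
  refine IsFractionRing.of_field _ _ ?_
  intro z
  obtain ⟨x, y, h⟩ := (IntermediateField.mem_adjoin_range_iff F (gg β) z.1).1 z.2
  refine ⟨x, y, ?_⟩
  apply Subtype.ext
  show z.1 = (algebraMap (LL F β) (PP E s)) (evF β x / evF β y)
  rw [map_div₀, evF_val, evF_val]
  exact h

theorem coeff_none : coeff (Finsupp.single none 1) (lin β) = 1 := by
  classical
  rw [lin, coeff_add, coeff_X, if_pos rfl, coeff_sum, Finset.sum_eq_zero, add_zero]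
  intro j _
  rw [coeff_C_mul, coeff_X, if_neg, mul_zero]
  intro h
  have := Finsupp.single_left_injective (one_ne_zero) h
  exact absurd this (by simp)

theorem coeff_some (j : Fin s) : coeff (Finsupp.single (some j) 1) (lin β) = β j := by
  classical
  rw [lin, coeff_add, coeff_X, if_neg, coeff_sum, zero_add, Finset.sum_eq_single j]
  · rw [coeff_C_mul, coeff_X, if_pos rfl, mul_one]
  · intro i _ hi
    rw [coeff_C_mul, coeff_X, if_neg, mul_zero]
    intro h
    have h1 := Finsupp.single_left_injective (one_ne_zero) h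
    exact hi (Option.some.inj h1)
  · intro h; exact absurd (Finset.mem_univ j) h
  · intro h
    have := Finsupp.single_left_injective (one_ne_zero) h
    exact absurd this (by simp)

theorem lin_ne : lin β ≠ 0 := by
  intro h
  have h1 := coeff_none β
  rw [h, coeff_zero] at h1
  exact zero_ne_one h1

theorem ev_lin : (aeval (gg β) : MvPolynomial (Option (Fin s)) E →ₐ[E] PP E s) (lin β) = 0 := by
  rw [lin, map_add, aeval_X, map_sum, gg_none, neg_add_eq_zero]
  apply Finset.sum_congr rfl
  intro j _
  rw [map_mul, aeval_C, aeval_X]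

theorem la1' (hl : LA1Stmt) (hind : AlgebraicIndependent F (gg β)) (V W : Submodule F E)
    (V' : Submodule (LL F β) (PP E s)) (hW : Module.Finite F W) (hV' : Module.Finite (LL F β) V')
    (hv : ∀ v ∈ V, algebraMap E (PP E s) v ∈ V')
    (hP : ∀ P : MvPolynomial (Option (Fin s)) E, (∀ μ, coeff μ P ∈ V) → aeval (gg β) P = 0 →
      ∃ G : MvPolynomial (Option (Fin s)) E, (∀ μ, coeff μ G ∈ W) ∧ P = lin β * G) :
    Module.Finite F V ∧ finrank F V ≤ finrank F W + finrank (LL F β) V' := by
  let _ := (evF (F := F) β).toRingHom.toAlgebra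
  have : IsFractionRing (MvPolynomial (Option (Fin s)) F) (LL F β) := isFrac _ hind
  exact hl (Option (Fin s)) F E (LL F β) (PP E s)
    ((aeval (gg β) : MvPolynomial (Option (Fin s)) E →ₐ[E] PP E s) :
      MvPolynomial (Option (Fin s)) E →+* PP E s)
    (lin β) V W V' (lin_ne _)
    (fun c => (ev_map _ c).trans (evF_val _ c).symm) hW hV'
    (fun v h => by
      have h2 : ((aeval (gg β) : MvPolynomial (Option (Fin s)) E →ₐ[E] PP E s) :
          MvPolynomial (Option (Fin s)) E →+* PP E s) (C v) =
          algebraMap E (PP E s) v := aeval_C _ _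
      rw [h2]
      exact hv v h) hP

theorem la2' (hl : LA2Stmt) (hind : AlgebraicIndependent F (gg β)) (V W : Submodule F E)
    (hW : Module.Finite F W) (hv : ∀ v ∈ V, ∀ μ, coeff μ (C v * lin β) ∈ W) :
    finrank F V + finrank (LL F β) (Submodule.span (LL F β)
      (algebraMap E (PP E s) '' (W : Set E))) ≤ finrank F W := by
  let _ := (evF (F := F) β).toRingHom.toAlgebra
  have : IsFractionRing (MvPolynomial (Option (Fin s)) F) (LL F β) := isFrac _ hind
  have key := hl (Option (Fin s)) F E (LL F β) (PP E s)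
    ((aeval (gg β) : MvPolynomial (Option (Fin s)) E →ₐ[E] PP E s) :
      MvPolynomial (Option (Fin s)) E →+* PP E s)
    (lin β) V W (lin_ne _)
    (fun c => (ev_map _ c).trans (evF_val _ c).symm) (ev_lin β) hW hv
  have h2 : ∀ v : E, ((aeval (gg β) : MvPolynomial (Option (Fin s)) E →ₐ[E] PP E s) :
      MvPolynomial (Option (Fin s)) E →+* PP E s) (C v) =
      algebraMap E (PP E s) v := fun v => aeval_C _ _
  rw [show (fun x : E => ((aeval (gg β) : MvPolynomial (Option (Fin s)) E →ₐ[E] PP E s) :
      MvPolynomial (Option (Fin s)) E →+* PP E s) (C x)) = ⇑(algebraMap E (PP E s)) from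
      funext h2] at key
  exact key

end abs

section pr

variable {K : Type} [Field K] [Algebra ℂ K] (p : Pr K) (A : Row K)

theorem b0_ne : algebraMap K p.E (A.b 0) ≠ 0 := by
  rw [Ne, map_eq_zero]; exact A.ne

/-- the multiplication by `b_0` -/
noncomputable def mb : p.E →ₗ[p.F] p.E := LinearMap.mulLeft p.F (algebraMap K p.E (A.b 0))

theorem mb_apply (x : p.E) : mb p A x = algebraMap K p.E (A.b 0) * x := rfl

theorem mb_inj : Function.Injective (mb p A) := by
  intro x y h
  exact mul_left_cancel₀ (b0_ne p A) h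

theorem charZero_F : CharZero p.F := charZero_of_injective_algebraMap (algebraMap ℂ p.F).injective

theorem res_cut (w : Valuation (PP p.E A.s) ℤᵐ⁰) :
    p.res (w.comap (algebraMap p.E (PP p.E A.s))) = (p.cut A).res w := by
  ext x
  rfl

theorem tr_cut (w : Valuation (PP p.E A.s) ℤᵐ⁰) (hw : Tr (LL p.F (p.beta A)) w) :
    Tr p.F (w.comap (algebraMap p.E (PP p.E A.s))) := by
  intro c hc
  have h1 := hw (algebraMap p.F (LL p.F (p.beta A)) c) (by rw [Ne, map_eq_zero]; exact hc)
  exact h1

theorem mem_cut (N : Sz K) {f : p.E} (hf : f ∈ p.H0 N) :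
    algebraMap p.E (PP p.E A.s) f ∈ ((p.cut A).H0 N : Submodule (LL p.F (p.beta A)) (PP p.E A.s)) := by
  intro w hw
  have h1 := hf _ (tr_cut p A w hw)
  rw [res_cut] at h1
  exact h1

theorem coeff_mem (hg : GaussStmt) (N : Sz K) (G : MvPolynomial (Option (Fin A.s)) p.E)
    (hP : ∀ κ, coeff κ (lin (p.beta A) * G) ∈ p.H0 N) (μ : Option (Fin A.s) →₀ ℕ) :
    coeff μ G ∈ (p.H0 (fun v => N v / rz A v)).map (mb p A) := by
  refine ⟨coeff μ G / algebraMap K p.E (A.b 0), ?_, ?_⟩
  · intro w hw
    have hb : w (algebraMap K p.E (A.b 0)) ≠ 0 := by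
      rw [Valuation.ne_zero_iff]; exact b0_ne p A
    have key : ∀ o c, coeff (Finsupp.single o 1) (lin (p.beta A)) = c →
        w c * w (coeff μ G) ≤ N (p.res w) := by
      rintro o _ rfl
      obtain ⟨κ, hκ⟩ := hg _ _ w (lin (p.beta A)) G (Finsupp.single o 1) μ
      exact hκ.trans (hP κ w hw)
    rw [map_div₀, div_le_iff₀ (zero_lt_iff.2 hb), div_mul_eq_mul_div,
      le_div_iff₀ (zero_lt_iff.2 (rz_ne A _))]
    obtain ⟨j, hj⟩ := exists_rz A (p.res w)
    rw [hj, Pr.res_apply]
    refine Fin.cases ?_ (fun j => ?_) j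
    · have h1 := key none 1 (coeff_none _)
      rw [map_one, one_mul] at h1
      exact mul_le_mul_left h1 _
    · have h1 := key (some j) _ (coeff_some _ j)
      have h2 : w (p.beta A j) * w (algebraMap K p.E (A.b 0)) =
          w (algebraMap K p.E (A.b j.succ)) := by
        rw [← map_mul, Pr.beta, ← map_mul, div_mul_cancel₀ _ A.ne]
      rw [← h2, mul_comm, mul_right_comm]
      exact mul_le_mul_left h1 _
  · rw [mb_apply, mul_div_cancel₀ _ (b0_ne p A)]

/-- the span of a finite dimensional space is finite dimensional -/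
theorem S_span (T : Set K) : p.S (Submodule.span ℂ T) =
    Submodule.span p.F (algebraMap K p.E '' T) := by
  apply le_antisymm
  · rw [Pr.S, Submodule.span_le]
    rintro _ ⟨x, hx, rfl⟩
    induction hx using Submodule.span_induction with
    | mem x hx => exact Submodule.subset_span ⟨x, hx, rfl⟩
    | zero => rw [map_zero]; exact zero_mem _
    | add x y _ _ hx hy => rw [map_add]; exact add_mem hx hy
    | smul c x _ hx =>
      have h1 : algebraMap K p.E (c • x) = (algebraMap ℂ p.F c) • algebraMap K p.E x := by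
        rw [Algebra.smul_def, map_mul, Algebra.smul_def,
          ← IsScalarTower.algebraMap_apply ℂ K p.E, ← IsScalarTower.algebraMap_apply ℂ p.F p.E]
      rw [h1]
      exact Submodule.smul_mem _ _ hx
  · exact Submodule.span_mono (Set.image_mono Submodule.subset_span)

theorem S_fin {V : Submodule ℂ K} (hV : V.FG) : Module.Finite p.F (p.S V) := by
  obtain ⟨T, rfl⟩ := hV
  rw [S_span]
  exact FiniteDimensional.span_of_finite _ (T.finite_toSet.image _)

theorem S_mono {V W : Submodule ℂ K} (h : V ≤ W) : p.S V ≤ p.S W :=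
  Submodule.span_mono (Set.image_mono h)

theorem d_mono {V W : Submodule ℂ K} (h : V ≤ W) (hW : W.FG) : p.d V ≤ p.d W := by
  have := S_fin p hW
  exact Submodule.finrank_mono (S_mono p h)

theorem mem_S {V : Submodule ℂ K} {x : K} (hx : x ∈ V) : algebraMap K p.E x ∈ p.S V :=
  Submodule.subset_span ⟨x, hx, rfl⟩

theorem mul_mem_S {V W : Submodule ℂ K} {x : p.E} (hx : x ∈ p.S V) {y : K} (hy : y ∈ W) :
    algebraMap K p.E y * x ∈ p.S (V * W) := by
  induction hx using Submodule.span_induction with
  | mem x hx =>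
    obtain ⟨x, hx, rfl⟩ := hx
    rw [← map_mul, mul_comm y x]
    exact mem_S p (Submodule.mul_mem_mul hx hy)
  | zero => rw [mul_zero]; exact zero_mem _
  | add a b _ _ ha hb => rw [mul_add]; exact add_mem ha hb
  | smul c a _ ha => rw [mul_smul_comm]; exact Submodule.smul_mem _ _ ha

theorem rspan_FG : (rspan A).FG := Submodule.fg_span (Set.finite_range _)

theorem b_mem (j : Fin (A.s + 1)) : A.b j ∈ rspan A := Submodule.subset_span ⟨j, rfl⟩

theorem coeff_S (V : Submodule ℂ K) (v : p.E) (hv : v ∈ (p.S V).map (mb p A))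
    (μ : Option (Fin A.s) →₀ ℕ) : coeff μ (C v * lin (p.beta A)) ∈ p.S (V * rspan A) := by
  classical
  obtain ⟨x, hx, rfl⟩ := hv
  rw [coeff_C_mul, lin, coeff_add, coeff_sum, mul_add, Finset.mul_sum, mb_apply]
  refine add_mem ?_ (sum_mem fun j _ => ?_)
  · rw [coeff_X]
    split_ifs
    · rw [mul_one]; exact mul_mem_S p hx (b_mem A 0)
    · rw [mul_zero]; exact zero_mem _
  · rw [coeff_C_mul, coeff_X]
    split_ifs
    · rw [mul_one, mul_right_comm, Pr.beta, ← map_mul, mul_div_cancel₀ _ A.ne]
      exact mul_mem_S p hx (b_mem A j.succ)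
    · rw [mul_zero, mul_zero]; exact zero_mem _

theorem span_S (V : Submodule ℂ K) :
    Submodule.span (LL p.F (p.beta A)) (algebraMap p.E (PP p.E A.s) '' (p.S V : Set p.E)) =
      Submodule.span (LL p.F (p.beta A)) (algebraMap K (PP p.E A.s) '' (V : Set K)) := by
  apply le_antisymm
  · rw [Submodule.span_le]
    rintro _ ⟨x, hx, rfl⟩
    induction hx using Submodule.span_induction with
    | mem x hx =>
      obtain ⟨x, hx, rfl⟩ := hx
      exact Submodule.subset_span ⟨x, hx, rfl⟩
    | zero => rw [map_zero]; exact zero_mem _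
    | add x y _ _ hx hy => rw [map_add]; exact add_mem hx hy
    | smul c x _ hx =>
      have h1 : algebraMap p.E (PP p.E A.s) (c • x) =
          (algebraMap p.F (LL p.F (p.beta A)) c) • algebraMap p.E (PP p.E A.s) x := by
        rw [Algebra.smul_def, map_mul, Algebra.smul_def]
        rfl
      rw [h1]
      exact Submodule.smul_mem _ _ hx
  · rw [Submodule.span_le]
    rintro _ ⟨x, hx, rfl⟩
    exact Submodule.subset_span ⟨_, mem_S p hx, rfl⟩

end pr

end RAux

open RAux

theorem r1 (hn : N1Stmt) (hg : GaussStmt) (hf : FacStmt) (hl : LA1Stmt) : R1Stmt := by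
  intro K _ _ p A N d hA hG hW hV'
  obtain ⟨hβ, -⟩ := hn K p A d hA hG
  have := charZero_F p
  have hind : AlgebraicIndependent p.F (gg (p.beta A)) := gg_ind c1 _ hβ
  have hWf : Module.Finite p.F (p.H0 (fun v => N v / rz A v)) := hW
  have hW' : Module.Finite p.F ((p.H0 (fun v => N v / rz A v)).map (mb p A)) := inferInstance
  have key := la1' _ hl hind (p.H0 N) ((p.H0 (fun v => N v / rz A v)).map (mb p A))
    ((p.cut A).H0 N : Submodule (LL p.F (p.beta A)) (PP p.E A.s)) hW' hV'
    (fun v hv => mem_cut p A N hv)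
    (fun P hP h0 => by
      obtain ⟨G, rfl⟩ := hf p.E A.s (p.beta A) P h0
      exact ⟨G, coeff_mem p A hg N G hP, rfl⟩)
  refine ⟨key.1, key.2.trans ?_⟩
  exact Nat.add_le_add_right (Submodule.finrank_map_le _ _) _

theorem r2 (hn : N1Stmt) (hl : LA2Stmt) : R2Stmt := by
  intro K _ _ p A V d hA hG hV
  obtain ⟨hβ, -⟩ := hn K p A d hA hG
  have := charZero_F p
  have hind : AlgebraicIndependent p.F (gg (p.beta A)) := gg_ind c1 _ hβ
  have hW : Module.Finite p.F (p.S (V * rspan A)) := S_fin p (hV.mul (rspan_FG A))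
  have key := la2' _ hl hind ((p.S V).map (mb p A)) (p.S (V * rspan A)) hW (coeff_S p A V)
  rw [span_S] at key
  have h1 : finrank p.F ((p.S V).map (mb p A)) = finrank p.F (p.S V) :=
    ((p.S V).equivMapOfInjective (mb p A) (mb_inj p A)).finrank_eq.symm
  rw [h1] at key
  exact key

end Pool.Agent.Lib.MP_410da7_agN
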