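import Pool.Agent.Lib.MP_410da7_agN.SpecN

/-!
# C46, block N, module Start: the start of the path
-/

set_option autoImplicit false

namespace Pool.Agent.Lib.MP_410da7_agN

open Pool.Agent.Lib.MP_410da7_agA WithZero MvPolynomial Module
open Pool.Agent.Lib.MP_410da7_agA.c2Aux (PP LL gg gL)

namespace StartAux

section

variable {K : Type} [Field K]

/-- Rows from finite families. -/
theorem exists_row {ι : Type} [Fintype ι] (c : ι → K) (i : ι) (hi : c i ≠ 0) :
    ∃ W : Row K, W.b 0 = c i ∧ ∀ j, ∃ l, W.b l = c j := by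
  classical
  have hpos : 0 < Fintype.card ι := Fintype.card_pos_iff.2 ⟨i⟩
  obtain ⟨s, hs⟩ : ∃ s, Fintype.card ι = s + 1 := ⟨Fintype.card ι - 1, by omega⟩
  let e : ι ≃ Fin (s + 1) := (Fintype.equivFinOfCardEq hs).trans
    (Equiv.swap (Fintype.equivFinOfCardEq hs i) 0)
  have he : e i = 0 := by
    simp [e]
  have he' : e.symm 0 = i := by rw [← he, Equiv.symm_apply_apply]
  refine ⟨⟨s, fun l => c (e.symm l), by rw [he']; exact hi⟩, ?_, fun j => ⟨e j, ?_⟩⟩
  · show c (e.symm 0) = c i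
    rw [he']
  · show c (e.symm (e j)) = c j
    rw [Equiv.symm_apply_apply]

/-- The row `g H`. -/
noncomputable def gmul (g : K) (hg : g ≠ 0) (H : Row K) : Row K :=
  ⟨H.s, fun j => g * H.b j, mul_ne_zero hg H.ne⟩

theorem gmul_bir [Algebra ℂ K] (g : K) (hg : g ≠ 0) (H : Row K) (hH : Bir H) :
    Bir (gmul g hg H) := by
  have h : (fun j => (gmul g hg H).b j / (gmul g hg H).b 0) = fun j => H.b j / H.b 0 := by
    funext j
    exact mul_div_mul_left _ _ hg
  unfold Bir at hH ⊢
  rw [h]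
  exact hH

theorem gmul_rz (g : K) (hg : g ≠ 0) (H : Row K) (v : Valuation K ℤᵐ⁰) :
    rz (gmul g hg H) v ≤ v g * rz H v := by
  refine rz_le _ v fun j => ?_
  show v (g * H.b j) ≤ _
  rw [map_mul]
  exact mul_le_mul_right (le_rz H v j) _

/-- The product of two rows. -/
theorem exists_mul [Algebra ℂ K] (A B : Row K) (hA : Bir A) : ∃ W : Row K, Bir W ∧
    ∀ v : Valuation K ℤᵐ⁰, rz A v * rz B v ≤ rz W v := by
  obtain ⟨W, h0, h1⟩ := exists_row (fun p : Fin (A.s + 1) × Fin (B.s + 1) => A.b p.1 * B.b p.2)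
    (0, 0) (mul_ne_zero A.ne B.ne)
  refine ⟨W, ?_, fun v => ?_⟩
  · unfold Bir at hA ⊢
    rw [eq_top_iff, ← hA]
    refine IntermediateField.adjoin.mono _ _ _ ?_
    rintro _ ⟨j, rfl⟩
    obtain ⟨l, hl⟩ := h1 (j, 0)
    refine ⟨l, ?_⟩
    simp only
    rw [hl, h0]
    exact mul_div_mul_right _ _ B.ne
  · obtain ⟨i, hi⟩ := exists_rz A v
    obtain ⟨j, hj⟩ := exists_rz B v
    obtain ⟨l, hl⟩ := h1 (i, j)
    rw [hi, hj, ← map_mul, ← hl]
    exact le_rz W v l

variable [Algebra ℂ K]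

theorem good_base {n : ℕ} (hn : Algebra.trdeg ℂ K = n) : (Pr.base K).Good n where
  gen := by
    show IntermediateField.adjoin ℂ (Set.range (algebraMap K K)) = ⊤
    rw [eq_top_iff]
    intro y _
    exact IntermediateField.subset_adjoin _ _ ⟨y, rfl⟩
  trdeg := hn

theorem good_it (hn : N1Stmt) (l : List (Row K)) : ∀ (p : Pr K) (d : ℕ), (∀ A ∈ l, Bir A) →
    p.Good (d + l.length) → (p.it l).Good d := by
  induction l with
  | nil =>
    intro p d _ h
    exact h
  | cons A l ih =>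
    intro p d hl h
    have h1 : p.Good (d + l.length + 1) := h
    exact ih (p.cut A) d (fun B hB => hl B (List.mem_cons_of_mem A hB))
      (hn K p A (d + l.length) (hl A List.mem_cons_self) h1).2

theorem deg_pos (hn : N1Stmt) (hf : FinStmt) (hK : Fg K) (p : Pr K) (l : List (Row K))
    (hl : ∀ A ∈ l, Bir A) (h : p.Good l.length) : 1 ≤ p.deg l := by
  have h1 := good_it hn l p 0 hl (by rw [zero_add]; exact h)
  have h2 := hf K (p.it l) hK h1
  exact Module.finrank_pos

/-- The elements of the powers of a row. -/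
theorem val_pow (A : Row K) (v : Valuation K ℤᵐ⁰) (hv : Tr ℂ v) (k : ℕ) :
    ∀ f ∈ rspan A ^ k, v f ≤ rz A v ^ k := by
  have hc : ∀ c : ℂ, v (algebraMap ℂ K c) ≤ 1 := by
    intro c
    by_cases h : c = 0
    · rw [h, map_zero, map_zero]
      exact zero_le
    · exact (hv c h).le
  induction k with
  | zero =>
    intro f hf
    rw [pow_zero, Submodule.mem_one] at hf
    obtain ⟨c, rfl⟩ := hf
    rw [pow_zero]
    exact hc c
  | succ k ih =>
    intro f hf
    rw [pow_succ] at hf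
    have h1 : ∀ g ∈ rspan A, v g ≤ rz A v := by
      intro g hg
      unfold rspan at hg
      induction hg using Submodule.span_induction with
      | mem x hx =>
        obtain ⟨j, rfl⟩ := hx
        exact le_rz A v j
      | zero =>
        rw [map_zero]
        exact zero_le
      | add x y _ _ hx hy => exact (v.map_add x y).trans (max_le hx hy)
      | smul c x _ hx =>
        rw [Algebra.smul_def, map_mul]
        exact (mul_le_of_le_one_left' (hc c)).trans hx
    refine Submodule.mul_induction_on hf ?_ ?_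
    · intro a ha b hb
      rw [map_mul, pow_succ]
      exact mul_le_mul' (ih a ha) (h1 b hb)
    · intro a b ha hb
      exact (v.map_add a b).trans (max_le ha hb)

theorem tr_res (p : Pr K) (w : Valuation p.E ℤᵐ⁰) (hw : Tr p.F w) : Tr ℂ (p.res w) := by
  intro c hc
  rw [Pr.res_apply, ← IsScalarTower.algebraMap_apply ℂ K p.E,
    IsScalarTower.algebraMap_apply ℂ p.F p.E]
  refine hw _ ?_
  rw [Ne, map_eq_zero]
  exact hc

theorem S_le (p : Pr K) (A : Row K) (k : ℕ) :
    p.S (rspan A ^ k) ≤ p.H0 (fun v => rz A v ^ k) := by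
  unfold Pr.S
  rw [Submodule.span_le]
  rintro _ ⟨f, hf, rfl⟩
  intro w hw
  exact val_pow A (p.res w) (tr_res p w hw) k f hf

theorem d_le (hu : UBStmt) (hK : Fg K) (A : Row K) (hA : Bir A) (d : ℕ) (p : Pr K)
    (hp : p.Good d) (k : ℕ) : p.d (rspan A ^ k) ≤ p.h (fun v => rz A v ^ k) := by
  have h1 := (hu K A hK hA d p hp k).1
  unfold Pr.HF at h1
  exact Submodule.finrank_mono (S_le p A k)

end

theorem choose_ge (c n k : ℕ) (hk : 2 * (c + n) ≤ k) :
    (2 ^ n * (n.factorial : ℝ))⁻¹ * (k : ℝ) ^ n ≤ ((k - c).choose n : ℝ) := by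
  have h1 := Nat.pow_le_choose (α := ℝ) n (k - c)
  have h2 : (k : ℝ) / 2 ≤ ((k - c + 1 - n : ℕ) : ℝ) := by
    have h3 : k ≤ 2 * (k - c + 1 - n) := by omega
    have h4 : (k : ℝ) ≤ 2 * ((k - c + 1 - n : ℕ) : ℝ) := by exact_mod_cast h3
    linarith
  have h5 : ((k : ℝ) / 2) ^ n ≤ ((k - c + 1 - n : ℕ) : ℝ) ^ n :=
    pow_le_pow_left₀ (by positivity) h2 n
  have hf : 0 < (n.factorial : ℝ) := by exact_mod_cast Nat.factorial_pos n
  calc (2 ^ n * (n.factorial : ℝ))⁻¹ * (k : ℝ) ^ n = ((k : ℝ) / 2) ^ n / n.factorial := by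
        rw [div_pow]
        field_simp
    _ ≤ ((k - c + 1 - n : ℕ) : ℝ) ^ n / n.factorial := by gcongr
    _ ≤ _ := h1

end StartAux

open StartAux

theorem start (hn : N1Stmt) (hf : FinStmt) (hu : UBStmt) (hl : LBStmt) (hb : BigStmt) :
    StartStmt := by
  intro K _ _ n P Q H hK hn1 htr hP hQ hH hP1 hQ1 hH1
  have hbase := good_base htr
  obtain ⟨W, hW, hWQ⟩ := exists_mul Q H hQ
  obtain ⟨c, hc⟩ := hl K H hK hH n (Pr.base K) hbase
  have hdeg : 1 ≤ (Pr.base K).deg (List.replicate n H) := by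
    refine deg_pos hn hf hK _ _ (fun A hA => ?_) (by rw [List.length_replicate]; exact hbase)
    rw [List.eq_of_mem_replicate hA]
    exact hH
  have hev : ∀ᶠ k : ℕ in Filter.atTop, (2 ^ n * (n.factorial : ℝ))⁻¹ * (k : ℝ) ^ n ≤
      (Pr.base K).h (fun v => rz H v ^ k) := by
    filter_upwards [Filter.eventually_ge_atTop (2 * (c + n))] with k hk
    refine (choose_ge c n k hk).trans ?_
    have h1 := hc k (by omega)
    have h2 := d_le hu hK H hH n (Pr.base K) hbase k
    have h3 : (k - c).choose n ≤ (Pr.base K).h (fun v => rz H v ^ k) :=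
      (Nat.le_mul_of_pos_left _ hdeg).trans (h1.trans h2)
    exact_mod_cast h3
  have hbig := hb K n hK hn1 htr H W (fun k v => rz H v ^ k) _ hH hW (by positivity)
    (fun k v _ => le_rfl) hev
  obtain ⟨k, g, hg, hgk⟩ := hbig.exists
  refine ⟨k, 1, Nat.cast_nonneg k, one_pos, gmul g hg H, 1, k, gmul_bir g hg H hH, le_rfl,
    by rw [Nat.cast_one, mul_one], ?_, ?_⟩
  · intro v hv
    have hP' : 1 ≤ rz P v := one_le_rsize P hP1 v
    rw [pow_one, pow_one]
    calc rz (gmul g hg H) v * rz Q v ≤ v g * rz H v * rz Q v :=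
          mul_le_mul_left (gmul_rz g hg H v) _
      _ = v g * (rz Q v * rz H v) := by rw [mul_assoc, mul_comm (rz H v)]
      _ ≤ v g * rz W v := mul_le_mul_right (hWQ v) _
      _ ≤ rz H v ^ k := hgk v hv
      _ ≤ rz P v * rz H v ^ k := le_mul_of_one_le_left' hP'
  · rw [Nat.cast_one, one_pow, mul_one]
    have h1 : 1 ≤ (Pr.base K).deg (List.replicate n (gmul g hg H)) := by
      refine deg_pos hn hf hK _ _ (fun A hA => ?_) (by rw [List.length_replicate]; exact hbase)
      rw [List.eq_of_mem_replicate hA]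
      exact gmul_bir g hg H hH
    exact_mod_cast h1

end Pool.Agent.Lib.MP_410da7_agN
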