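import Pool.Agent.Lib.MP_410da7_agN.Step4

/-!
# C46, block N, the step of the path
-/

set_option autoImplicit false

namespace Pool.Agent.Lib.MP_410da7_agN

open Filter Topology Module WithZero
open Pool.Agent.Lib.MP_410da7_agA

/-- The geometric part of the step: for large `k` there is a good system in the `k`-th multiple. -/
theorem st_geo {K : Type} [Field K] [Algebra ℂ K] {n : ℕ} (hUB : UBStmt) (hBig : BigStmt)
    (hCube : CubeWStmt) (hfg : Fg K) (hn : 1 ≤ n) (htr : Algebra.trdeg ℂ K = n)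
    (H A : Row K) (hH : Bir H) (hH1 : ∃ j, H.b j = 1) (hA : Bir A) (θ : Sz K)
    (hθ : ∀ v, Tr ℂ v → θ v ≤ rz A v) (γ : ℝ) (hγ : 0 < γ)
    (hh : ∀ᶠ k : ℕ in atTop, γ * (k : ℝ) ^ n ≤ (Pr.base K).h (fun v => θ v ^ k)) :
    ∃ k₀ : ℕ, ∀ᶠ k : ℕ in atTop, ∃ M' : Row K, Bir M' ∧
      (∀ v, Tr ℂ v → rz M' v ≤ θ v ^ (k + n * k₀)) ∧
      (n.factorial : ℝ) * ((Pr.base K).h (fun v => θ v ^ k) : ℝ) ≤
        (Pr.base K).deg (List.replicate n M') := by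
  obtain ⟨B, hB, hcube⟩ := hCube K n hfg htr
  obtain ⟨SB, hSB, hspanB⟩ := Submodule.fg_def.mp hB
  obtain ⟨Y, hY⟩ := exists_row (SB ∪ Set.range H.b) (hSB.union (Set.finite_range _))
    ⟨H.b 0, Or.inr ⟨0, rfl⟩, H.ne⟩
  have hHY : Set.range H.b ⊆ Set.range Y.b := by rw [hY]; exact Set.subset_union_right
  have hYB : Bir Y := bir_of_subset hH1 hHY hH
  have hY1 : ∃ j, Y.b j = 1 := by
    obtain ⟨j, hj⟩ := hH1
    obtain ⟨i, hi⟩ := hHY ⟨j, rfl⟩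
    exact ⟨i, by rw [hi, hj]⟩
  have hBY : B ≤ rspan Y := by
    rw [← hspanB, rspan]
    refine Submodule.span_mono ?_
    rw [hY]; exact Set.subset_union_left
  have hθA : ∀ k v, Tr ℂ v → θ v ^ k ≤ rz A v ^ k := fun k v hv => pow_le_pow_left' (hθ v hv) k
  obtain ⟨k₀, g₀, hg₀, hg₀'⟩ := (hBig K n hfg hn htr A Y (fun k v => θ v ^ k) γ hA hYB hγ
    hθA hh).exists
  -- finiteness
  have hfin : ∀ k, Module.Finite ℂ (VV (fun v => θ v ^ k : Sz K)) := by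
    intro k
    have h1 : Module.Finite ℂ (VV (fun v => rz A v ^ k : Sz K)) :=
      finite_VV (hUB K A hfg hA n (Pr.base K) (base_good htr) k).1
    have h2 : VV (fun v => θ v ^ k : Sz K) ≤ VV (fun v => rz A v ^ k : Sz K) := by
      intro f hf
      rw [mem_VV] at hf ⊢
      exact fun w hw => (hf w hw).trans (hθA k w hw)
    exact Submodule.finiteDimensional_of_le h2
  refine ⟨k₀, ?_⟩
  filter_upwards [hh, eventually_gt_atTop 0] with k hk hk0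
  have hkpos : (0 : ℝ) < (Pr.base K).h (fun v => θ v ^ k) :=
    lt_of_lt_of_le (mul_pos hγ (pow_pos (by exact_mod_cast hk0) n)) hk
  have hVne : ∃ a ∈ VV (fun v => θ v ^ k : Sz K), a ≠ 0 := by
    by_contra hcon
    push Not at hcon
    have h1 : VV (fun v => θ v ^ k : Sz K) = ⊥ := by
      rw [eq_bot_iff]
      intro a ha
      exact (Submodule.mem_bot ℂ).mpr (hcon a ha)
    have h2 : finrank ℂ (VV (fun v => θ v ^ k : Sz K)) = 0 := by rw [h1]; exact finrank_bot ℂ K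
    rw [finrank_VV] at h2
    rw [h2, Nat.cast_zero] at hkpos
    exact lt_irrefl _ hkpos
  obtain ⟨a₀, ha₀, ha₀0⟩ := hVne
  set V := VV (fun v => θ v ^ k : Sz K) with hV
  set U := VV (fun v => θ v ^ (k + n * k₀) : Sz K) with hU
  have hVfin : Module.Finite ℂ V := hfin k
  have hUfin : Module.Finite ℂ U := hfin (k + n * k₀)
  -- products
  have hprod : ∀ x ∈ V * B ^ n, g₀ ^ n * x ∈ U := by
    intro x hx
    rw [hU, mem_VV]
    intro w hw
    rw [map_mul, map_pow]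
    have h1 : ∀ b ∈ B, w b ≤ rz Y w := fun b hb => span_le_rz Y hw (hBY hb)
    have h2 : w x ≤ θ w ^ k * rz Y w ^ n := by
      refine mul_le_of (fun a ha => ?_) (pow_le_of hw h1 n) x hx
      rw [hV, mem_VV] at ha
      exact ha w hw
    calc w g₀ ^ n * w x ≤ w g₀ ^ n * (θ w ^ k * rz Y w ^ n) := mul_le_mul' le_rfl h2
      _ = θ w ^ k * (w g₀ * rz Y w) ^ n := by
        rw [mul_pow, mul_left_comm]
      _ ≤ θ w ^ k * (θ w ^ k₀) ^ n := mul_le_mul' le_rfl (pow_le_pow_left' (hg₀' w hw) n)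
      _ = θ w ^ (k + n * k₀) := by rw [← pow_mul, ← pow_add, mul_comm k₀ n]
  have hYmem : ∀ j, (g₀ ^ n * a₀) * Y.b j ∈ U := by
    intro j
    rw [hU, mem_VV]
    intro w hw
    rw [map_mul, map_mul, map_pow]
    have h1 : w a₀ ≤ θ w ^ k := by
      rw [hV, mem_VV] at ha₀
      exact ha₀ w hw
    have h2 : w (Y.b j) ≤ rz Y w ^ n :=
      (le_rz Y w j).trans (le_self_pow₀ (one_le_rz hY1 w) (by omega))
    calc w g₀ ^ n * w a₀ * w (Y.b j) ≤ w g₀ ^ n * θ w ^ k * rz Y w ^ n :=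
          mul_le_mul' (mul_le_mul' le_rfl h1) h2
      _ = θ w ^ k * (w g₀ * rz Y w) ^ n := by
        rw [mul_pow, mul_comm (w g₀ ^ n), mul_assoc]
      _ ≤ θ w ^ k * (θ w ^ k₀) ^ n := mul_le_mul' le_rfl (pow_le_pow_left' (hg₀' w hw) n)
      _ = θ w ^ (k + n * k₀) := by rw [← pow_mul, ← pow_add, mul_comm k₀ n]
  have hc0 : g₀ ^ n * a₀ ≠ 0 := mul_ne_zero (pow_ne_zero n hg₀) ha₀0
  obtain ⟨M', hM'⟩ := exists_row_span U ⟨(g₀ ^ n * a₀) * Y.b 0, hYmem 0, mul_ne_zero hc0 Y.ne⟩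
  have hM'B : Bir M' := bir_of_span hYB _ hc0 fun j => by rw [hM']; exact hYmem j
  refine ⟨M', hM'B, fun v hv => rz_le_of_span fun a ha => ?_, ?_⟩
  · rw [hM', hU, mem_VV] at ha
    exact ha v hv
  · refine st_cube n _ _ fun j₀ => ?_
    obtain ⟨j, hj, hj2⟩ := hcube V (Module.Finite.iff_fg.mp hVfin) j₀
    refine ⟨j, hj, ?_⟩
    have hub := hUB K M' hfg hM'B n (Pr.base K) (base_good htr) j
    have hfj : Module.Finite ℂ (VV (fun v => rz M' v ^ j : Sz K)) := finite_VV hub.1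
    have h1 : ∀ x ∈ (V * B ^ n) ^ j, (g₀ ^ n) ^ j * x ∈ VV (fun v => rz M' v ^ j : Sz K) := by
      intro x hx
      have h2 := st_mul_pow hprod j x hx
      rw [mem_VV]
      intro w hw
      refine pow_le_of hw (fun a ha => ?_) j _ h2
      rw [← hM'] at ha
      exact span_le_rz M' hw ha
    have h3 := st_finrank_le (pow_ne_zero j (pow_ne_zero n hg₀)) h1
    rw [finrank_VV] at h3
    exact hj2.trans (h3.trans hub.2)

theorem step (hN1 : N1Stmt) (hSiu : SiuWStmt) (hUB : UBStmt) (hLB : LBStmt) (hBig : BigStmt)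
    (hCube : CubeWStmt) : StepStmt := by
  intro K _ _ n P Q H hfg hn htr hP hQ hH hP1 hQ1 hH1 hdeg ν₀
  obtain ⟨E₀, hE₀⟩ := exists_nat_ge ν₀
  obtain ⟨HE, hHE1, hHEs⟩ := exists_row_pow H E₀
  obtain ⟨G, hG, hGs⟩ := exists_row_mul P HE
  have hHE1' := hHE1 hH1
  have hPG : Set.range P.b ⊆ Set.range G.b := by
    rw [hG]
    rintro _ ⟨j, rfl⟩
    obtain ⟨i, hi⟩ := hHE1'
    exact ⟨P.b j, ⟨j, rfl⟩, 1, ⟨i, hi⟩, mul_one _⟩
  have hGB : Bir G := bir_of_subset hP1 hPG hP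
  have hG1 : ∃ j, G.b j = 1 := by
    obtain ⟨j, hj⟩ := hP1
    obtain ⟨i, hi⟩ := hPG ⟨j, rfl⟩
    exact ⟨i, by rw [hi, hj]⟩
  have hGs' : ∀ v, rz G v = rz P v * rz H v ^ E₀ := fun v => by
    rw [rz, hGs, hHEs]; rfl
  have hPG' : ∀ v : Valuation K ℤᵐ⁰, Tr ℂ v → rz P v ≤ rz G v := by
    intro v _
    rw [hGs']
    calc rz P v = rz P v * 1 := (mul_one _).symm
      _ ≤ rz P v * rz H v ^ E₀ := mul_le_mul' le_rfl (one_le_pow₀ (one_le_rz hH1 v))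
  obtain ⟨g, hg, hsiu⟩ := hSiu K n P Q G hfg hn htr hP hQ hGB hP1 hQ1 hPG'
  refine ⟨n * (n - 1) * g * 2 ^ n, ?_, ?_⟩
  · have : (1 : ℝ) ≤ n := by exact_mod_cast hn
    have h2 : (0 : ℝ) ≤ (n : ℝ) - 1 := by linarith
    positivity
  rintro ν α hν s₁ s₂ hs₁ hs₁₂ ε hε hpos ⟨M, m, e, hM, hm, hem, hInV, hα⟩
  have hs₂ : 1 ≤ s₂ := hs₁.trans hs₁₂
  have hs₂' : (0 : ℝ) < s₂ := by exact_mod_cast hs₂
  have hs₁' : (0 : ℝ) < s₁ := by exact_mod_cast hs₁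
  have hm' : (0 : ℝ) < m := by exact_mod_cast hm
  -- `|M| ≤ |G|^m`
  have heE : e ≤ E₀ * m := by
    have : (e : ℝ) ≤ ((E₀ * m : ℕ) : ℝ) := by
      push_cast
      exact hem.trans (mul_le_mul_of_nonneg_right (hν.trans hE₀) hm'.le)
    exact_mod_cast this
  have hMG : ∀ v, Tr ℂ v → rz M v ≤ rz G v ^ m := by
    intro v hv
    calc rz M v = rz M v * 1 := (mul_one _).symm
      _ ≤ rz M v * rz Q v ^ m := mul_le_mul' le_rfl (one_le_pow₀ (one_le_rz hQ1 v))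
      _ ≤ rz P v ^ m * rz H v ^ e := hInV v hv
      _ ≤ rz P v ^ m * rz H v ^ (E₀ * m) :=
          mul_le_mul' le_rfl (pow_le_pow_right₀ (one_le_rz hH1 v) heE)
      _ = rz G v ^ m := by rw [hGs', mul_pow, ← pow_mul]
  have siu := hsiu M m hM hMG
  obtain ⟨c₁, hc₁⟩ := hLB K M hfg hM n (Pr.base K) (base_good htr)
  have hcutGood : ((Pr.base K).cut P).Good (n - 1) :=
    (hN1 K (Pr.base K) P (n - 1) hP (by rw [Nat.sub_add_cancel hn]; exact base_good htr)).2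
  obtain ⟨c₂, hc₂⟩ := hLB K M hfg hM (n - 1) _ hcutGood
  let θ : Sz K := fun v => rz M v ^ s₂ * rz P v ^ (s₁ * m) / rz Q v ^ (s₁ * m)
  have hθk : ∀ k : ℕ, (fun v => rz M v ^ (s₂ * k) * rz P v ^ (s₁ * m * k) /
      rz Q v ^ (s₁ * m * k) : Sz K) = fun v => θ v ^ k := by
    intro k
    funext v
    rw [pow_mul, pow_mul _ (s₁ * m) k, pow_mul _ (s₁ * m) k, ← mul_pow, ← div_pow]
  set C : ℝ := n * (n - 1) * g * 2 ^ n with hC
  set σ : ℝ := (s₁ : ℝ) / s₂ with hσ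
  have hσ0 : 0 < σ := div_pos hs₁' hs₂'
  have hnum := st_num n m s₁ s₂ ((Pr.base K).deg (List.replicate n M))
    ((Pr.base K).deg (P :: List.replicate (n - 1) M))
    ((Pr.base K).deg (Q :: List.replicate (n - 1) M)) g c₁ c₂ hn hm hs₂ hs₁₂ hg (hdeg M hM) α hα
    (fun k => ((Pr.base K).h (fun v => θ v ^ k) : ℝ)) (by
      filter_upwards [eventually_ge_atTop c₁, eventually_ge_atTop c₂] with k hk1 hk2
      have h1 := siu (s₂ * k) (s₁ * m * k)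
      rw [hθk] at h1
      have hsk : k ≤ s₂ * k := Nat.le_mul_of_pos_left k hs₂
      have h2 := hc₁ (s₂ * k) (hk1.trans hsk)
      have h3 := hc₂ (s₂ * k) (hk2.trans hsk)
      have h4 : ((Pr.base K).cut P).deg (List.replicate (n - 1) M) =
          (Pr.base K).deg (P :: List.replicate (n - 1) M) := rfl
      rw [h4] at h3
      have h5 := (Nat.add_le_add h2 (Nat.mul_le_mul_left (s₁ * m * k) h3)).trans h1
      exact_mod_cast h5)
    (ε / 2) (half_pos hε)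
  set γ : ℝ := ((s₂ : ℝ) * m) ^ n * (α - C * σ ^ 2 - ε / 2) / (n.factorial : ℝ) with hγdef
  have hf : (0 : ℝ) < (n.factorial : ℝ) := by exact_mod_cast n.factorial_pos
  have hγ : 0 < γ := by
    have : 0 < α - C * σ ^ 2 - ε / 2 := by linarith
    positivity
  obtain ⟨A, hA, hAs⟩ := exists_rowpow G hGB hG1 (m * s₂ + s₁ * m)
    (by have := Nat.mul_pos hm hs₂; omega)
  have hθA : ∀ v, Tr ℂ v → θ v ≤ rz A v := by
    intro v hv
    rw [hAs, pow_add]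
    calc θ v ≤ rz M v ^ s₂ * rz P v ^ (s₁ * m) := by
          change rz M v ^ s₂ * rz P v ^ (s₁ * m) / rz Q v ^ (s₁ * m) ≤ _
          rw [div_le_iff₀ (pow_pos (zero_lt_iff.mpr (rz_ne Q v)) _)]
          exact le_mul_of_one_le_right' (one_le_pow₀ (one_le_rz hQ1 v))
      _ ≤ (rz G v ^ m) ^ s₂ * rz G v ^ (s₁ * m) :=
          mul_le_mul' (pow_le_pow_left' (hMG v hv) s₂) (pow_le_pow_left' (hPG' v hv) _)
      _ = rz G v ^ (m * s₂) * rz G v ^ (s₁ * m) := by rw [← pow_mul]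
  obtain ⟨k₀, hgeo⟩ := st_geo hUB hBig hCube hfg hn htr H A hH hH1 hA θ hθA γ hγ hnum
  -- choice of `k`
  have hlim : Tendsto (fun k : ℕ => (((1 * k + n * k₀ : ℕ) : ℝ) / k) ^ n) atTop (𝓝 (1 ^ n)) := by
    have := (st_lin_tendsto 1 (n * k₀)).pow n
    simpa using this
  have hlim2 : ∀ᶠ k : ℕ in atTop, (α - C * σ ^ 2 - ε) *
      (((1 * k + n * k₀ : ℕ) : ℝ) / k) ^ n < α - C * σ ^ 2 - ε / 2 := by
    have h1 := hlim.const_mul (α - C * σ ^ 2 - ε)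
    refine h1.eventually (gt_mem_nhds ?_)
    rw [one_pow, mul_one]; linarith
  obtain ⟨k, ⟨⟨M', hM'B, hM'θ, hM'd⟩, hk2⟩, hk3, hk0⟩ :=
    ((hgeo.and hlim2).and (hnum.and (eventually_gt_atTop 0))).exists
  have hk' : (0 : ℝ) < k := by exact_mod_cast hk0
  set K' : ℕ := k + n * k₀ with hK'
  have hK'1 : 1 ≤ K' := by omega
  have hK'pos : (0 : ℝ) < K' := by exact_mod_cast hK'1
  have hm1 : (1 : ℝ) + σ = ((s₂ * m + s₁ * m : ℕ) : ℝ) / ((s₂ : ℝ) * m) := by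
    rw [hσ]; push_cast; field_simp
  refine ⟨M', K' * (s₂ * m + s₁ * m), K' * (s₂ * e), hM'B, ?_, ?_, ?_, ?_⟩
  · have h1 := Nat.mul_pos hs₂ hm
    exact Nat.mul_pos hK'1 (by omega)
  · rw [hm1]
    push_cast
    have h1 : (0 : ℝ) < (s₂ : ℝ) * m + s₁ * m := by positivity
    have e1 : ν / (((s₂ : ℝ) * m + s₁ * m) / ((s₂ : ℝ) * m)) * (K' * ((s₂ : ℝ) * m + s₁ * m)) =
        K' * (s₂ * (ν * m)) := by field_simp
    rw [e1]
    exact mul_le_mul_of_nonneg_left (mul_le_mul_of_nonneg_left hem hs₂'.le) hK'pos.le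
  · intro v hv
    have h1 := st_val (rz M v) (rz Q v) (rz P v) (rz H v) (rz_ne Q v) m e s₁ s₂ (hInV v hv)
    calc rz M' v * rz Q v ^ (K' * (s₂ * m + s₁ * m))
        ≤ θ v ^ K' * rz Q v ^ (K' * (s₂ * m + s₁ * m)) := mul_le_mul' (hM'θ v hv) le_rfl
      _ = (θ v * rz Q v ^ (s₂ * m + s₁ * m)) ^ K' := by
          rw [mul_pow, ← pow_mul, mul_comm K']
      _ ≤ (rz P v ^ (s₂ * m + s₁ * m) * rz H v ^ (s₂ * e)) ^ K' := pow_le_pow_left' h1 K'
      _ = rz P v ^ (K' * (s₂ * m + s₁ * m)) * rz H v ^ (K' * (s₂ * e)) := by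
          rw [mul_pow, ← pow_mul, ← pow_mul, mul_comm K', mul_comm K']
  · refine le_trans ?_ hM'd
    have h1 : (0 : ℝ) < (1 + σ) ^ n := by positivity
    have h2 : (((K' * (s₂ * m + s₁ * m) : ℕ)) : ℝ) ^ n =
        (1 + σ) ^ n * ((K' : ℝ) ^ n * ((s₂ : ℝ) * m) ^ n) := by
      rw [hm1, ← mul_pow, ← mul_pow]
      congr 1
      push_cast
      field_simp
    rw [h2]
    have e1 : (α - C * σ ^ 2 - ε) / (1 + σ) ^ n * ((1 + σ) ^ n * ((K' : ℝ) ^ n *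
        ((s₂ : ℝ) * m) ^ n)) = (α - C * σ ^ 2 - ε) * (K' : ℝ) ^ n * ((s₂ : ℝ) * m) ^ n := by
      field_simp
    rw [e1]
    have h3 : (α - C * σ ^ 2 - ε) * (K' : ℝ) ^ n ≤ (α - C * σ ^ 2 - ε / 2) * (k : ℝ) ^ n := by
      have h4 : (((1 * k + n * k₀ : ℕ) : ℝ) / k) ^ n = (K' : ℝ) ^ n / (k : ℝ) ^ n := by
        rw [div_pow, one_mul]
      rw [h4, mul_div_assoc'] at hk2
      have hkn : (0 : ℝ) < (k : ℝ) ^ n := pow_pos hk' n
      rw [div_lt_iff₀ hkn] at hk2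
      exact hk2.le
    have h5 : 0 ≤ ((s₂ : ℝ) * m) ^ n := by positivity
    calc (α - C * σ ^ 2 - ε) * (K' : ℝ) ^ n * ((s₂ : ℝ) * m) ^ n
        ≤ (α - C * σ ^ 2 - ε / 2) * (k : ℝ) ^ n * ((s₂ : ℝ) * m) ^ n :=
          mul_le_mul_of_nonneg_right h3 h5
      _ = (n.factorial : ℝ) * (γ * (k : ℝ) ^ n) := by
          rw [hγdef]; field_simp
      _ ≤ (n.factorial : ℝ) * ((Pr.base K).h (fun v => θ v ^ k) : ℝ) :=
          mul_le_mul_of_nonneg_left hk3 hf.le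

end Pool.Agent.Lib.MP_410da7_agN
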