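import Pool.Agent.Lib.MP_410da7_agN.SpecN

/-!
# C46, block N, Sym: the order of the cuts does not matter
-/

set_option autoImplicit false

namespace Pool.Agent.Lib.MP_410da7_agN

open Pool.Agent.Lib.MP_410da7_agA WithZero Module MvPolynomial
open Pool.Agent.Lib.MP_410da7_agA.c2Aux (PP LL gg gL mem_of gg_none)

namespace SymAux

/-! ## Fields of rational functions -/

/-- the variables -/
noncomputable def xx (E : Type) [Field E] (s : ℕ) (j : Fin s) : PP E s :=
  algebraMap (MvPolynomial (Fin s) E) (PP E s) (X j)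

theorem gg_some {E : Type} [Field E] {s : ℕ} (β : Fin s → E) (j : Fin s) :
    gg β (some j) = xx E s j := rfl

theorem xx_ind (E : Type) [Field E] (s : ℕ) : AlgebraicIndependent E (xx E s) :=
  (MvPolynomial.algebraicIndependent_X (Fin s) E).map'
    (f := IsScalarTower.toAlgHom E (MvPolynomial (Fin s) E) (PP E s))
    (IsFractionRing.injective _ _)

/-- the functoriality -/
noncomputable def PPmap {E E₂ : Type} [Field E] [Field E₂] (Φ : E ≃+* E₂) (s : ℕ) :
    PP E s ≃+* PP E₂ s :=
  IsFractionRing.ringEquivOfRingEquiv (MvPolynomial.mapEquiv (Fin s) Φ)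

theorem PPmap_alg {E E₂ : Type} [Field E] [Field E₂] (Φ : E ≃+* E₂) (s : ℕ)
    (P : MvPolynomial (Fin s) E) :
    PPmap Φ s (algebraMap _ (PP E s) P) = algebraMap _ (PP E₂ s) (map (Φ : E →+* E₂) P) :=
  IsFractionRing.ringEquivOfRingEquiv_algebraMap _ _

theorem PPmap_C {E E₂ : Type} [Field E] [Field E₂] (Φ : E ≃+* E₂) (s : ℕ) (c : E) :
    PPmap Φ s (algebraMap E (PP E s) c) = algebraMap E₂ (PP E₂ s) (Φ c) := by
  have h := PPmap_alg Φ s (C c)
  rw [map_C] at h
  exact h

theorem PPmap_X {E E₂ : Type} [Field E] [Field E₂] (Φ : E ≃+* E₂) (s : ℕ) (j : Fin s) :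
    PPmap Φ s (xx E s j) = xx E₂ s j := by
  have h := PPmap_alg Φ s (X j)
  rw [map_X] at h
  exact h

theorem PPmap_gg {E E₂ : Type} [Field E] [Field E₂] (Φ : E ≃+* E₂) (s : ℕ) (β : Fin s → E)
    (o : Option (Fin s)) : PPmap Φ s (gg β o) = gg (fun j => Φ (β j)) o := by
  cases o with
  | none =>
    rw [gg_none, gg_none, map_neg, map_sum]
    congr 1
    apply Finset.sum_congr rfl
    intro j _
    rw [map_mul, PPmap_C, gg_some, gg_some, PPmap_X]
  | some j => rw [gg_some, gg_some, PPmap_X]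

theorem mem_gen {F E E₂ : Type} [Field F] [Field E] [Field E₂] [Algebra F E] (g : E →+* E₂)
    (S : Set E) (M : Subfield E₂) (h1 : ∀ c : F, g (algebraMap F E c) ∈ M)
    (h2 : ∀ x ∈ S, g x ∈ M) (x : E) (hx : x ∈ IntermediateField.adjoin F S) : g x ∈ M := by
  induction hx using IntermediateField.adjoin_induction with
  | mem x hx => exact h2 x hx
  | algebraMap c => exact h1 c
  | add x y hx hy h1 h2 => rw [map_add]; exact add_mem h1 h2
  | inv x hx h1 => rw [map_inv₀]; exact inv_mem h1
  | mul x y hx hy h1 h2 => rw [map_mul]; exact mul_mem h1 h2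

/-! ## Isomorphisms of pairs -/

variable {K : Type} [Field K] [Algebra ℂ K]

/-- isomorphisms of pairs -/
structure Iso (p q : Pr K) where
  /-- the isomorphism of the function fields -/
  Φ : p.E ≃+* q.E
  hK : ∀ x : K, Φ (algebraMap K p.E x) = algebraMap K q.E x
  h1 : ∀ c : p.F, ∃ c' : q.F, Φ (algebraMap p.F p.E c) = algebraMap q.F q.E c'
  h2 : ∀ c : q.F, ∃ c' : p.F, Φ.symm (algebraMap q.F q.E c) = algebraMap p.F p.E c'

/-- the inverse -/
def Iso.symm {p q : Pr K} (i : Iso p q) : Iso q p where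
  Φ := i.Φ.symm
  hK x := by rw [← i.hK, RingEquiv.symm_apply_apply]
  h1 := i.h2
  h2 := i.h1

/-- the map of the constants -/
noncomputable def Iso.f {p q : Pr K} (i : Iso p q) (c : p.F) : q.F := (i.h1 c).choose

theorem Iso.f_spec {p q : Pr K} (i : Iso p q) (c : p.F) :
    algebraMap q.F q.E (i.f c) = i.Φ (algebraMap p.F p.E c) := ((i.h1 c).choose_spec).symm

/-- the isomorphism of the constants -/
noncomputable def Iso.toF {p q : Pr K} (i : Iso p q) : p.F ≃+* q.F where
  toFun c := i.f c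
  invFun c := i.symm.f c
  left_inv c := by
    apply (algebraMap p.F p.E).injective
    rw [i.symm.f_spec, i.f_spec]
    exact i.Φ.symm_apply_apply _
  right_inv c := by
    apply (algebraMap q.F q.E).injective
    rw [i.f_spec, i.symm.f_spec]
    exact i.Φ.apply_symm_apply _
  map_mul' x y := by
    apply (algebraMap q.F q.E).injective
    rw [map_mul, i.f_spec, i.f_spec, i.f_spec, map_mul, map_mul]
  map_add' x y := by
    apply (algebraMap q.F q.E).injective
    rw [map_add, i.f_spec, i.f_spec, i.f_spec, map_add, map_add]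

theorem Iso.finrank {p q : Pr K} (i : Iso p q) : finrank p.F p.E = finrank q.F q.E := by
  apply Algebra.finrank_eq_of_equiv_equiv i.toF i.Φ
  ext c
  exact i.f_spec c

theorem cut_K (p : Pr K) (A : Row K) (x : K) :
    algebraMap K (p.cut A).E x = algebraMap p.E (PP p.E A.s) (algebraMap K p.E x) := rfl

theorem Iso.cut_mem {p q : Pr K} (i : Iso p q) (A : Row K) (c : PP p.E A.s)
    (hc : c ∈ LL p.F (p.beta A)) : PPmap i.Φ A.s c ∈ LL q.F (q.beta A) := by
  refine mem_gen (F := p.F) (PPmap i.Φ A.s).toRingHom _ (LL q.F (q.beta A)).toSubfield ?_ ?_ c hc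
  · intro c
    obtain ⟨c', hc'⟩ := i.h1 c
    have h1 : algebraMap p.F (PP p.E A.s) c =
        algebraMap p.E (PP p.E A.s) (algebraMap p.F p.E c) :=
      IsScalarTower.algebraMap_apply p.F p.E (PP p.E A.s) c
    have h2 : PPmap i.Φ A.s (algebraMap p.F (PP p.E A.s) c) =
        algebraMap q.F (PP q.E A.s) c' := by
      rw [h1, PPmap_C, hc', ← IsScalarTower.algebraMap_apply]
    change PPmap i.Φ A.s (algebraMap p.F (PP p.E A.s) c) ∈ LL q.F (q.beta A)
    rw [h2]
    exact IntermediateField.algebraMap_mem _ _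
  · rintro _ ⟨o, rfl⟩
    change PPmap i.Φ A.s (gg (p.beta A) o) ∈ LL q.F (q.beta A)
    rw [PPmap_gg]
    have h3 : (fun j => i.Φ (p.beta A j)) = q.beta A := by
      funext j
      exact i.hK _
    rw [h3]
    exact IntermediateField.subset_adjoin _ _ ⟨o, rfl⟩

theorem PPmap_symm {E E₂ : Type} [Field E] [Field E₂] (Φ : E ≃+* E₂) (s : ℕ) :
    (PPmap Φ s).symm = PPmap Φ.symm s := rfl

/-- isomorphic pairs have isomorphic cuts -/
noncomputable def Iso.cut {p q : Pr K} (i : Iso p q) (A : Row K) : Iso (p.cut A) (q.cut A) where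
  Φ := PPmap i.Φ A.s
  hK x := by
    rw [cut_K, cut_K, ← i.hK]
    exact PPmap_C _ _ _
  h1 c := ⟨⟨_, i.cut_mem A c.1 c.2⟩, rfl⟩
  h2 c := ⟨⟨_, i.symm.cut_mem A c.1 c.2⟩, rfl⟩

theorem Iso.deg {p q : Pr K} (i : Iso p q) (l : List (Row K)) : p.deg l = q.deg l := by
  induction l generalizing p q with
  | nil => exact i.finrank
  | cons A l ih => exact ih (i.cut A)

/-! ## Two cuts -/

/-- two generating algebraically independent families -/
theorem exists_equiv {F E E₂ ι : Type} [Field F] [Field E] [Field E₂] [Algebra F E] [Algebra F E₂]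
    (x : ι → E) (y : ι → E₂) (hx : AlgebraicIndependent F x) (hy : AlgebraicIndependent F y)
    (gx : IntermediateField.adjoin F (Set.range x) = ⊤)
    (gy : IntermediateField.adjoin F (Set.range y) = ⊤) :
    ∃ e : E ≃ₐ[F] E₂, ∀ i, e (x i) = y i := by
  have key : ∀ (E : Type) [Field E] [Algebra F E] (x : ι → E), AlgebraicIndependent F x →
      IntermediateField.adjoin F (Set.range x) = ⊤ →
      ∃ e : FractionRing (MvPolynomial ι F) ≃ₐ[F] E, ∀ i,
        e (algebraMap (MvPolynomial ι F) _ (X i)) = x i := by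
    intro E _ _ x hx gx
    refine ⟨hx.aevalEquivField.trans ((IntermediateField.equivOfEq gx).trans
      IntermediateField.topEquiv), fun i => ?_⟩
    have h1 := hx.aevalEquivField_algebraMap_apply_coe (X i)
    rw [aeval_X] at h1
    exact h1
  obtain ⟨e₁, h1⟩ := key E x hx gx
  obtain ⟨e₂, h2⟩ := key E₂ y hy gy
  refine ⟨e₁.symm.trans e₂, fun i => ?_⟩
  rw [← h1 i, AlgEquiv.trans_apply, AlgEquiv.symm_apply_apply, h2 i]

/-- the exchange of the variables -/
structure Sw {E : Type} [Field E] {s t : ℕ} (Φ : PP (PP E s) t ≃+* PP (PP E t) s) : Prop where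
  e : ∀ c : E, Φ (algebraMap (PP E s) _ (algebraMap E _ c)) =
    algebraMap (PP E t) _ (algebraMap E _ c)
  x : ∀ i, Φ (algebraMap (PP E s) _ (xx E s i)) = xx (PP E t) s i
  y : ∀ j, Φ (xx (PP E s) t j) = algebraMap (PP E t) _ (xx E t j)

theorem Sw.symm {E : Type} [Field E] {s t : ℕ} {Φ : PP (PP E s) t ≃+* PP (PP E t) s}
    (h : Sw Φ) : Sw Φ.symm where
  e c := by rw [← h.e, RingEquiv.symm_apply_apply]
  x j := by rw [← h.y, RingEquiv.symm_apply_apply]
  y i := by rw [← h.x, RingEquiv.symm_apply_apply]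

/-- the family of all variables -/
noncomputable def zz (E : Type) [Field E] (s t : ℕ) : Fin t ⊕ Fin s → PP (PP E s) t :=
  Sum.elim (xx (PP E s) t) (algebraMap (PP E s) _ ∘ xx E s)

theorem zz_ind (E : Type) [Field E] (s t : ℕ) : AlgebraicIndependent E (zz E s t) :=
  AlgebraicIndependent.sumElim_comp (xx_ind E s) (xx_ind (PP E s) t)

theorem zz_gen (E : Type) [Field E] (s t : ℕ) :
    IntermediateField.adjoin E (Set.range (zz E s t)) = ⊤ := by
  rw [eq_top_iff]
  intro y _
  set M := IntermediateField.adjoin E (Set.range (zz E s t)) with hM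
  refine mem_of (0 : Fin t → PP E s) M (fun c => ?_) (fun j => ?_) y
  · have h := mem_of (0 : Fin s → E)
      (M.comap (IsScalarTower.toAlgHom E (PP E s) (PP (PP E s) t))) (fun c => ?_) (fun j => ?_) c
    · exact h
    · change algebraMap (PP E s) (PP (PP E s) t) (algebraMap E (PP E s) c) ∈ M
      rw [← IsScalarTower.algebraMap_apply]
      exact IntermediateField.algebraMap_mem _ _
    · exact IntermediateField.subset_adjoin _ _ ⟨Sum.inr j, rfl⟩
  · exact IntermediateField.subset_adjoin _ _ ⟨Sum.inl j, rfl⟩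

theorem exists_sw (E : Type) [Field E] (s t : ℕ) :
    ∃ Φ : PP (PP E s) t ≃+* PP (PP E t) s, Sw Φ := by
  have h1 : AlgebraicIndependent E (zz E t s ∘ (Sum.swap : Fin t ⊕ Fin s → Fin s ⊕ Fin t)) :=
    (zz_ind E t s).comp _ (Function.LeftInverse.injective Sum.swap_swap)
  have h2 : IntermediateField.adjoin E
      (Set.range (zz E t s ∘ (Sum.swap : Fin t ⊕ Fin s → Fin s ⊕ Fin t))) = ⊤ := by
    rw [Set.range_comp, Set.range_eq_univ.2 (Function.LeftInverse.surjective Sum.swap_swap),
      Set.image_univ]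
    exact zz_gen E t s
  obtain ⟨e, he⟩ := exists_equiv (zz E s t) _ (zz_ind E s t) h1 (zz_gen E s t) h2
  refine ⟨e.toRingEquiv, ⟨fun c => ?_, fun i => ?_, fun j => ?_⟩⟩
  · have := e.commutes c
    rw [IsScalarTower.algebraMap_apply E (PP E s) (PP (PP E s) t),
      IsScalarTower.algebraMap_apply E (PP E t) (PP (PP E t) s)] at this
    exact this
  · exact he (Sum.inr i)
  · exact he (Sum.inl j)

theorem sw_mem {F E L₁ L₂ : Type} [Field F] [Field E] [Algebra F E] [iF₁ : Field L₁]
    [iF₂ : Field L₂] {s t : ℕ} [iL₁ : Algebra L₁ (PP E s)] [iL₂ : Algebra L₂ (PP E t)]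
    (β : Fin s → E) (γ : Fin t → E)
    (hL₁ : ∀ l : L₁, algebraMap L₁ (PP E s) l ∈ LL F β)
    (hL₂ : ∀ x ∈ LL F γ, ∃ l : L₂, algebraMap L₂ (PP E t) l = x)
    {Φ : PP (PP E s) t ≃+* PP (PP E t) s} (h : Sw Φ) (c : PP (PP E s) t)
    (hc : c ∈ LL L₁ (fun j => algebraMap E (PP E s) (γ j))) :
    Φ c ∈ LL L₂ (fun j => algebraMap E (PP E t) (β j)) := by
  -- the elements of the inner field
  have hin : ∀ x : PP E t, x ∈ LL F γ → algebraMap (PP E t) (PP (PP E t) s) x ∈
      LL L₂ (fun j => algebraMap E (PP E t) (β j)) := by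
    intro x hx
    obtain ⟨l, rfl⟩ := hL₂ x hx
    exact IntermediateField.algebraMap_mem (LL L₂ (fun j => algebraMap E (PP E t) (β j))) l
  refine mem_gen (F := L₁) Φ.toRingHom _
    (LL L₂ (fun j => algebraMap E (PP E t) (β j))).toSubfield ?_ ?_ c hc
  · intro l
    refine mem_gen (F := F) (Φ.toRingHom.comp (algebraMap (PP E s) (PP (PP E s) t))) _
      (LL L₂ (fun j => algebraMap E (PP E t) (β j))).toSubfield ?_ ?_ _ (hL₁ l)
    · intro c
      change Φ (algebraMap (PP E s) (PP (PP E s) t) (algebraMap F (PP E s) c)) ∈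
        LL L₂ (fun j => algebraMap E (PP E t) (β j))
      rw [IsScalarTower.algebraMap_apply F E (PP E s), h.e,
        ← IsScalarTower.algebraMap_apply F E (PP E t)]
      exact hin _ (IntermediateField.algebraMap_mem _ _)
    · rintro _ ⟨o, rfl⟩
      change Φ (algebraMap (PP E s) (PP (PP E s) t) (gg β o)) ∈
        LL L₂ (fun j => algebraMap E (PP E t) (β j))
      have h1 : Φ (algebraMap (PP E s) (PP (PP E s) t) (gg β o)) =
          gg (fun j => algebraMap E (PP E t) (β j)) o := by
        cases o with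
        | none =>
          rw [gg_none, gg_none, map_neg, map_neg, map_sum, map_sum]
          congr 1
          apply Finset.sum_congr rfl
          intro j _
          rw [map_mul, map_mul, h.e, gg_some, gg_some, h.x]
        | some j => rw [gg_some, gg_some, h.x]
      rw [h1]
      exact IntermediateField.subset_adjoin _ _ ⟨o, rfl⟩
  · rintro _ ⟨o, rfl⟩
    change Φ (gg (fun j => algebraMap E (PP E s) (γ j)) o) ∈
      LL L₂ (fun j => algebraMap E (PP E t) (β j))
    have h1 : Φ (gg (fun j => algebraMap E (PP E s) (γ j)) o) =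
        algebraMap (PP E t) (PP (PP E t) s) (gg γ o) := by
      cases o with
      | none =>
        rw [gg_none, gg_none, map_neg, map_neg, map_sum, map_sum]
        congr 1
        apply Finset.sum_congr rfl
        intro j _
        rw [map_mul, map_mul, gg_some, gg_some, h.y, h.e]
      | some j => rw [gg_some, gg_some, h.y]
    rw [h1]
    exact hin _ (IntermediateField.subset_adjoin _ _ ⟨o, rfl⟩)

theorem sw_mem' (p : Pr K) (A B : Row K) {Φ : PP (PP p.E A.s) B.s ≃+* PP (PP p.E B.s) A.s}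
    (h : Sw Φ) (c : ((p.cut A).cut B).F) :
    ∃ c' : ((p.cut B).cut A).F, Φ (algebraMap ((p.cut A).cut B).F ((p.cut A).cut B).E c) =
      algebraMap ((p.cut B).cut A).F ((p.cut B).cut A).E c' := by
  have h1 := sw_mem (F := p.F) (E := p.E) (L₁ := (p.cut A).F) (L₂ := (p.cut B).F) (s := A.s)
    (t := B.s) (iF₁ := (p.cut A).fF) (iF₂ := (p.cut B).fF) (iL₁ := (p.cut A).FE)
    (iL₂ := (p.cut B).FE) (p.beta A) (p.beta B) (fun l => l.2) (fun x hx => ⟨⟨x, hx⟩, rfl⟩) h
    c.1 c.2
  exact ⟨⟨_, h1⟩, rfl⟩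

theorem exists_iso (p : Pr K) (A B : Row K) :
    Nonempty (Iso ((p.cut A).cut B) ((p.cut B).cut A)) := by
  obtain ⟨Φ, h⟩ := exists_sw p.E A.s B.s
  refine ⟨⟨Φ, fun x => ?_, fun c => ?_, fun c => ?_⟩⟩
  · exact h.e _
  · exact sw_mem' p A B h c
  · exact sw_mem' p B A h.symm c

end SymAux

open SymAux in
theorem sym : SymStmt := by
  intro K _ _ p A B d
  induction d generalizing p with
  | zero => rfl
  | succ d ih =>
    obtain ⟨i⟩ := exists_iso p A B
    have h1 : p.deg (A :: List.replicate (d + 1) B) =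
        p.deg (B :: A :: List.replicate d B) := i.deg (List.replicate d B)
    rw [h1]
    exact ih (p.cut B)

end Pool.Agent.Lib.MP_410da7_agN
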