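import Pool.Agent.Lib.MP_410da7_agN.SpecN

/-!
# C46, block N, Top: dimension zero: finiteness, generation
-/

set_option autoImplicit false

namespace Pool.Agent.Lib.MP_410da7_agN

open Pool.Agent.Lib.MP_410da7_agA WithZero Module
open scoped Pointwise

namespace TopAux

variable {K : Type} [Field K] [Algebra ℂ K]

theorem gen (p : Pr K) {d : ℕ} (hK : Fg K) (hp : p.Good d) :
    ∃ T : Set p.E, T.Finite ∧ IntermediateField.adjoin p.F T = ⊤ := by
  obtain ⟨T, hT, hT'⟩ := hK
  refine ⟨algebraMap K p.E '' T, hT.image _, ?_⟩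
  rw [eq_top_iff, ← hp.gen, IntermediateField.adjoin_le_iff]
  rintro _ ⟨x, rfl⟩
  have hx : x ∈ IntermediateField.adjoin ℂ T := by rw [hT']; trivial
  induction hx using IntermediateField.adjoin_induction with
  | mem x hx => exact IntermediateField.subset_adjoin _ _ ⟨x, hx, rfl⟩
  | algebraMap c =>
    rw [← IsScalarTower.algebraMap_apply ℂ K p.E, IsScalarTower.algebraMap_apply ℂ p.F p.E]
    exact IntermediateField.algebraMap_mem _ _
  | add x y hx hy h1 h2 => rw [map_add]; exact add_mem h1 h2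
  | inv x hx h1 => rw [map_inv₀]; exact inv_mem h1
  | mul x y hx hy h1 h2 => rw [map_mul]; exact mul_mem h1 h2

theorem alg (p : Pr K) (hp : p.Good 0) : Algebra.IsAlgebraic p.F p.E := by
  rw [← trdeg_eq_zero_iff, hp.trdeg]
  simp

theorem S_mul (p : Pr K) (W W' : Submodule ℂ K) : p.S W * p.S W' ≤ p.S (W * W') := by
  unfold Pr.S
  rw [Submodule.span_mul_span, Submodule.span_le]
  rintro _ ⟨_, ⟨x, hx, rfl⟩, _, ⟨y, hy, rfl⟩, rfl⟩
  apply Submodule.subset_span
  exact ⟨x * y, Submodule.mul_mem_mul hx hy, map_mul _ _ _⟩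

theorem S_pow (p : Pr K) (W : Submodule ℂ K) (k : ℕ) : (p.S W) ^ k ≤ p.S (W ^ k) := by
  induction k with
  | zero =>
    rw [pow_zero, pow_zero, Submodule.one_le]
    apply Submodule.subset_span
    exact ⟨1, Submodule.one_le.1 le_rfl, map_one _⟩
  | succ k ih =>
    rw [pow_succ, pow_succ]
    exact (mul_le_mul' ih le_rfl).trans (S_mul p _ _)

end TopAux

open TopAux in
theorem fin : FinStmt := by
  intro K _ _ p hK hp
  obtain ⟨T, hTf, hT⟩ := gen p hK hp
  have halg := alg p hp
  have h1 : FiniteDimensional p.F (IntermediateField.adjoin p.F T) := by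
    have : Finite T := hTf
    exact IntermediateField.finiteDimensional_adjoin fun x _ =>
      (halg.isAlgebraic x).isIntegral
  rw [hT] at h1
  exact Module.Finite.equiv (IntermediateField.topEquiv (F := p.F) (E := p.E)).toLinearEquiv

open TopAux in
theorem top (hf : FinStmt) : TopStmt := by
  intro K _ _ p A hK hA hp
  have hfin : Module.Finite p.F p.E := hf K p hK hp
  have halg := alg p hp
  have hb0 : algebraMap K p.E (A.b 0) ≠ 0 := by
    rw [Ne, map_eq_zero]
    exact A.ne
  set B : Submodule p.F p.E :=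
    Submodule.span p.F (Set.range fun j => algebraMap K p.E (A.b j / A.b 0)) with hB
  have h1B : (1 : Submodule p.F p.E) ≤ B := by
    rw [Submodule.one_le]
    apply Submodule.subset_span
    refine ⟨0, ?_⟩
    simp only
    rw [div_self A.ne, map_one]
  have hmono : ∀ k, B ^ k ≤ B ^ (k + 1) := by
    intro k
    rw [pow_succ]
    calc B ^ k = B ^ k * 1 := (mul_one _).symm
      _ ≤ B ^ k * B := mul_le_mul' le_rfl h1B
  let f : ℕ →o Submodule p.F p.E := ⟨fun k => B ^ k, monotone_nat_of_le_succ hmono⟩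
  obtain ⟨c, hc⟩ := monotone_stabilizes_iff_noetherian.2
    (inferInstance : IsNoetherian p.F p.E) f
  have hc' : ∀ k, c + 1 ≤ k → B ^ k = B ^ (c + 1) := by
    intro k hk
    have e1 : B ^ c = B ^ k := hc k (by omega)
    have e2 : B ^ c = B ^ (c + 1) := hc (c + 1) (by omega)
    rw [← e1, e2]
  -- the stable space is a subfield
  set R : Submodule p.F p.E := B ^ (c + 1) with hR
  have hmonoR : Monotone fun k => B ^ k := monotone_nat_of_le_succ hmono
  have hBR : B ≤ R := by
    have : B ^ 1 ≤ B ^ (c + 1) := hmonoR (by omega)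
    rwa [pow_one] at this
  have h1R : (1 : p.E) ∈ R := Submodule.one_le.1 (h1B.trans hBR)
  have hRR : ∀ x y, x ∈ R → y ∈ R → x * y ∈ R := by
    intro x y hx hy
    have h1 : x * y ∈ R * R := Submodule.mul_mem_mul hx hy
    have h2 : R * R = R := by
      rw [hR, ← pow_add]
      exact hc' _ (by omega)
    rwa [h2] at h1
  let S : Subalgebra p.F p.E := R.toSubalgebra h1R hRR
  have hS : ∀ x, x ∈ S ↔ x ∈ R := fun x => Iff.rfl
  let M : IntermediateField p.F p.E := S.toIntermediateField fun x hx =>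
    Subalgebra.inv_mem_of_algebraic (A := S) (x := ⟨x, hx⟩) (halg.isAlgebraic x)
  have hM : ∀ x, x ∈ M ↔ x ∈ R := fun x => Iff.rfl
  have hMtop : M = ⊤ := by
    rw [eq_top_iff, ← hp.gen, IntermediateField.adjoin_le_iff]
    rintro _ ⟨x, rfl⟩
    have hx : x ∈ IntermediateField.adjoin ℂ (Set.range fun j => A.b j / A.b 0) := by
      rw [hA]; trivial
    induction hx using IntermediateField.adjoin_induction with
    | mem x hx =>
      obtain ⟨j, rfl⟩ := hx
      exact (hM _).2 (hBR (Submodule.subset_span ⟨j, rfl⟩))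
    | algebraMap c =>
      rw [← IsScalarTower.algebraMap_apply ℂ K p.E, IsScalarTower.algebraMap_apply ℂ p.F p.E]
      exact IntermediateField.algebraMap_mem _ _
    | add x y hx hy h1 h2 => rw [map_add]; exact add_mem h1 h2
    | inv x hx h1 => rw [map_inv₀]; exact inv_mem h1
    | mul x y hx hy h1 h2 => rw [map_mul]; exact mul_mem h1 h2
  have hRtop : R = ⊤ := by
    rw [eq_top_iff]
    intro x _
    rw [← hM, hMtop]
    trivial
  refine ⟨c + 1, fun k hk => ?_⟩
  rw [eq_top_iff]
  have hBk : B ^ k = ⊤ := by rw [hc' k hk, hRtop]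
  have h2 : Submodule.span p.F {algebraMap K p.E (A.b 0)} * B ≤ p.S (rspan A) := by
    rw [hB, Submodule.span_mul_span, Submodule.span_le]
    rintro _ ⟨_, rfl, _, ⟨j, rfl⟩, rfl⟩
    apply Submodule.subset_span
    refine ⟨A.b j, Submodule.subset_span ⟨j, rfl⟩, ?_⟩
    simp only
    rw [← map_mul, mul_div_cancel₀ _ A.ne]
  have h3 : (Submodule.span p.F {algebraMap K p.E (A.b 0)} * B) ^ k ≤ p.S (rspan A ^ k) :=
    (pow_le_pow_left' h2 k).trans (S_pow p _ k)
  refine le_trans ?_ h3
  rw [mul_pow, hBk]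
  intro y _
  have h4 : (algebraMap K p.E (A.b 0)) ^ k ∈
      Submodule.span p.F {algebraMap K p.E (A.b 0)} ^ k :=
    Submodule.pow_mem_pow _ (Submodule.mem_span_singleton_self _) k
  have h5 := Submodule.mul_mem_mul h4
    (Submodule.mem_top : ((algebraMap K p.E (A.b 0)) ^ k)⁻¹ * y ∈ (⊤ : Submodule p.F p.E))
  rwa [← mul_assoc, mul_inv_cancel₀ (pow_ne_zero k hb0), one_mul] at h5

end Pool.Agent.Lib.MP_410da7_agN
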