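import Pool.Agent.Lib.MP_410da7_agN.SpecN

/-!
# C46, block N, UB: growth, upper bound
-/

set_option autoImplicit false

namespace Pool.Agent.Lib.MP_410da7_agN

open Pool.Agent.Lib.MP_410da7_agA WithZero Module

namespace UBAux

theorem finrank_H0_bot {K : Type} [Field K] [Algebra ℂ K] (p : Pr K) (N : Sz K)
    (h : p.H0 N = ⊥) : p.HF N ∧ p.h N = 0 := by
  refine ⟨?_, ?_⟩
  · unfold Pr.HF
    rw [h]
    infer_instance
  · unfold Pr.h
    rw [h]
    exact finrank_bot _ _

end UBAux

open UBAux in
theorem ub (hn : N1Stmt) (hr : R1Stmt) (hf : FinStmt) (hg : NegStmt) : UBStmt := by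
  intro K _ _ A hK hA d
  induction d with
  | zero =>
    intro p hp k
    have hfin : Module.Finite p.F p.E := hf K p hK hp
    refine ⟨?_, ?_⟩
    · unfold Pr.HF
      infer_instance
    · rw [Nat.choose_zero_right, mul_one]
      exact Submodule.finrank_le _
  | succ d ih =>
    intro p hp k
    obtain ⟨-, hcut⟩ := hn K p A d hA hp
    have hdeg : p.deg (List.replicate (d + 1) A) = (p.cut A).deg (List.replicate d A) := rfl
    induction k with
    | zero =>
      have h0 := hg K p A d hK hA hp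
      have hN : (fun v : Valuation K ℤᵐ⁰ => rz A v ^ 0 / rz A v) = fun v => (rz A v)⁻¹ := by
        funext v
        rw [pow_zero, one_div]
      obtain ⟨e1, e2⟩ := finrank_H0_bot p _ h0
      obtain ⟨c1, c2⟩ := ih (p.cut A) hcut 0
      obtain ⟨r1, r2⟩ := hr K p A (fun v => rz A v ^ 0) d hA hp (by rw [hN]; exact e1) c1
      rw [hN, e2, zero_add] at r2
      refine ⟨r1, r2.trans (c2.trans ?_)⟩
      rw [hdeg, zero_add, zero_add, Nat.choose_self, Nat.choose_self]
    | succ k ihk =>
      have hN : (fun v : Valuation K ℤᵐ⁰ => rz A v ^ (k + 1) / rz A v) = fun v => rz A v ^ k := by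
        funext v
        rw [pow_succ, mul_div_cancel_right₀ _ (rz_ne A v)]
      obtain ⟨e1, e2⟩ := ihk
      obtain ⟨c1, c2⟩ := ih (p.cut A) hcut (k + 1)
      obtain ⟨r1, r2⟩ := hr K p A (fun v => rz A v ^ (k + 1)) d hA hp (by rw [hN]; exact e1) c1
      rw [hN] at r2
      refine ⟨r1, r2.trans ((add_le_add e2 c2).trans (le_of_eq ?_))⟩
      rw [hdeg, ← mul_add]
      congr 1
      have h1 : k + 1 + (d + 1) = (k + d + 1) + 1 := by ring
      have h2 : k + (d + 1) = k + d + 1 := by ring
      have h3 : k + 1 + d = k + d + 1 := by ring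
      rw [h1, h2, h3, Nat.choose_succ_succ (k + d + 1) d, add_comm]

end Pool.Agent.Lib.MP_410da7_agN
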