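import Pool.Agent.Lib.MP_410da7_agN.N1
import Pool.Agent.Lib.MP_410da7_agN.Gauss
import Pool.Agent.Lib.MP_410da7_agN.Fac
import Pool.Agent.Lib.MP_410da7_agN.LA
import Pool.Agent.Lib.MP_410da7_agN.R
import Pool.Agent.Lib.MP_410da7_agN.Pole
import Pool.Agent.Lib.MP_410da7_agN.Top
import Pool.Agent.Lib.MP_410da7_agN.Neg
import Pool.Agent.Lib.MP_410da7_agN.UB
import Pool.Agent.Lib.MP_410da7_agN.LB
import Pool.Agent.Lib.MP_410da7_agN.Sym
import Pool.Agent.Lib.MP_410da7_agN.Path
import Pool.Agent.Lib.MP_410da7_agN.Siu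
import Pool.Agent.Lib.MP_410da7_agN.Big
import Pool.Agent.Lib.MP_410da7_agN.Start
import Pool.Agent.Lib.MP_410da7_agN.Curve
import Pool.Agent.Lib.MP_410da7_agN.Cube
import Pool.Agent.Lib.MP_410da7_agN.Step
import Pool.Agent.Lib.MP_410da7_agN.Final

/-!
# C46, block N: Theorem N
-/

set_option autoImplicit false

namespace Pool.Agent.Lib.MP_410da7_agN

theorem tR1 : R1Stmt := r1 n1 gauss fac la1
theorem tR2 : R2Stmt := r2 n1 la2
theorem tNeg : NegStmt := neg n1 pole
theorem tUB : UBStmt := ub n1 tR1 fin tNeg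
theorem tLB : LBStmt := lb n1 tR2 fin (top fin)
theorem tSiu : SiuStmt := siu n1 tR1 tR2 fin tUB
theorem tBig : BigStmt := big n1 tR1 tUB
theorem tStart : StartStmt := start n1 fin tUB tLB tBig
theorem tCurve : CurveStmt := curve n1 tR1 fin tUB tLB sym

theorem tStep : StepStmt := step n1 tSiu tUB tLB tBig cubeW

/-- Theorem N. -/
theorem nThmAll : NThm := nThm tStep tStart path tCurve

end Pool.Agent.Lib.MP_410da7_agN
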