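import Pool.Agent.Lib.MP_410da7_agN.All
import Pool.Agent.Lib.MP_410da7_agA.NG5
import Pool.Agent.Lib.MP_410da7_agA.L.DL7

/-!
# C46, block N: Theorem N in the form of NG5.lean, and the end theorem NStmt
-/

set_option autoImplicit false

namespace Pool.Agent.Lib.MP_410da7_agN

open Pool.Agent.Lib.MP_410da7_agA WithZero

theorem nThmIf : NThmIf := by
  intro K _ _ n P Q H δ htr hn hK hP hQ hH hP1 hQ1 hH1 hδ hvan
  obtain ⟨L, Λ, i1, i2, i3, i4, i5, i6, i7, i8, a, m₀, h1, h2, h3, h4, h5, h6⟩ :=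
    nThmAll K n P Q H hK hn htr hP hQ hH hP1 hQ1 hH1 ⟨δ, hδ, hvan⟩
  exact ⟨m₀, L, Λ, i1, i2, i3, i4, i5, i6, i7, i8, a, h1, h2, h3, h4, h5, h6⟩

/-- The end theorem of block N. -/
theorem nStmtAll : NStmt := ng_nstmt nThmIf dL7

end Pool.Agent.Lib.MP_410da7_agN
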