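import Pool.Agent.Lib.MP_410da7_agA.C2
import Pool.Agent.Lib.MP_410da7_agA.ND

/-!
# C46, block N: definitions (generic cuts in a tower of types)

`K` is a function field over `ℂ`, `Pr K` are the pairs: a field `E` containing `K` and a subfield of
constants `F`. The cut of a pair by a row `A` is the generic member of the linear system of `A`:
`E' = E(X_1, ..., X_s)`, `F' = F(X_1, ..., X_s, u_0)`, `u_0 = - ∑ X_j b_j/b_0`.
-/

set_option autoImplicit false

namespace Pool.Agent.Lib.MP_410da7_agN

open Pool.Agent.Lib.MP_410da7_agA WithZero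
open Pool.Agent.Lib.MP_410da7_agA.c2Aux (PP LL gg gL)

/-- A pair of fields `F ⊆ E`, `K ⊆ E`, over `ℂ`. -/
structure Pr (K : Type) [Field K] [Algebra ℂ K] where
  /-- the constants -/
  F : Type
  /-- the function field -/
  E : Type
  [fF : Field F]
  [fE : Field E]
  [cF : Algebra ℂ F]
  [cE : Algebra ℂ E]
  [FE : Algebra F E]
  [kE : Algebra K E]
  [t1 : IsScalarTower ℂ F E]
  [t2 : IsScalarTower ℂ K E]

attribute [instance] Pr.fF Pr.fE Pr.cF Pr.cE Pr.FE Pr.kE Pr.t1 Pr.t2

/-- The valuation is trivial on `F`. -/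
def Tr (F : Type) {E : Type} [Field F] [Field E] [Algebra F E] (w : Valuation E ℤᵐ⁰) : Prop :=
  ∀ c : F, c ≠ 0 → w (algebraMap F E c) = 1

/-- The size functions: functions on the valuations. -/
abbrev Sz (K : Type) [Field K] := Valuation K ℤᵐ⁰ → ℤᵐ⁰

section

variable {K : Type} [Field K]

/-- The size of a row. -/
noncomputable def rz (A : Row K) : Sz K := fun v => rsize A ℤᵐ⁰ v

theorem rz_ne (A : Row K) (v : Valuation K ℤᵐ⁰) : rz A v ≠ 0 := rsize_ne_zero A v

theorem le_rz (A : Row K) (v : Valuation K ℤᵐ⁰) (j : Fin (A.s + 1)) : v (A.b j) ≤ rz A v :=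
  le_rsize A j v

theorem exists_rz (A : Row K) (v : Valuation K ℤᵐ⁰) : ∃ j, rz A v = v (A.b j) := exists_rsize A v

theorem rz_le (A : Row K) (v : Valuation K ℤᵐ⁰) {c : ℤᵐ⁰} (h : ∀ j, v (A.b j) ≤ c) :
    rz A v ≤ c := rsize_le A v h

variable [Algebra ℂ K]

/-- `K` is finitely generated over `ℂ`. -/
def Fg (K : Type) [Field K] [Algebra ℂ K] : Prop :=
  ∃ T : Set K, T.Finite ∧ IntermediateField.adjoin ℂ T = ⊤

namespace Pr

/-- The pair `ℂ ⊆ K`. -/
noncomputable def base (K : Type) [Field K] [Algebra ℂ K] : Pr K where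
  F := ℂ
  E := K

/-- The quotients `b_j/b_0`, `j ≥ 1`. -/
noncomputable def beta (p : Pr K) (A : Row K) (j : Fin A.s) : p.E :=
  algebraMap K p.E (A.b j.succ / A.b 0)

/-- The generic member of the linear system of `A`. -/
noncomputable def cut (p : Pr K) (A : Row K) : Pr K :=
  { F := LL p.F (p.beta A)
    E := PP p.E A.s
    t1 := IsScalarTower.of_algebraMap_eq fun _ => rfl }

/-- The intersection of generic members of the linear systems in the list. -/
noncomputable def it (p : Pr K) : List (Row K) → Pr K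
  | [] => p
  | A :: l => (p.cut A).it l

/-- `E` is generated by `K` over `F` and has transcendence degree `d`. -/
structure Good (p : Pr K) (d : ℕ) : Prop where
  gen : IntermediateField.adjoin p.F (Set.range (algebraMap K p.E)) = ⊤
  trdeg : Algebra.trdeg p.F p.E = d

/-- The restriction of a valuation to `K`. -/
noncomputable def res (p : Pr K) (w : Valuation p.E ℤᵐ⁰) : Valuation K ℤᵐ⁰ :=
  w.comap (algebraMap K p.E)

theorem res_apply (p : Pr K) (w : Valuation p.E ℤᵐ⁰) (x : K) :
    p.res w x = w (algebraMap K p.E x) := rfl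

/-- The sections: `w f ≤ N` for all valuations trivial on the constants. -/
noncomputable def H0 (p : Pr K) (N : Sz K) : Submodule p.F p.E where
  carrier := {f | ∀ w : Valuation p.E ℤᵐ⁰, Tr p.F w → w f ≤ N (p.res w)}
  zero_mem' := fun w _ => by rw [map_zero]; exact zero_le
  add_mem' := fun {f g} hf hg w hw => (w.map_add f g).trans (max_le (hf w hw) (hg w hw))
  smul_mem' := fun c f hf w hw => by
    rw [Algebra.smul_def, map_mul]
    by_cases hc : c = 0
    · rw [hc, map_zero, map_zero, zero_mul]; exact zero_le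
    · rw [hw c hc, one_mul]; exact hf w hw

theorem mem_H0 (p : Pr K) (N : Sz K) (f : p.E) :
    f ∈ p.H0 N ↔ ∀ w : Valuation p.E ℤᵐ⁰, Tr p.F w → w f ≤ N (p.res w) := Iff.rfl

/-- The span of `A` over the constants. -/
noncomputable def S (p : Pr K) (A : Submodule ℂ K) : Submodule p.F p.E :=
  Submodule.span p.F (algebraMap K p.E '' (A : Set K))

/-- The dimension of the space of sections. -/
noncomputable def h (p : Pr K) (N : Sz K) : ℕ := Module.finrank p.F (p.H0 N)

/-- The dimension of the span. -/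
noncomputable def d (p : Pr K) (A : Submodule ℂ K) : ℕ := Module.finrank p.F (p.S A)

/-- The intersection number. -/
noncomputable def deg (p : Pr K) (l : List (Row K)) : ℕ := Module.finrank (p.it l).F (p.it l).E

/-- The space of sections is finite dimensional. -/
def HF (p : Pr K) (N : Sz K) : Prop := Module.Finite p.F (p.H0 N)

theorem H0_mono (p : Pr K) {N N' : Sz K} (h : ∀ v : Valuation K ℤᵐ⁰, Tr ℂ v → N v ≤ N' v) :
    p.H0 N ≤ p.H0 N' := by
  intro f hf w hw
  refine (hf w hw).trans (h _ ?_)
  intro c hc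
  rw [res_apply, ← IsScalarTower.algebraMap_apply ℂ K p.E, IsScalarTower.algebraMap_apply ℂ p.F p.E]
  refine hw _ ?_
  rw [Ne, map_eq_zero]
  exact hc

end Pr

end

end Pool.Agent.Lib.MP_410da7_agN
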