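import Pool.Agent.Lib.MP_410da7_agN.SpecN
import Pool.Agent.Lib.MP_410da7_agA.C1

/-!
# C46, block N, N1: the cut of a pair
-/

set_option autoImplicit false

namespace Pool.Agent.Lib.MP_410da7_agN

open Pool.Agent.Lib.MP_410da7_agA WithZero MvPolynomial Module
open Pool.Agent.Lib.MP_410da7_agA.c2Aux (PP LL gg gL)

namespace N1Aux

variable {K : Type} [Field K] [Algebra ℂ K]

theorem exists_trans (p : Pr K) (A : Row K) (hA : Bir A) (d : ℕ) (h : p.Good (d + 1)) :
    ∃ j, Transcendental p.F (p.beta A j) := by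
  by_contra hcon
  push Not at hcon
  have h2 : ∀ x : K, algebraMap K p.E x ∈ algebraicClosure p.F p.E := by
    intro x
    have hx : x ∈ IntermediateField.adjoin ℂ (Set.range fun j => A.b j / A.b 0) := by
      rw [show IntermediateField.adjoin ℂ (Set.range fun j => A.b j / A.b 0) = ⊤ from hA]
      trivial
    induction hx using IntermediateField.adjoin_induction with
    | mem x hx =>
      obtain ⟨j, rfl⟩ := hx
      refine Fin.cases ?_ (fun j => ?_) j
      · show algebraMap K p.E (A.b 0 / A.b 0) ∈ _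
        rw [div_self A.ne, map_one]
        exact one_mem _
      · have := hcon j
        rw [Transcendental, not_not] at this
        exact mem_algebraicClosure_iff.2 this
    | algebraMap c =>
      rw [← IsScalarTower.algebraMap_apply ℂ K p.E, IsScalarTower.algebraMap_apply ℂ p.F p.E]
      exact IntermediateField.algebraMap_mem _ _
    | add x y hx hy h1 h2 => rw [map_add]; exact add_mem h1 h2
    | inv x hx h1 => rw [map_inv₀]; exact inv_mem h1
    | mul x y hx hy h1 h2 => rw [map_mul]; exact mul_mem h1 h2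
  have h3 : algebraicClosure p.F p.E = ⊤ := by
    rw [eq_top_iff, ← h.gen, IntermediateField.adjoin_le_iff]
    rintro _ ⟨x, rfl⟩
    exact h2 x
  have h4 : Algebra.IsAlgebraic p.F p.E := (algebraicClosure.eq_top_iff p.F p.E).1 h3
  have h5 := h.trdeg
  rw [trdeg_eq_zero] at h5
  exact absurd h5.symm (by simp)

theorem arith (t : Cardinal) (d s : ℕ)
    (h : ((d + 1 : ℕ) : Cardinal) + s = ((s + 1 : ℕ) : Cardinal) + t) : t = d := by
  have ht : t < Cardinal.aleph0 := by
    refine lt_of_le_of_lt (self_le_add_left t ((s + 1 : ℕ) : Cardinal)) ?_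
    rw [← h]
    exact Cardinal.add_lt_aleph0 Cardinal.natCast_lt_aleph0 Cardinal.natCast_lt_aleph0
  obtain ⟨t, rfl⟩ := Cardinal.lt_aleph0.1 ht
  norm_cast at h ⊢
  omega

theorem cut_good (p : Pr K) (A : Row K) (d : ℕ) (h : p.Good (d + 1))
    (hj : ∃ j, Transcendental p.F (p.beta A j)) : (p.cut A).Good d := by
  have hch : CharZero p.F := charZero_of_injective_algebraMap (algebraMap ℂ p.F).injective
  constructor
  · refine c2Aux.gen_PP (p.beta A) (Set.range (algebraMap K p.E)) h.gen _ ?_
    rintro _ ⟨x, rfl⟩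
    exact ⟨x, IsScalarTower.algebraMap_apply K p.E (PP p.E A.s) x⟩
  · have h1 := c2Aux.trdeg_rel c1 (p.beta A) hj
    rw [h.trdeg] at h1
    have h2 : Algebra.trdeg (LL p.F (p.beta A)) (PP p.E A.s) = d := arith _ d A.s (by
      rw [← h1])
    exact h2

end N1Aux

/-- N1. The cut of a pair. -/
theorem n1 : N1Stmt := by
  intro K _ _ p A d hA h
  have hj := N1Aux.exists_trans p A hA d h
  exact ⟨hj, N1Aux.cut_good p A d h hj⟩

end Pool.Agent.Lib.MP_410da7_agN
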