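import Pool.Agent.Lib.MP_410da7_agN.SpecN

/-!
# C46, block N: Siu's inequality, exact form
-/

set_option autoImplicit false

namespace Pool.Agent.Lib.MP_410da7_agN

open Pool.Agent.Lib.MP_410da7_agA WithZero MvPolynomial Module
open Pool.Agent.Lib.MP_410da7_agA.c2Aux (PP LL gg gL)

namespace SiuAux

variable {K : Type} [Field K] [Algebra ℂ K]

theorem base_good (n : ℕ) (h : Algebra.trdeg ℂ K = n) : (Pr.base K).Good n := by
  refine ⟨?_, h⟩
  rw [eq_top_iff]
  intro x _
  exact IntermediateField.subset_adjoin _ _ ⟨x, rfl⟩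

theorem HF_mono (p : Pr K) {N N' : Sz K} (h : ∀ v : Valuation K ℤᵐ⁰, Tr ℂ v → N v ≤ N' v)
    (hf : p.HF N') : p.HF N := by
  have : Module.Finite p.F (p.H0 N') := hf
  exact Submodule.finiteDimensional_of_le (p.H0_mono h)

theorem h_mono (p : Pr K) {N N' : Sz K} (h : ∀ v : Valuation K ℤᵐ⁰, Tr ℂ v → N v ≤ N' v)
    (hf : p.HF N') : p.h N ≤ p.h N' := by
  have : Module.Finite p.F (p.H0 N') := hf
  exact LinearMap.finrank_le_finrank_of_injective
    (f := Submodule.inclusion (p.H0_mono h)) (Submodule.inclusion_injective _)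

omit [Algebra ℂ K] in
theorem one_le_rz (A : Row K) (hA : ∃ j, A.b j = 1) (v : Valuation K ℤᵐ⁰) : 1 ≤ rz A v := by
  obtain ⟨j, hj⟩ := hA
  have := le_rz A v j
  rwa [hj, map_one] at this

omit [Algebra ℂ K] in
theorem div_pow_le (A : Row K) (hA : ∃ j, A.b j = 1) (v : Valuation K ℤᵐ⁰) (x : ℤᵐ⁰) (b : ℕ) :
    x / rz A v ^ b ≤ x := by
  have h1 : 1 ≤ rz A v ^ b := one_le_pow₀ (one_le_rz A hA v)
  exact div_le_of_le_mul₀ zero_le zero_le (le_mul_of_one_le_right zero_le h1)

/-- R1, iterated. -/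
theorem R1_iter (h1 : R1Stmt) (p : Pr K) (A : Row K) (d : ℕ) (hA : Bir A) (hp : p.Good (d + 1))
    (hA1 : ∃ j, A.b j = 1) (N : Sz K) (hN : p.HF N) (hc : (p.cut A).HF N) (b : ℕ) :
    p.h N ≤ p.h (fun v => N v / rz A v ^ b) + b * (p.cut A).h N := by
  induction b with
  | zero =>
    have : (fun v => N v / rz A v ^ 0) = N := by
      funext v
      rw [pow_zero, div_one]
    rw [this]
    omega
  | succ b ih =>
    have e : (fun v => N v / rz A v ^ b / rz A v) = (fun v => N v / rz A v ^ (b + 1)) := by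
      funext v
      rw [div_div, pow_succ]
    have k1 := h1 K p A (fun v => N v / rz A v ^ b) d hA hp
      (HF_mono p (N' := N) (fun v _ => by
        rw [div_div, ← pow_succ]
        exact div_pow_le A hA1 v _ _) hN)
      (HF_mono (p.cut A) (N' := N) (fun v _ => div_pow_le A hA1 v _ _) hc)
    rw [e] at k1
    have k2 : (p.cut A).h (fun v => N v / rz A v ^ b) ≤ (p.cut A).h N :=
      h_mono (p.cut A) (fun v _ => div_pow_le A hA1 v _ _) hc
    have k3 := k1.2
    rw [add_mul, one_mul]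
    omega

theorem S_span (p : Pr K) (T : Set K) :
    p.S (Submodule.span ℂ T) = Submodule.span p.F (algebraMap K p.E '' T) := by
  unfold Pr.S
  apply le_antisymm
  · rw [Submodule.span_le]
    rintro _ ⟨x, hx, rfl⟩
    induction hx using Submodule.span_induction with
    | mem x h => exact Submodule.subset_span ⟨x, h, rfl⟩
    | zero => rw [map_zero]; exact Submodule.zero_mem _
    | add x y _ _ hx hy => rw [map_add]; exact Submodule.add_mem _ hx hy
    | smul c x _ hx =>
      have : algebraMap K p.E (c • x) = (algebraMap ℂ p.F c) • algebraMap K p.E x := by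
        rw [Algebra.smul_def, map_mul, Algebra.smul_def, ← IsScalarTower.algebraMap_apply ℂ K p.E,
          ← IsScalarTower.algebraMap_apply ℂ p.F p.E]
      rw [this]
      exact Submodule.smul_mem _ _ hx
  · exact Submodule.span_mono (Set.image_mono Submodule.subset_span)

theorem S_finite (p : Pr K) (V : Submodule ℂ K) (hV : V.FG) : Module.Finite p.F (p.S V) := by
  obtain ⟨T, rfl⟩ := hV
  rw [S_span]
  exact FiniteDimensional.span_of_finite p.F (T.finite_toSet.image _)

theorem d_mono (p : Pr K) {V W : Submodule ℂ K} (h : V ≤ W) (hW : W.FG) : p.d V ≤ p.d W := by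
  have := S_finite p W hW
  have hle : p.S V ≤ p.S W := Submodule.span_mono (Set.image_mono h)
  exact LinearMap.finrank_le_finrank_of_injective
    (f := Submodule.inclusion hle) (Submodule.inclusion_injective _)

theorem rspan_fg (A : Row K) : (rspan A).FG :=
  Submodule.fg_span (Set.finite_range _)

theorem le_mul_pow (A : Row K) (hA1 : ∃ j, A.b j = 1) (V : Submodule ℂ K) (b : ℕ) :
    V ≤ V * rspan A ^ b := by
  have h1 : (1 : Submodule ℂ K) ≤ rspan A := by
    rw [Submodule.one_le]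
    obtain ⟨j, hj⟩ := hA1
    exact Submodule.subset_span ⟨j, hj⟩
  have h2 : (1 : Submodule ℂ K) ≤ rspan A ^ b := by
    calc (1 : Submodule ℂ K) = 1 ^ b := (one_pow b).symm
      _ ≤ rspan A ^ b := pow_le_pow_left' h1 b
  calc V = V * 1 := (mul_one V).symm
    _ ≤ V * rspan A ^ b := mul_le_mul' le_rfl h2

/-- R2, iterated. -/
theorem R2_iter (h2 : R2Stmt) (p : Pr K) (A : Row K) (d : ℕ) (hA : Bir A) (hp : p.Good (d + 1))
    (hA1 : ∃ j, A.b j = 1) (V : Submodule ℂ K) (hV : V.FG) (b : ℕ) :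
    p.d V + b * (p.cut A).d V ≤ p.d (V * rspan A ^ b) := by
  induction b with
  | zero => rw [pow_zero, mul_one, zero_mul, add_zero]
  | succ b ih =>
    have hfg : ∀ k : ℕ, (V * rspan A ^ k).FG := fun k => hV.mul ((rspan_fg A).pow k)
    have k1 := h2 K p A (V * rspan A ^ b) d hA hp (hfg b)
    have e : V * rspan A ^ b * rspan A = V * rspan A ^ (b + 1) := by
      rw [mul_assoc, ← pow_succ]
    rw [e] at k1
    have k2 : (p.cut A).d V ≤ (p.cut A).d (V * rspan A ^ (b + 1)) :=
      d_mono (p.cut A) (le_mul_pow A hA1 V (b + 1)) (hfg (b + 1))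
    rw [add_mul, one_mul]
    omega

/-- The elements of value at most `c`. -/
def ball (v : Valuation K ℤᵐ⁰) (hv : Tr ℂ v) (c : ℤᵐ⁰) : Submodule ℂ K where
  carrier := {x | v x ≤ c}
  zero_mem' := by
    show v 0 ≤ c
    rw [map_zero]; exact zero_le
  add_mem' := fun {x y} hx hy => (v.map_add x y).trans (max_le hx hy)
  smul_mem' := fun a x hx => by
    show v (a • x) ≤ c
    rw [Algebra.smul_def, map_mul]
    by_cases ha : a = 0
    · rw [ha, map_zero, map_zero, zero_mul]; exact zero_le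
    · rw [hv a ha, one_mul]; exact hx

theorem rspan_le_ball (v : Valuation K ℤᵐ⁰) (hv : Tr ℂ v) (A : Row K) :
    rspan A ≤ ball v hv (rz A v) := by
  unfold rspan
  rw [Submodule.span_le]
  rintro _ ⟨j, rfl⟩
  exact le_rz A v j

theorem mul_le_ball (v : Valuation K ℤᵐ⁰) (hv : Tr ℂ v) {V W : Submodule ℂ K} {c c' : ℤᵐ⁰}
    (h : V ≤ ball v hv c) (h' : W ≤ ball v hv c') : V * W ≤ ball v hv (c * c') := by
  rw [Submodule.mul_le]
  intro x hx y hy
  show v (x * y) ≤ c * c'
  rw [map_mul]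
  exact mul_le_mul' (h hx) (h' hy)

theorem pow_le_ball (v : Valuation K ℤᵐ⁰) (hv : Tr ℂ v) {V : Submodule ℂ K} {c : ℤᵐ⁰}
    (h : V ≤ ball v hv c) (a : ℕ) : V ^ a ≤ ball v hv (c ^ a) := by
  induction a with
  | zero =>
    rw [pow_zero, pow_zero, Submodule.one_le]
    show v 1 ≤ 1
    rw [map_one]
  | succ a ih =>
    rw [pow_succ, pow_succ]
    exact mul_le_ball v hv ih h

theorem d_le_h (p : Pr K) (V : Submodule ℂ K) (N : Sz K) (hN : p.HF N)
    (h : ∀ v : Valuation K ℤᵐ⁰, Tr ℂ v → ∀ x ∈ V, v x ≤ N v) : p.d V ≤ p.h N := by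
  have : Module.Finite p.F (p.H0 N) := hN
  have hle : p.S V ≤ p.H0 N := by
    unfold Pr.S
    rw [Submodule.span_le]
    rintro _ ⟨x, hx, rfl⟩
    intro w hw
    refine h (p.res w) ?_ x hx
    intro c hc
    rw [Pr.res_apply, ← IsScalarTower.algebraMap_apply ℂ K p.E,
      IsScalarTower.algebraMap_apply ℂ p.F p.E]
    refine hw _ ?_
    rw [Ne, map_eq_zero]
    exact hc
  exact LinearMap.finrank_le_finrank_of_injective
    (f := Submodule.inclusion hle) (Submodule.inclusion_injective _)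

end SiuAux

open SiuAux

theorem siu (hn : N1Stmt) (h1 : R1Stmt) (h2 : R2Stmt) (hf : FinStmt) (hu : UBStmt) : SiuStmt := by
  intro K _ _ n P Q G hK hn1 htr hP hQ hG hP1 hQ1 hPG
  have hbase : (Pr.base K).Good n := base_good n htr
  obtain ⟨d, rfl⟩ : ∃ d, n = d + 1 := ⟨n - 1, by omega⟩
  have hcQ : ((Pr.base K).cut Q).Good d := (hn K (Pr.base K) Q d hQ hbase).2
  have key : ∃ g : ℕ, (d + 1 = 1 → g = 0) ∧ ∀ (M : Row K) (m : ℕ), Bir M → (∀ v, Tr ℂ v → rz M v ≤ rz G v ^ m) →
      ∀ a b : ℕ, ((Pr.base K).cut Q).h (fun v => rz M v ^ a * rz P v ^ b) ≤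
        ((Pr.base K).deg (Q :: List.replicate (d + 1 - 1) M) *
          (a + (d + 1 - 1)).choose (d + 1 - 1)) +
        b * (g * (m * a + b + (d + 1 - 2)).choose (d + 1 - 2)) := by
    rcases Nat.eq_zero_or_pos d with hd | hd
    · subst hd
      refine ⟨0, fun _ => rfl, fun M m _ _ a b => ?_⟩
      have hfin : Module.Finite ((Pr.base K).cut Q).F ((Pr.base K).cut Q).E := hf K _ hK hcQ
      have k1 : ((Pr.base K).cut Q).h (fun v => rz M v ^ a * rz P v ^ b) ≤
          Module.finrank ((Pr.base K).cut Q).F ((Pr.base K).cut Q).E :=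
        Submodule.finrank_le _
      have k2 : (Pr.base K).deg (Q :: List.replicate (0 + 1 - 1) M) =
          Module.finrank ((Pr.base K).cut Q).F ((Pr.base K).cut Q).E := rfl
      rw [k2]
      have k3 : (a + (0 + 1 - 1)).choose (0 + 1 - 1) = 1 := Nat.choose_zero_right _
      rw [k3, mul_one]
      exact k1.trans (Nat.le_add_right _ _)
    · obtain ⟨d', rfl⟩ : ∃ d', d = d' + 1 := ⟨d - 1, by omega⟩
      have hcQP : (((Pr.base K).cut Q).cut P).Good d' :=
        (hn K ((Pr.base K).cut Q) P d' hP hcQ).2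
      refine ⟨(((Pr.base K).cut Q).cut P).deg (List.replicate d' G), fun h => by omega, ?_⟩
      intro M m hM hMG a b
      have hb : ∀ v : Valuation K ℤᵐ⁰, Tr ℂ v →
          rz M v ^ a * rz P v ^ b ≤ rz G v ^ (m * a + b) := by
        intro v hv
        rw [pow_add, pow_mul]
        exact mul_le_mul' (pow_le_pow_left' (hMG v hv) a) (pow_le_pow_left' (hPG v hv) b)
      have k1 := hu K G hK hG (d' + 1) ((Pr.base K).cut Q) hcQ (m * a + b)
      have k2 := hu K G hK hG d' (((Pr.base K).cut Q).cut P) hcQP (m * a + b)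
      have k3 := hu K M hK hM (d' + 1) ((Pr.base K).cut Q) hcQ a
      have hF1 : ((Pr.base K).cut Q).HF (fun v => rz M v ^ a * rz P v ^ b) :=
        HF_mono _ hb k1.1
      have hF2 : (((Pr.base K).cut Q).cut P).HF (fun v => rz M v ^ a * rz P v ^ b) :=
        HF_mono _ hb k2.1
      have k4 := R1_iter h1 ((Pr.base K).cut Q) P d' hP hcQ hP1
        (fun v => rz M v ^ a * rz P v ^ b) hF1 hF2 b
      have e1 : (fun v => rz M v ^ a * rz P v ^ b / rz P v ^ b) = (fun v => rz M v ^ a) := by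
        funext v
        exact mul_div_cancel_right₀ _ (pow_ne_zero _ (rz_ne P v))
      rw [e1] at k4
      have k5 : (((Pr.base K).cut Q).cut P).h (fun v => rz M v ^ a * rz P v ^ b) ≤
          (((Pr.base K).cut Q).cut P).deg (List.replicate d' G) *
            (m * a + b + d').choose d' := (h_mono _ hb k2.1).trans k2.2
      have k6 : ((Pr.base K).cut Q).h (fun v => rz M v ^ a) ≤
          (Pr.base K).deg (Q :: List.replicate (d' + 1) M) *
            (a + (d' + 1)).choose (d' + 1) := k3.2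
      calc ((Pr.base K).cut Q).h (fun v => rz M v ^ a * rz P v ^ b) ≤ _ := k4
        _ ≤ _ := Nat.add_le_add k6 (Nat.mul_le_mul_left b k5)
  obtain ⟨g, hg0, hg⟩ := key
  refine ⟨g, hg0, ?_⟩
  intro M m hM hMG a b
  have hb : ∀ v : Valuation K ℤᵐ⁰, Tr ℂ v →
      rz M v ^ a * rz P v ^ b ≤ rz G v ^ (m * a + b) := by
    intro v hv
    rw [pow_add, pow_mul]
    exact mul_le_mul' (pow_le_pow_left' (hMG v hv) a) (pow_le_pow_left' (hPG v hv) b)
  have k1 := hu K G hK hG (d + 1) (Pr.base K) hbase (m * a + b)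
  have k2 := hu K G hK hG d ((Pr.base K).cut Q) hcQ (m * a + b)
  have hF1 : (Pr.base K).HF (fun v => rz M v ^ a * rz P v ^ b) := HF_mono _ hb k1.1
  have hF2 : ((Pr.base K).cut Q).HF (fun v => rz M v ^ a * rz P v ^ b) := HF_mono _ hb k2.1
  have k3 := R1_iter h1 (Pr.base K) Q d hQ hbase hQ1 (fun v => rz M v ^ a * rz P v ^ b) hF1 hF2 b
  have k4 : (Pr.base K).d (rspan M ^ a * rspan P ^ b) ≤
      (Pr.base K).h (fun v => rz M v ^ a * rz P v ^ b) := by
    refine d_le_h _ _ _ hF1 ?_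
    intro v hv x hx
    exact mul_le_ball v hv (pow_le_ball v hv (rspan_le_ball v hv M) a)
      (pow_le_ball v hv (rspan_le_ball v hv P) b) hx
  have k5 := R2_iter h2 (Pr.base K) P d hP hbase hP1 (rspan M ^ a) ((rspan_fg M).pow a) b
  have k6 := hg M m hM hMG a b
  have k7 : b * ((Pr.base K).cut Q).h (fun v => rz M v ^ a * rz P v ^ b) ≤
      b * (((Pr.base K).deg (Q :: List.replicate (d + 1 - 1) M) *
          (a + (d + 1 - 1)).choose (d + 1 - 1)) +
        b * (g * (m * a + b + (d + 1 - 2)).choose (d + 1 - 2))) := Nat.mul_le_mul_left b k6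
  calc (Pr.base K).d (rspan M ^ a) + b * ((Pr.base K).cut P).d (rspan M ^ a) ≤
      (Pr.base K).d (rspan M ^ a * rspan P ^ b) := k5
    _ ≤ (Pr.base K).h (fun v => rz M v ^ a * rz P v ^ b) := k4
    _ ≤ _ := k3
    _ ≤ (Pr.base K).h (fun v => rz M v ^ a * rz P v ^ b / rz Q v ^ b) +
        b * (((Pr.base K).deg (Q :: List.replicate (d + 1 - 1) M) *
          (a + (d + 1 - 1)).choose (d + 1 - 1)) +
        b * (g * (m * a + b + (d + 1 - 2)).choose (d + 1 - 2))) := Nat.add_le_add_left k7 _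
    _ = _ := by ring

end Pool.Agent.Lib.MP_410da7_agN
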