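import Pool.Agent.Lib.MP_410da7_agN.Defs

/-!
# C46, block N: the statements

Theorem N (`NThm`): if `m (P - Q) + e H` has no sections whenever `e δ < m`, then there is a covering
family of curves on which `k (P - Q) + H` has negative degree, with an explicit section `a`.
-/

set_option autoImplicit false

namespace Pool.Agent.Lib.MP_410da7_agN

open Pool.Agent.Lib.MP_410da7_agA WithZero MvPolynomial Module
open Pool.Agent.Lib.MP_410da7_agA.c2Aux (PP LL gg gL)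

/-! ## The generic cut -/

/-- N1. The cut of a pair.
PROOF. Some `β_j = b_j/b_0` is transcendental over `F`: otherwise `K` (generated by the `b_j/b_0` over
`ℂ`) is algebraic over `F` and so is `E = F(K)` (as `exists_trans` in C2.lean). Then `gg_ind`, `trdeg_rel`
(with `c1 : C1Stmt`) and `gen_PP` of C2.lean. -/
def N1Stmt : Prop :=
  ∀ (K : Type) [Field K] [Algebra ℂ K] (p : Pr K) (A : Row K) (d : ℕ), Bir A → p.Good (d + 1) →
    (∃ j, Transcendental p.F (p.beta A j)) ∧ (p.cut A).Good d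

/-- The linear form `U_0 + ∑ β_j U_j`. -/
noncomputable def lin {E : Type} [Field E] {s : ℕ} (β : Fin s → E) : MvPolynomial (Option (Fin s)) E :=
  X none + ∑ j, C (β j) * X (some j)

/-- G1. The Gauss norm is multiplicative.
PROOF. `P, Q ≠ 0` (else trivial); divide by coefficients of maximal value: `P = a P'`, `Q = b Q'`, `P', Q'`
have coefficients in the valuation ring and one coefficient `1`. In the residue field `k` the product of
the (nonzero) residues in `k[σ]` is not zero, so `P' Q'` has a coefficient of value `1`. -/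
def GaussStmt : Prop :=
  ∀ (σ E : Type) [Field E] (w : Valuation E ℤᵐ⁰) (P Q : MvPolynomial σ E) (μ ν : σ →₀ ℕ),
    ∃ κ, w (coeff μ P) * w (coeff ν Q) ≤ w (coeff κ (P * Q))

/-- G2. The kernel of the evaluation at the generic member.
PROOF. Let `σ` be the endomorphism `U_0 ↦ - ∑ β_j U_j`, `U_j ↦ U_j` of `E[U]`. Then `P - σ P` is in the
ideal of `U_0 + ∑ β_j U_j` (`U_0 - σ U_0 = lin β`; induction on `P`), and `σ P = 0` if `P(gg β) = 0`,
because `E[X_1..X_s] → PP E s` is injective. -/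
def FacStmt : Prop :=
  ∀ (E : Type) [Field E] (s : ℕ) (β : Fin s → E) (P : MvPolynomial (Option (Fin s)) E),
    aeval (gg β) P = 0 → ∃ G, P = lin β * G

/-- G3. Linear algebra, upper bound. `R = F[σ]` with fraction field `F'`.
PROOF. For an `F`-subspace `V` of `E` let `V[σ]` be the `R`-submodule of `E[σ]` of the polynomials with
coefficients in `V`. If `v_i` are `F`-linearly independent then the `C v_i` are `R`-linearly independent
(coefficientwise), and `V[σ]` is spanned by the `C v` (`v` in a basis of `V`), so its `R`-rank is the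
`F`-rank of `V` (for `V`: need `≤`, for `W`: need `≥`, `rank_span_le`). `R` is a domain:
`rank (ker) + rank (range) = rank` for `φ : V[σ] → E'` (`LinearMap.rank_range_add_rank_ker`); the kernel is
in `l · W[σ]`, the range in `V'`, and `R`-independent families in the `F'`-space `V'` are `F'`-independent
(`LinearIndependent.iff_fractionRing`). -/
def LA1Stmt : Prop :=
  ∀ (σ F E F' E' : Type) [Field F] [Field E] [Algebra F E] [Field F'] [Field E'] [Algebra F' E']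
    [Algebra (MvPolynomial σ F) F'] [IsFractionRing (MvPolynomial σ F) F']
    (φ : MvPolynomial σ E →+* E') (l : MvPolynomial σ E) (V W : Submodule F E)
    (V' : Submodule F' E'), l ≠ 0 →
    (∀ c : MvPolynomial σ F, φ (map (algebraMap F E) c) =
      algebraMap F' E' (algebraMap (MvPolynomial σ F) F' c)) →
    Module.Finite F W → Module.Finite F' V' → (∀ v ∈ V, φ (C v) ∈ V') →
    (∀ P : MvPolynomial σ E, (∀ μ, coeff μ P ∈ V) → φ P = 0 →
      ∃ G : MvPolynomial σ E, (∀ μ, coeff μ G ∈ W) ∧ P = l * G) →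
    Module.Finite F V ∧ finrank F V ≤ finrank F W + finrank F' V'

/-- G4. Linear algebra, lower bound.
PROOF. As G3: `φ : W[σ] → E'` has the kernel `⊇ l · V[σ]` and its range contains `φ(C w)`, `w ∈ W`, an
`F'`-basis of the span `V'` of which is `R`-independent. -/
def LA2Stmt : Prop :=
  ∀ (σ F E F' E' : Type) [Field F] [Field E] [Algebra F E] [Field F'] [Field E'] [Algebra F' E']
    [Algebra (MvPolynomial σ F) F'] [IsFractionRing (MvPolynomial σ F) F']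
    (φ : MvPolynomial σ E →+* E') (l : MvPolynomial σ E) (V W : Submodule F E), l ≠ 0 →
    (∀ c : MvPolynomial σ F, φ (map (algebraMap F E) c) =
      algebraMap F' E' (algebraMap (MvPolynomial σ F) F' c)) →
    φ l = 0 → Module.Finite F W → (∀ v ∈ V, ∀ μ, coeff μ (C v * l) ∈ W) →
    finrank F V + finrank F' (Submodule.span F' ((fun x => φ (C x)) '' (W : Set E))) ≤ finrank F W

/-- R1. The restriction sequence: `h(N) ≤ h(N - A) + h_cut(N)`.
PROOF. G3 with `σ = Option (Fin s)`, `φ = aeval (gg β)`, `F' = LL F β` the fraction field of `F[U]` (N1,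
`gg_ind`), `l = lin β`, `V = H0 N`, `W = b_0 · H0 (N/|A|)`, `V' = H0_cut N` (a valuation of `E'` trivial
on `F'` restricts to one of `E` trivial on `F`). If `P` has coefficients in `V` and `P(gg β) = 0` then
`P = l G` (G2), and for `w` trivial on `F`: `max w(G_μ) · max(1, w(β_j)) ≤ max w(P_κ) ≤ N(w)` (G1), and
`max(1, w(β_j)) = |A|_w / w(b_0)`. -/
def R1Stmt : Prop :=
  ∀ (K : Type) [Field K] [Algebra ℂ K] (p : Pr K) (A : Row K) (N : Sz K) (d : ℕ), Bir A →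
    p.Good (d + 1) → p.HF (fun v => N v / rz A v) → (p.cut A).HF N →
    p.HF N ∧ p.h N ≤ p.h (fun v => N v / rz A v) + (p.cut A).h N

/-- R2. `d(V) + d_cut(V A) ≤ d(V A)`.
PROOF. G4 with `V = b_0 · S V`, `W = S (V A)`: `b_0 v l = v (b_0 U_0 + ∑ b_j U_j)`. -/
def R2Stmt : Prop :=
  ∀ (K : Type) [Field K] [Algebra ℂ K] (p : Pr K) (A : Row K) (V : Submodule ℂ K) (d : ℕ), Bir A →
    p.Good (d + 1) → V.FG → p.d V + (p.cut A).d (V * rspan A) ≤ p.d (V * rspan A)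

/-! ## Poles -/

/-- P1. Transcendental elements have poles.
PROOF. As A0.lean (`exists_val` and the proof of `a0`), with `F` instead of `ℂ`. -/
def PoleStmt : Prop :=
  ∀ (F E : Type) [Field F] [Field E] [Algebra F E] [CharZero F], Algebra.EssFiniteType F E →
    ∀ x : E, Transcendental F x → ∃ w : Valuation E ℤᵐ⁰, Tr F w ∧ 1 < w x

/-- P2. Dimension zero, finiteness.
PROOF. `E = F(T)`, `T` finite, is algebraic over `F`. -/
def FinStmt : Prop :=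
  ∀ (K : Type) [Field K] [Algebra ℂ K] (p : Pr K), Fg K → p.Good 0 → Module.Finite p.F p.E

/-- P3. Dimension zero, generation.
PROOF. The `b_0^(-k) S(A^k)` are an increasing chain of subspaces of the finite dimensional space `E`
(P2), the union is the subring generated by `F` and the `b_j/b_0`; it is a field (`E` is algebraic over
`F`) which contains `F` and `K`, so it is `E`. -/
def TopStmt : Prop :=
  ∀ (K : Type) [Field K] [Algebra ℂ K] (p : Pr K) (A : Row K), Fg K → Bir A → p.Good 0 →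
    ∃ c : ℕ, ∀ k, c ≤ k → p.S (rspan A ^ k) = ⊤

/-- P4. There are no sections of `- A`.
PROOF. If `f ≠ 0` is one, then `w (f b_j) ≤ 1` for all `w` trivial on `F` and all `j`, so the `f b_j` are
algebraic over `F` (P1), and so are the `b_j/b_0`: contradiction (N1). -/
def NegStmt : Prop :=
  ∀ (K : Type) [Field K] [Algebra ℂ K] (p : Pr K) (A : Row K) (d : ℕ), Fg K → Bir A →
    p.Good (d + 1) → p.H0 (fun v => (rz A v)⁻¹) = ⊥

/-! ## Growth -/

/-- U. The upper bound.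
PROOF. Induction on `d` and `k` with R1, `N = |A|^k`: `h(|A|^k) ≤ h(|A|^(k-1)) + h_cut(|A|^k)`, for `k = 0`
`h(|A|^(-1)) = 0` (P4); `d = 0`: `h ≤ [E : F]`. -/
def UBStmt : Prop :=
  ∀ (K : Type) [Field K] [Algebra ℂ K] (A : Row K), Fg K → Bir A → ∀ (d : ℕ) (p : Pr K),
    p.Good d → ∀ k : ℕ, p.HF (fun v => rz A v ^ k) ∧
      p.h (fun v => rz A v ^ k) ≤ p.deg (List.replicate d A) * (k + d).choose d

/-- L. The lower bound.
PROOF. Induction on `d` with R2: `d(A^(k+1)) ≥ d(A^k) + d_cut(A^(k+1))`; `d = 0`: P3. -/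
def LBStmt : Prop :=
  ∀ (K : Type) [Field K] [Algebra ℂ K] (A : Row K), Fg K → Bir A → ∀ (d : ℕ) (p : Pr K),
    p.Good d → ∃ c : ℕ, ∀ k : ℕ, c ≤ k →
      p.deg (List.replicate d A) * (k - c).choose d ≤ p.d (rspan A ^ k)

/-- Y. The order of the cuts does not matter.
PROOF. `(p.cut A).cut B` and `(p.cut B).cut A` are isomorphic: an isomorphism of the fields `E''` over `E`
(both are generated by algebraically independent elements `X_i`, `Y_j` over `E`) which maps the subfields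
`F''` (generated by `F`, the `X_i`, `- ∑ X_i β_i`, `Y_j`, `- ∑ Y_j γ_j`) onto each other; isomorphic pairs
have isomorphic cuts and equal degrees. -/
def SymStmt : Prop :=
  ∀ (K : Type) [Field K] [Algebra ℂ K] (p : Pr K) (A B : Row K) (d : ℕ),
    p.deg (A :: List.replicate d B) = p.deg (List.replicate d B ++ [A])

/-! ## The pure analysis -/

/-- W. The path.
PROOF. Let `t ≥ ν₀ δ` be a natural number, `N` large, `σ = t/N`, `X = exp (t n)`, so `(1 + σ)^(n k) ≤ X`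
for `k ≤ N`. With `A_k = α_k (1+σ)^(n k)`: `A_(k+1) = A_k - (C σ² + ε)(1+σ)^(n k) ≥ A_k - (C σ² + ε) X`,
and `N (C σ² + ε) X = C t² X / N + N ε X ≤ α₀/2` for large `N` and small `ε`. After `N` steps
`ν ≤ ν₀/(1+σ)^N ≤ ν₀/(1 + t) < 1/δ`. -/
def PathStmt : Prop :=
  ∀ (T : ℝ → ℝ → Prop) (n : ℕ) (C ν₀ α₀ : ℝ), 0 ≤ C → 0 ≤ ν₀ → 0 < α₀ →
    (∀ ν α : ℝ, ν ≤ ν₀ → ∀ s₁ s₂ : ℕ, 1 ≤ s₁ → s₁ ≤ s₂ → ∀ ε : ℝ, 0 < ε →
      0 < α - C * ((s₁ : ℝ) / s₂) ^ 2 - ε → T ν α →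
      T (ν / (1 + (s₁ : ℝ) / s₂)) ((α - C * ((s₁ : ℝ) / s₂) ^ 2 - ε) / (1 + (s₁ : ℝ) / s₂) ^ n)) →
    T ν₀ α₀ → ∀ δ : ℕ, ∃ ν α : ℝ, T ν α ∧ ν * δ < 1

/-! ## The step -/

/-- Z1. Siu's inequality, exact form.
PROOF. `p = base K`. `h(|M|^a |P|^b/|Q|^b) ≥ h(|M|^a |P|^b) - b h_Q(|M|^a |P|^b)` (R1 `b` times,
`1 ≤ |Q|`), `h(|M|^a |P|^b) ≥ d(M^a P^b) ≥ d(M^a) + b d_P(M^a)` (R2 `b` times, `1 ∈ P`), and for `n ≥ 2`
`h_Q(|M|^a |P|^b) ≤ h_Q(|M|^a) + b h_QP(|M|^a |P|^b)` (R1 `b` times), where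
`|M|^a |P|^b ≤ |G|^(m a + b)` and U give `h_QP ≤ g binom(m a + b + n - 2, n - 2)`,
`g = deg (Q, P, G, ..., G)`. For `n = 1`: `h_Q(|M|^a |P|^b) ≤ [E':F'] = deg(Q)`: `g = 0` and
`h_Q(|M|^a)` is replaced by `deg(Q)` (this is the form in the statement:
`deg(Q, M, ..., M) binom(a + n - 1, n - 1)` is the upper bound of `h_Q(|M|^a)`). -/
def SiuStmt : Prop :=
  ∀ (K : Type) [Field K] [Algebra ℂ K] (n : ℕ) (P Q G : Row K), Fg K → 1 ≤ n →
    Algebra.trdeg ℂ K = n → Bir P → Bir Q → Bir G → (∃ j, P.b j = 1) → (∃ j, Q.b j = 1) →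
    (∀ v : Valuation K ℤᵐ⁰, Tr ℂ v → rz P v ≤ rz G v) →
    ∃ g : ℕ, (n = 1 → g = 0) ∧
      ∀ (M : Row K) (m : ℕ), Bir M → (∀ v, Tr ℂ v → rz M v ≤ rz G v ^ m) → ∀ a b : ℕ,
      (Pr.base K).d (rspan M ^ a) + b * ((Pr.base K).cut P).d (rspan M ^ a) ≤
        (Pr.base K).h (fun v => rz M v ^ a * rz P v ^ b / rz Q v ^ b) +
          b * ((Pr.base K).deg (Q :: List.replicate (n - 1) M) * (a + (n - 1)).choose (n - 1)) +
          b ^ 2 * (g * (m * a + b + (n - 2)).choose (n - 2))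

/-- `M ⊆ V(m, e)`: the elements of `M` are sections of `m (P - Q) + e H`. -/
def InV {K : Type} [Field K] [Algebra ℂ K] (P Q H M : Row K) (m e : ℕ) : Prop :=
  ∀ v : Valuation K ℤᵐ⁰, Tr ℂ v → rz M v * rz Q v ^ m ≤ rz P v ^ m * rz H v ^ e

/-- `T(ν, α)`: there is `M ⊆ V(m, e)` with `e ≤ ν m` and `α m^n ≤ (M^n)`. -/
def TT {K : Type} [Field K] [Algebra ℂ K] (n : ℕ) (P Q H : Row K) (ν α : ℝ) : Prop :=
  ∃ (M : Row K) (m e : ℕ), Bir M ∧ 1 ≤ m ∧ (e : ℝ) ≤ ν * m ∧ InV P Q H M m e ∧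
    α * (m : ℝ) ^ n ≤ (Pr.base K).deg (List.replicate n M)

/-- NF (helper12). Cubes.
PROOF. See the mail of helper12: a valuation `ν : K^* → ℤ^n` with one-dimensional leaves. -/
def CubeStmt : Prop :=
  ∀ (K : Type) [Field K] [Algebra ℂ K] (n : ℕ), Fg K → Algebra.trdeg ℂ K = n →
    ∃ B : Submodule ℂ K, B.FG ∧ ∀ A : Submodule ℂ K, A.FG → ∀ k : ℕ,
      k ^ n * finrank ℂ A ≤ finrank ℂ ((A * B ^ n) ^ k : Submodule ℂ K)

/-- Z2. Big systems contain `g Y`.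
PROOF. `h(N_k) ≤ h(N_k/|W|) + h_W(N_k)` (R1) and `h_W(N_k) ≤ h_W(|A|^k) ≤ c binom(k + n - 1, n - 1)`. -/
def BigStmt : Prop :=
  ∀ (K : Type) [Field K] [Algebra ℂ K] (n : ℕ), Fg K → 1 ≤ n → Algebra.trdeg ℂ K = n →
    ∀ (A W : Row K) (N : ℕ → Sz K) (γ : ℝ), Bir A → Bir W → 0 < γ →
    (∀ k v, Tr ℂ v → N k v ≤ rz A v ^ k) → (∀ᶠ k : ℕ in Filter.atTop,
      γ * (k : ℝ) ^ n ≤ (Pr.base K).h (N k)) →
    ∀ᶠ k : ℕ in Filter.atTop, ∃ g : K, g ≠ 0 ∧ ∀ v, Tr ℂ v → v g * rz W v ≤ N k v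

/-- Z3. The step of the path.
PROOF. Let `ν ≤ ν₀`, `E₀ ≥ ν₀`, `G` a row with `|G| = |P| |H|^E₀`, `g` of Z1,
`C = n (n - 1) g 2^n`. Given `M, m, e` (`|M| ≤ |P|^m |H|^e ≤ |G|^m`), let `r = s₂`, `q = s₁ m`,
`N_k = |M|^(r k) |P|^(q k) / |Q|^(q k)`. Z1 with `a = r k`, `b = q k`, `deg(Q, M^(n-1)) ≤ deg(P, M^(n-1))`,
L and U: `liminf n! h(N_k)/k^n ≥ r^n deg(M^n) - n (n-1) g q² (r m + q)^(n-2)`
`≥ (r m)^n (α - C σ²)`, `σ = q/(r m)`. Let `Y` be a row with `B ⊆ rspan Y` (NF), `1 ∈ rspan Y`, `Bir Y`;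
`g₀ Y ⊆ H0(N_k₀)` (Z2). `M' = H0(N_(k + n k₀))` contains `g₀^n H0(N_k) Y^n`, so (U, L, NF)
`deg(M'^n) ≥ n! h(N_k)`; `m' = (k + n k₀)(r m + q)`, `e' = (k + n k₀) r e`. -/
def StepStmt : Prop :=
  ∀ (K : Type) [Field K] [Algebra ℂ K] (n : ℕ) (P Q H : Row K), Fg K → 1 ≤ n →
    Algebra.trdeg ℂ K = n → Bir P → Bir Q → Bir H → (∃ j, P.b j = 1) → (∃ j, Q.b j = 1) →
    (∃ j, H.b j = 1) →
    (∀ M : Row K, Bir M → (Pr.base K).deg (Q :: List.replicate (n - 1) M) ≤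
      (Pr.base K).deg (P :: List.replicate (n - 1) M)) →
    ∀ ν₀ : ℝ, ∃ C : ℝ, 0 ≤ C ∧ ∀ ν α : ℝ, ν ≤ ν₀ → ∀ s₁ s₂ : ℕ, 1 ≤ s₁ → s₁ ≤ s₂ → ∀ ε : ℝ, 0 < ε →
      0 < α - C * ((s₁ : ℝ) / s₂) ^ 2 - ε → TT n P Q H ν α →
      TT n P Q H (ν / (1 + (s₁ : ℝ) / s₂))
        ((α - C * ((s₁ : ℝ) / s₂) ^ 2 - ε) / (1 + (s₁ : ℝ) / s₂) ^ n)

/-- Z4. The start of the path.
PROOF. Z2 with `N_k = |H|^k`, `W` with `|W| = |Q| |H|`: `v(g) |Q| |H| ≤ |H|^k`, so `M = g H ⊆ V(1, k)`. -/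
def StartStmt : Prop :=
  ∀ (K : Type) [Field K] [Algebra ℂ K] (n : ℕ) (P Q H : Row K), Fg K → 1 ≤ n →
    Algebra.trdeg ℂ K = n → Bir P → Bir Q → Bir H → (∃ j, P.b j = 1) → (∃ j, Q.b j = 1) →
    (∃ j, H.b j = 1) → ∃ ν₀ α₀ : ℝ, 0 ≤ ν₀ ∧ 0 < α₀ ∧ TT n P Q H ν₀ α₀

/-- Z5. The curve.
PROOF. `p = (base K).it (M, ..., M)`, `p.Good 1`; `[E':F'] = deg(M^(n-1), A) = deg(A, M^(n-1)) =: I_A` for
the cut of `p` by `A` (Y). `I_Q (k - c) ≤ d_p(Q^k) ≤ h_p(|Q|^k) ≤ h_p(|Q|^k/(|P|^k |H|)) + k I_P + I_H`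
(L, R1); so there is a section `f ≠ 0` of the last one for large `k`; `a = 1/f`. -/
def CurveStmt : Prop :=
  ∀ (K : Type) [Field K] [Algebra ℂ K] (n : ℕ) (P Q H M : Row K), Fg K → 1 ≤ n →
    Algebra.trdeg ℂ K = n → Bir P → Bir Q → Bir H → Bir M → (∃ j, P.b j = 1) →
    (∃ j, H.b j = 1) →
    (Pr.base K).deg (P :: List.replicate (n - 1) M) < (Pr.base K).deg (Q :: List.replicate (n - 1) M) →
    ∃ p : Pr K, p.Good 1 ∧ ∃ k : ℕ, 1 ≤ k ∧ ∃ f : p.E, f ≠ 0 ∧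
      f ∈ p.H0 (fun v => rz Q v ^ k / (rz P v ^ k * rz H v))

/-- Theorem N. -/
def NThm : Prop :=
  ∀ (K : Type) [Field K] [Algebra ℂ K] (n : ℕ) (P Q H : Row K), Fg K → 1 ≤ n →
    Algebra.trdeg ℂ K = n → Bir P → Bir Q → Bir H → (∃ j, P.b j = 1) → (∃ j, Q.b j = 1) →
    (∃ j, H.b j = 1) →
    (∃ δ : ℕ, 1 ≤ δ ∧ ∀ m e : ℕ, 1 ≤ m → e * δ < m → ∀ F : K,
      (∀ v : Valuation K ℤᵐ⁰, Tr ℂ v → v F * rz Q v ^ m ≤ rz P v ^ m * rz H v ^ e) → F = 0) →
    ∃ (L Λ : Type) (_ : Field L) (_ : Field Λ) (_ : Algebra ℂ L) (_ : Algebra L Λ)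
      (_ : Algebra K Λ) (_ : Algebra ℂ Λ) (_ : IsScalarTower ℂ L Λ) (_ : IsScalarTower ℂ K Λ)
      (a : Λ) (m₀ : ℕ), 1 ≤ m₀ ∧ a ≠ 0 ∧ Algebra.trdeg L Λ = 1 ∧
      (∃ T : Set Λ, T.Finite ∧ IntermediateField.adjoin L T = ⊤) ∧
      IntermediateField.adjoin L (Set.range (algebraMap K Λ)) = ⊤ ∧
      ∀ w : Valuation Λ ℤᵐ⁰, Tr L w →
        rz H (w.comap (algebraMap K Λ)) * rz P (w.comap (algebraMap K Λ)) ^ m₀ ≤
          w a * rz Q (w.comap (algebraMap K Λ)) ^ m₀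

end Pool.Agent.Lib.MP_410da7_agN
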