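import Mathlib

/-!
# C46, block N, the step of the path, part 1: the numerical estimate
-/

set_option autoImplicit false

namespace Pool.Agent.Lib.MP_410da7_agN

open Filter Topology

theorem st_sub_tendsto (a : ℕ → ℕ) (L : ℝ)
    (ha : Tendsto (fun k : ℕ => (a k : ℝ) / k) atTop (𝓝 L)) (i : ℕ) :
    Tendsto (fun k : ℕ => ((a k - i : ℕ) : ℝ) / k) atTop (𝓝 L) := by
  have h0 : Tendsto (fun k : ℕ => (i : ℝ) / k) atTop (𝓝 0) :=
    tendsto_const_div_atTop_nhds_zero_nat (i : ℝ)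
  have h1 : Tendsto (fun k : ℕ => (a k : ℝ) / k - (i : ℝ) / k) atTop (𝓝 L) := by
    simpa using ha.sub h0
  refine tendsto_of_tendsto_of_tendsto_of_le_of_le h1 ha (fun k => ?_) (fun k => ?_)
  · change (a k : ℝ) / k - (i : ℝ) / k ≤ ((a k - i : ℕ) : ℝ) / k
    rw [← sub_div]
    refine div_le_div_of_nonneg_right ?_ (Nat.cast_nonneg k)
    rcases le_total i (a k) with h | h
    · rw [Nat.cast_sub h]
    · rw [Nat.sub_eq_zero_of_le h, Nat.cast_zero, sub_nonpos]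
      exact_mod_cast h
  · change ((a k - i : ℕ) : ℝ) / k ≤ (a k : ℝ) / k
    refine div_le_div_of_nonneg_right ?_ (Nat.cast_nonneg k)
    exact_mod_cast Nat.sub_le _ _

theorem st_choose_tendsto (a : ℕ → ℕ) (L : ℝ)
    (ha : Tendsto (fun k : ℕ => (a k : ℝ) / k) atTop (𝓝 L)) (b : ℕ) :
    Tendsto (fun k : ℕ => ((a k).choose b : ℝ) / (k : ℝ) ^ b) atTop
      (𝓝 (L ^ b / (b.factorial : ℝ))) := by
  have h1 : (fun k : ℕ => ((a k).choose b : ℝ) / (k : ℝ) ^ b) =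
      fun k : ℕ => (∏ i ∈ Finset.range b, ((a k - i : ℕ) : ℝ) / k) / (b.factorial : ℝ) := by
    funext k
    have h2 : ((a k).descFactorial b : ℝ) = (b.factorial : ℝ) * ((a k).choose b : ℝ) := by
      exact_mod_cast Nat.descFactorial_eq_factorial_mul_choose (a k) b
    rw [Nat.descFactorial_eq_prod_range, Nat.cast_prod] at h2
    rw [Finset.prod_div_distrib, Finset.prod_const, Finset.card_range, h2]
    have h3 : (b.factorial : ℝ) ≠ 0 := by exact_mod_cast b.factorial_ne_zero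
    field_simp
  rw [h1]
  refine Tendsto.div_const ?_ _
  have h2 : L ^ b = ∏ i ∈ Finset.range b, L := by
    rw [Finset.prod_const, Finset.card_range]
  rw [h2]
  exact tendsto_finsetProd _ fun i _ => st_sub_tendsto a L ha i

theorem st_lin_tendsto (r c : ℕ) :
    Tendsto (fun k : ℕ => ((r * k + c : ℕ) : ℝ) / k) atTop (𝓝 (r : ℝ)) := by
  have h0 : Tendsto (fun k : ℕ => (c : ℝ) / k) atTop (𝓝 0) :=
    tendsto_const_div_atTop_nhds_zero_nat (c : ℝ)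
  have h1 : Tendsto (fun k : ℕ => (r : ℝ) + (c : ℝ) / k) atTop (𝓝 ((r : ℝ) + 0)) :=
    tendsto_const_nhds.add h0
  rw [add_zero] at h1
  refine h1.congr' ?_
  filter_upwards [eventually_gt_atTop 0] with k hk
  have hk' : (k : ℝ) ≠ 0 := by exact_mod_cast hk.ne'
  push_cast
  field_simp

/-- The numerical estimate. -/
theorem st_num (n m s₁ s₂ dM dP dQ g c₁ c₂ : ℕ) (hn : 1 ≤ n) (hm : 1 ≤ m) (hs₂ : 1 ≤ s₂)
    (hs : s₁ ≤ s₂) (hg : n = 1 → g = 0) (hPQ : dQ ≤ dP) (α : ℝ) (hα : α * (m : ℝ) ^ n ≤ dM)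
    (h : ℕ → ℝ) (hh : ∀ᶠ k : ℕ in atTop,
      (dM : ℝ) * ((s₂ * k - c₁).choose n : ℝ) +
        (s₁ * m * k : ℕ) * ((dP : ℝ) * ((s₂ * k - c₂).choose (n - 1) : ℝ)) ≤
      h k + (s₁ * m * k : ℕ) * ((dQ : ℝ) * ((s₂ * k + (n - 1)).choose (n - 1) : ℝ)) +
        ((s₁ * m * k : ℕ) : ℝ) ^ 2 *
          ((g : ℝ) * ((m * (s₂ * k) + s₁ * m * k + (n - 2)).choose (n - 2) : ℝ))) :
    ∀ ε : ℝ, 0 < ε → ∀ᶠ k : ℕ in atTop,
      ((s₂ : ℝ) * m) ^ n * (α - n * (n - 1) * g * 2 ^ n * ((s₁ : ℝ) / s₂) ^ 2 - ε) /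
        (n.factorial : ℝ) * (k : ℝ) ^ n ≤ h k := by
  intro ε hε
  have hs₂' : (0 : ℝ) < s₂ := by exact_mod_cast hs₂
  have hm' : (0 : ℝ) < m := by exact_mod_cast hm
  have hss : (s₁ : ℝ) ≤ s₂ := by exact_mod_cast hs
  have hPQ' : (0 : ℝ) ≤ (dP : ℝ) - dQ := by
    rw [sub_nonneg]; exact_mod_cast hPQ
  have t1 : Tendsto (fun k : ℕ => ((s₂ * k - c₁).choose n : ℝ) / (k : ℝ) ^ n) atTop
      (𝓝 ((s₂ : ℝ) ^ n / (n.factorial : ℝ))) := by
    have := st_sub_tendsto (fun k => s₂ * k + 0) s₂ (st_lin_tendsto s₂ 0) c₁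
    exact st_choose_tendsto (fun k => s₂ * k - c₁) s₂ this n
  have t2 : Tendsto (fun k : ℕ => ((s₂ * k - c₂).choose (n - 1) : ℝ) / (k : ℝ) ^ (n - 1)) atTop
      (𝓝 ((s₂ : ℝ) ^ (n - 1) / ((n - 1).factorial : ℝ))) := by
    have := st_sub_tendsto (fun k => s₂ * k + 0) s₂ (st_lin_tendsto s₂ 0) c₂
    exact st_choose_tendsto (fun k => s₂ * k - c₂) s₂ this (n - 1)
  have t3 : Tendsto (fun k : ℕ => ((s₂ * k + (n - 1)).choose (n - 1) : ℝ) / (k : ℝ) ^ (n - 1)) atTop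
      (𝓝 ((s₂ : ℝ) ^ (n - 1) / ((n - 1).factorial : ℝ))) :=
    st_choose_tendsto (fun k => s₂ * k + (n - 1)) s₂ (st_lin_tendsto s₂ (n - 1)) (n - 1)
  have t4 : Tendsto (fun k : ℕ => ((m * (s₂ * k) + s₁ * m * k + (n - 2)).choose (n - 2) : ℝ) /
      (k : ℝ) ^ (n - 2)) atTop
      (𝓝 (((m * s₂ + s₁ * m : ℕ) : ℝ) ^ (n - 2) / ((n - 2).factorial : ℝ))) := by
    refine st_choose_tendsto (fun k => m * (s₂ * k) + s₁ * m * k + (n - 2)) _ ?_ (n - 2)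
    have h1 := st_lin_tendsto (m * s₂ + s₁ * m) (n - 2)
    refine h1.congr fun k => ?_
    congr 2
    ring
  -- the limit
  set Lim : ℝ := (dM : ℝ) * ((s₂ : ℝ) ^ n / (n.factorial : ℝ)) +
    (s₁ * m : ℝ) * ((dP : ℝ) * ((s₂ : ℝ) ^ (n - 1) / ((n - 1).factorial : ℝ)) -
      (dQ : ℝ) * ((s₂ : ℝ) ^ (n - 1) / ((n - 1).factorial : ℝ))) -
    (s₁ * m : ℝ) ^ 2 * ((g : ℝ) *
      (((m * s₂ + s₁ * m : ℕ) : ℝ) ^ (n - 2) / ((n - 2).factorial : ℝ))) with hLim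
  have tF : Tendsto (fun k : ℕ => (dM : ℝ) * (((s₂ * k - c₁).choose n : ℝ) / (k : ℝ) ^ n) +
    (s₁ * m : ℝ) * ((dP : ℝ) * (((s₂ * k - c₂).choose (n - 1) : ℝ) / (k : ℝ) ^ (n - 1)) -
      (dQ : ℝ) * (((s₂ * k + (n - 1)).choose (n - 1) : ℝ) / (k : ℝ) ^ (n - 1))) -
    (s₁ * m : ℝ) ^ 2 * ((g : ℝ) *
      (((m * (s₂ * k) + s₁ * m * k + (n - 2)).choose (n - 2) : ℝ) / (k : ℝ) ^ (n - 2))))
      atTop (𝓝 Lim) :=
    ((t1.const_mul _).add (((t2.const_mul _).sub (t3.const_mul _)).const_mul _)).sub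
      ((t4.const_mul _).const_mul _)
  have hlt : ((s₂ : ℝ) * m) ^ n * (α - n * (n - 1) * g * 2 ^ n * ((s₁ : ℝ) / s₂) ^ 2 - ε) /
        (n.factorial : ℝ) < Lim := by
    have hf : (0 : ℝ) < (n.factorial : ℝ) := by exact_mod_cast n.factorial_pos
    have hA : ((s₂ : ℝ) * m) ^ n * α / (n.factorial : ℝ) ≤
        (dM : ℝ) * ((s₂ : ℝ) ^ n / (n.factorial : ℝ)) := by
      rw [mul_div_assoc', mul_pow]
      refine div_le_div_of_nonneg_right ?_ hf.le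
      have h2 : (0 : ℝ) ≤ (s₂ : ℝ) ^ n := pow_nonneg hs₂'.le n
      nlinarith [mul_le_mul_of_nonneg_left hα h2]
    have hB : (0 : ℝ) ≤ (s₁ * m : ℝ) * ((dP : ℝ) * ((s₂ : ℝ) ^ (n - 1) / ((n - 1).factorial : ℝ)) -
      (dQ : ℝ) * ((s₂ : ℝ) ^ (n - 1) / ((n - 1).factorial : ℝ))) := by
      rw [← sub_mul]
      positivity
    have hC : (s₁ * m : ℝ) ^ 2 * ((g : ℝ) *
      (((m * s₂ + s₁ * m : ℕ) : ℝ) ^ (n - 2) / ((n - 2).factorial : ℝ))) ≤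
        ((s₂ : ℝ) * m) ^ n * (n * (n - 1) * g * 2 ^ n * ((s₁ : ℝ) / s₂) ^ 2) /
        (n.factorial : ℝ) := by
      rcases Nat.lt_or_ge n 2 with h2 | h2
      · have : n = 1 := by omega
        rw [hg this, this]
        simp
      · obtain ⟨j, rfl⟩ : ∃ j, n = j + 2 := ⟨n - 2, by omega⟩
        rw [Nat.add_sub_cancel]
        have hfac : ((j + 2).factorial : ℝ) = (j + 2) * (j + 1) * (j.factorial : ℝ) := by
          rw [Nat.factorial_succ, Nat.factorial_succ]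
          push_cast
          ring
        have hj : (0 : ℝ) < (j.factorial : ℝ) := by exact_mod_cast j.factorial_pos
        have e1 : ((s₂ : ℝ) * m) ^ (j + 2) * (((j + 2 : ℕ) : ℝ) * (((j + 2 : ℕ) : ℝ) - 1) * g *
            2 ^ (j + 2) * ((s₁ : ℝ) / s₂) ^ 2) / ((j + 2).factorial : ℝ) =
            (s₁ * m : ℝ) ^ 2 * ((g : ℝ) * ((2 * ((s₂ : ℝ) * m)) ^ j * 4 / (j.factorial : ℝ))) := by
          rw [hfac]
          push_cast
          have h3 : ((j : ℝ) + 2) ≠ 0 := by positivity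
          have h4 : ((j : ℝ) + 1) ≠ 0 := by positivity
          have h5 : (j : ℝ) + 2 - 1 = j + 1 := by ring
          rw [h5]
          field_simp
          ring
        rw [e1]
        refine mul_le_mul_of_nonneg_left (mul_le_mul_of_nonneg_left ?_ (Nat.cast_nonneg g))
          (by positivity)
        refine div_le_div_of_nonneg_right ?_ hj.le
        have h6 : ((m * s₂ + s₁ * m : ℕ) : ℝ) ≤ 2 * ((s₂ : ℝ) * m) := by
          push_cast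
          nlinarith [mul_le_mul_of_nonneg_right hss hm'.le]
        have h7 : ((m * s₂ + s₁ * m : ℕ) : ℝ) ^ j ≤ (2 * ((s₂ : ℝ) * m)) ^ j :=
          pow_le_pow_left₀ (Nat.cast_nonneg _) h6 j
        have h8 : (0 : ℝ) ≤ (2 * ((s₂ : ℝ) * m)) ^ j := by positivity
        linarith
    have hE : 0 < ((s₂ : ℝ) * m) ^ n * ε / (n.factorial : ℝ) := by positivity
    have e2 : ((s₂ : ℝ) * m) ^ n * (α - n * (n - 1) * g * 2 ^ n * ((s₁ : ℝ) / s₂) ^ 2 - ε) /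
        (n.factorial : ℝ) = ((s₂ : ℝ) * m) ^ n * α / (n.factorial : ℝ) -
        ((s₂ : ℝ) * m) ^ n * (n * (n - 1) * g * 2 ^ n * ((s₁ : ℝ) / s₂) ^ 2) /
        (n.factorial : ℝ) - ((s₂ : ℝ) * m) ^ n * ε / (n.factorial : ℝ) := by
      ring
    rw [e2, hLim]
    linarith
  filter_upwards [hh, tF.eventually (lt_mem_nhds hlt), eventually_gt_atTop 0] with k hk hk2 hk0
  have hk' : (0 : ℝ) < k := by exact_mod_cast hk0
  have hkn : (0 : ℝ) < (k : ℝ) ^ n := pow_pos hk' n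
  have h3 := mul_le_mul_of_nonneg_right hk2.le hkn.le
  refine h3.trans ?_
  have e1 : (k : ℝ) ^ n = k * (k : ℝ) ^ (n - 1) := by
    rw [← pow_succ', Nat.sub_add_cancel hn]
  have h4 : ((s₁ * m * k : ℕ) : ℝ) = s₁ * m * k := by push_cast; ring
  rw [h4] at hk
  have h5 : (dM : ℝ) * (((s₂ * k - c₁).choose n : ℝ) / (k : ℝ) ^ n) * (k : ℝ) ^ n =
      (dM : ℝ) * ((s₂ * k - c₁).choose n : ℝ) := by field_simp
  have hkn1 : (k : ℝ) ^ (n - 1) ≠ 0 := (pow_pos hk' _).ne'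
  have h6 : (s₁ * m : ℝ) * ((dP : ℝ) * (((s₂ * k - c₂).choose (n - 1) : ℝ) / (k : ℝ) ^ (n - 1)) -
      (dQ : ℝ) * (((s₂ * k + (n - 1)).choose (n - 1) : ℝ) / (k : ℝ) ^ (n - 1))) * (k : ℝ) ^ n =
      (s₁ * m * k : ℝ) * ((dP : ℝ) * ((s₂ * k - c₂).choose (n - 1) : ℝ)) -
      (s₁ * m * k : ℝ) * ((dQ : ℝ) * ((s₂ * k + (n - 1)).choose (n - 1) : ℝ)) := by
    rw [e1]; field_simp
  have h7 : (s₁ * m : ℝ) ^ 2 * ((g : ℝ) *
      (((m * (s₂ * k) + s₁ * m * k + (n - 2)).choose (n - 2) : ℝ) / (k : ℝ) ^ (n - 2))) *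
      (k : ℝ) ^ n = (s₁ * m * k : ℝ) ^ 2 *
          ((g : ℝ) * ((m * (s₂ * k) + s₁ * m * k + (n - 2)).choose (n - 2) : ℝ)) := by
    rcases Nat.lt_or_ge n 2 with h2 | h2
    · have : n = 1 := by omega
      rw [hg this]
      simp
    · have e2 : (k : ℝ) ^ n = k ^ 2 * (k : ℝ) ^ (n - 2) := by
        rw [← pow_add]; congr 1; omega
      have hkn2 : (k : ℝ) ^ (n - 2) ≠ 0 := (pow_pos hk' _).ne'
      rw [e2]; field_simp
  rw [sub_mul, add_mul, h5, h6, h7]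
  linarith

end Pool.Agent.Lib.MP_410da7_agN
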