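import Pool.Agent.Lib.MP_410da7_agN.SpecN
import Pool.Agent.Lib.MP_410da7_agN.Step1
import Pool.Agent.Lib.MP_410da7_agA.NG1

/-!
# C46, block N, the step of the path, part 2: preparations
-/

set_option autoImplicit false

namespace Pool.Agent.Lib.MP_410da7_agN

open Filter Topology Module WithZero
open Pool.Agent.Lib.MP_410da7_agA

/-- From infinitely many powers. -/
theorem st_cube (n V D : ℕ) (h : ∀ j₀ : ℕ, ∃ j, j₀ ≤ j ∧ j ^ n * V ≤ D * (j + n).choose n) :
    (n.factorial : ℝ) * V ≤ D := by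
  have t : Tendsto (fun k : ℕ => ((1 * k + n).choose n : ℝ) / (k : ℝ) ^ n) atTop
      (𝓝 ((1 : ℕ) ^ n / (n.factorial : ℝ))) :=
    st_choose_tendsto (fun k => 1 * k + n) _ (st_lin_tendsto 1 n) n
  have t2 := t.const_mul (D : ℝ)
  have hf : (0 : ℝ) < (n.factorial : ℝ) := by exact_mod_cast n.factorial_pos
  by_contra hcon
  push Not at hcon
  have hlt : (D : ℝ) * (((1 : ℕ) : ℝ) ^ n / (n.factorial : ℝ)) < V := by
    rw [Nat.cast_one, one_pow, mul_one_div, div_lt_iff₀ hf]
    linarith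
  obtain ⟨j₀, hj₀⟩ := eventually_atTop.mp (t2.eventually (gt_mem_nhds hlt))
  obtain ⟨j, hj, hj2⟩ := h (max j₀ 1)
  have h1 := hj₀ j ((le_max_left _ _).trans hj)
  have hj1 : 1 ≤ j := (le_max_right _ _).trans hj
  have hjn : (0 : ℝ) < (j : ℝ) ^ n := pow_pos (by exact_mod_cast hj1) n
  have h2 : ((j ^ n * V : ℕ) : ℝ) ≤ ((D * (j + n).choose n : ℕ) : ℝ) := by exact_mod_cast hj2
  push_cast at h2
  rw [one_mul, mul_div_assoc', div_lt_iff₀ hjn] at h1
  linarith

section

variable {K : Type} [Field K] [Algebra ℂ K]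

theorem base_res (w : Valuation (Pr.base K).E ℤᵐ⁰) : (Pr.base K).res w = w :=
  Valuation.ext fun _ => rfl

/-- The sections over `ℂ`. -/
noncomputable def VV (N : Sz K) : Submodule ℂ K := (Pr.base K).H0 N

theorem mem_VV (N : Sz K) (f : K) :
    f ∈ VV N ↔ ∀ w : Valuation K ℤᵐ⁰, Tr ℂ w → w f ≤ N w := by
  change (∀ w : Valuation (Pr.base K).E ℤᵐ⁰, Tr (Pr.base K).F w → w f ≤ N ((Pr.base K).res w)) ↔ _
  constructor
  · intro h w hw
    have h1 := h w hw
    rwa [base_res] at h1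
  · intro h w hw
    rw [base_res]
    exact h w hw

theorem finrank_VV (N : Sz K) : finrank ℂ (VV N) = (Pr.base K).h N := rfl

theorem finite_VV {N : Sz K} (h : (Pr.base K).HF N) : Module.Finite ℂ (VV N) := h

theorem base_d (A : Submodule ℂ K) : (Pr.base K).d A = finrank ℂ A := by
  have h1 : (Pr.base K).S A = (A : Submodule ℂ K) := by
    change Submodule.span ℂ ((algebraMap K K) '' (A : Set K)) = A
    have h2 : (algebraMap K K) '' (A : Set K) = (A : Set K) := by
      change (id : K → K) '' (A : Set K) = A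
      exact Set.image_id _
    rw [h2, Submodule.span_eq]
  rw [Pr.d, h1]
  rfl

/-- `ℂ ⊆ K` is good. -/
theorem base_good {n : ℕ} (hn : Algebra.trdeg ℂ K = n) : (Pr.base K).Good n := by
  refine ⟨?_, hn⟩
  change IntermediateField.adjoin ℂ (Set.range (algebraMap K K)) = ⊤
  rw [eq_top_iff]
  rintro z -
  exact IntermediateField.subset_adjoin _ _ ⟨z, rfl⟩

/-- A nonzero finite dimensional subspace is spanned by a row. -/
theorem exists_row_span (V : Submodule ℂ K) [Module.Finite ℂ V] (hV : ∃ a ∈ V, a ≠ 0) :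
    ∃ r : Row K, rspan r = V := by
  obtain ⟨S, hS⟩ := (Submodule.fg_def.mp (Module.Finite.iff_fg.mp (inferInstance : Module.Finite ℂ V)))
  obtain ⟨hSf, hspan⟩ := hS
  obtain ⟨a, haV, ha0⟩ := hV
  obtain ⟨r, hr⟩ := exists_row (insert a S) (hSf.insert a) ⟨a, Set.mem_insert a S, ha0⟩
  refine ⟨r, ?_⟩
  rw [rspan, hr, Submodule.span_insert, hspan, sup_eq_right, Submodule.span_singleton_le_iff_mem]
  exact haV

theorem rz_le_of_span {r : Row K} {v : Valuation K ℤᵐ⁰} {c : ℤᵐ⁰} (h : ∀ a ∈ rspan r, v a ≤ c) :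
    rz r v ≤ c :=
  rz_le r v fun j => h _ (Submodule.subset_span ⟨j, rfl⟩)

theorem tr_C_le {v : Valuation K ℤᵐ⁰} (hv : Tr ℂ v) (c : ℂ) : v (algebraMap ℂ K c) ≤ 1 := by
  by_cases hc : c = 0
  · rw [hc, map_zero, map_zero]; exact zero_le
  · exact (hv c hc).le

/-- Values on the span of a row. -/
theorem span_le_rz (r : Row K) {v : Valuation K ℤᵐ⁰} (hv : Tr ℂ v) {a : K} (ha : a ∈ rspan r) :
    v a ≤ rz r v := by
  induction ha using Submodule.span_induction with
  | mem a ha =>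
    obtain ⟨j, rfl⟩ := ha
    exact le_rz r v j
  | zero => rw [map_zero]; exact zero_le
  | add a b _ _ h1 h2 => exact (v.map_add a b).trans (max_le h1 h2)
  | smul c a _ h1 =>
    rw [Algebra.smul_def, map_mul]
    exact (mul_le_mul' (tr_C_le hv c) h1).trans (one_mul _).le

/-- Values on powers of subspaces. -/
theorem pow_le_of {V : Submodule ℂ K} {v : Valuation K ℤᵐ⁰} (hv : Tr ℂ v) {c : ℤᵐ⁰}
    (h : ∀ a ∈ V, v a ≤ c) (j : ℕ) : ∀ a ∈ V ^ j, v a ≤ c ^ j := by
  induction j with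
  | zero =>
    intro a ha
    rw [pow_zero] at ha
    obtain ⟨c', rfl⟩ := Submodule.mem_one.mp ha
    rw [pow_zero]
    exact tr_C_le hv c'
  | succ j ih =>
    intro a ha
    rw [pow_succ] at ha
    rw [pow_succ]
    refine Submodule.mul_induction_on ha (fun m hm n hn => ?_) (fun x y hx hy => ?_)
    · rw [map_mul]
      exact mul_le_mul' (ih m hm) (h n hn)
    · exact (v.map_add x y).trans (max_le hx hy)

theorem mul_le_of {V W : Submodule ℂ K} {v : Valuation K ℤᵐ⁰} {c d : ℤᵐ⁰}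
    (h : ∀ a ∈ V, v a ≤ c) (h' : ∀ a ∈ W, v a ≤ d) : ∀ a ∈ V * W, v a ≤ c * d := by
  intro a ha
  refine Submodule.mul_induction_on ha (fun m hm n hn => ?_) (fun x y hx hy => ?_)
  · rw [map_mul]
    exact mul_le_mul' (h m hm) (h' n hn)
  · exact (v.map_add x y).trans (max_le hx hy)

/-- A row whose span contains a multiple of a generating row is generating. -/
theorem bir_of_span {M Y : Row K} (hY : Bir Y) (c : K) (hc : c ≠ 0)
    (h : ∀ j, c * Y.b j ∈ rspan M) : Bir M := by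
  have key : ∀ a ∈ rspan M, a / M.b 0 ∈ IntermediateField.adjoin ℂ
      (Set.range fun j => M.b j / M.b 0) := by
    intro a ha
    induction ha using Submodule.span_induction with
    | mem a ha =>
      obtain ⟨j, rfl⟩ := ha
      exact IntermediateField.subset_adjoin _ _ ⟨j, rfl⟩
    | zero => rw [zero_div]; exact zero_mem _
    | add a b _ _ h1 h2 => rw [add_div]; exact add_mem h1 h2
    | smul e a _ h1 =>
      rw [Algebra.smul_def, mul_div_assoc]
      exact mul_mem (IntermediateField.algebraMap_mem _ e) h1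
  rw [Bir, eq_top_iff, ← (show _ = ⊤ from hY), IntermediateField.adjoin_le_iff]
  rintro _ ⟨j, rfl⟩
  have h1 := key _ (h j)
  have h2 := key _ (h 0)
  have h3 : Y.b j / Y.b 0 = (c * Y.b j / M.b 0) / (c * Y.b 0 / M.b 0) := by
    have := M.ne
    have := Y.ne
    field_simp
  change Y.b j / Y.b 0 ∈ _
  rw [h3]
  exact div_mem h1 h2

end

/-- The cubes, for infinitely many powers. -/
def CubeWStmt : Prop :=
  ∀ (K : Type) [Field K] [Algebra ℂ K] (n : ℕ), Fg K → Algebra.trdeg ℂ K = n →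
    ∃ B : Submodule ℂ K, B.FG ∧ ∀ A : Submodule ℂ K, A.FG → ∀ k₀ : ℕ, ∃ k, k₀ ≤ k ∧
      k ^ n * finrank ℂ A ≤ finrank ℂ ((A * B ^ n) ^ k : Submodule ℂ K)

end Pool.Agent.Lib.MP_410da7_agN
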