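import Pool.Agent.Lib.MP_410da7_agN.Step2
import Pool.Agent.Lib.MP_410da7_agA.NF

/-!
# C46, block N, the step of the path, part 3: cubes for infinitely many powers
-/

set_option autoImplicit false

namespace Pool.Agent.Lib.MP_410da7_agN

open Filter Topology Module WithZero
open Pool.Agent.Lib.MP_410da7_agA

theorem exists_trans_basis {K : Type} [Field K] [Algebra ℂ K] {n : ℕ}
    (hn : Algebra.trdeg ℂ K = n) : ∃ y : Fin n → K, IsTranscendenceBasis ℂ y := by
  obtain ⟨s, hs⟩ := exists_isTranscendenceBasis ℂ K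
  have hcard := hs.cardinalMk_eq_trdeg
  rw [hn] at hcard
  have hfin : Finite s := by
    rw [← Cardinal.lt_aleph0_iff_finite, hcard]; exact Cardinal.natCast_lt_aleph0
  have : Fintype s := Fintype.ofFinite s
  have hc : Fintype.card s = n := by
    rw [Cardinal.mk_fintype] at hcard
    exact_mod_cast hcard
  let e : Fin n ≃ s := (Fintype.equivFinOfCardEq hc).symm
  exact ⟨fun i => (e i : K), (isTranscendenceBasis_equiv (R := ℂ) (f := ((↑) : s → K)) e).2 hs⟩

theorem cubeW : CubeWStmt := by
  intro K _ _ n hfg hn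
  obtain ⟨y, hy⟩ := exists_trans_basis hn
  obtain ⟨T, hT, hTtop⟩ := hfg
  have hess : Algebra.EssFiniteType ℂ K := by
    rw [← IntermediateField.fg_top_iff]
    exact ⟨hT.toFinset, by rw [Set.Finite.coe_toFinset, hTtop]⟩
  have h3 := hy.isAlgebraic_field
  have h4 : Algebra.EssFiniteType (IntermediateField.adjoin ℂ (Set.range y)) K :=
    Algebra.EssFiniteType.of_comp ℂ _ K
  have h5 : FiniteDimensional (IntermediateField.adjoin ℂ (Set.range y)) K :=
    Algebra.finite_of_essFiniteType_of_isAlgebraic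
  obtain ⟨D, hD, hmain⟩ := nf ℂ K n y hy.1 h5
  let B : Submodule ℂ K := Submodule.span ℂ (insert 1 (Set.range y))
  have hB : B.FG := Submodule.fg_span ((Set.finite_range y).insert 1)
  refine ⟨B, hB, fun A hA k₀ => ⟨k₀ * D + 1, ?_, ?_⟩⟩
  · have : k₀ ≤ k₀ * D := Nat.le_mul_of_pos_right k₀ hD
    omega
  · refine hmain A B hA hB 1 (Submodule.subset_span (Set.mem_insert _ _)) one_ne_zero
      (fun i => ?_) _ (Nat.succ_pos _) ?_
    · rw [one_mul]
      exact Submodule.subset_span (Set.mem_insert_of_mem _ ⟨i, rfl⟩)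
    · rw [Nat.coprime_mul_right_add_left]
      exact Nat.coprime_one_left D

end Pool.Agent.Lib.MP_410da7_agN
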