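import Pool.Agent.Lib.MP_410da7_agN.Step3

/-!
# C46, block N, the step of the path, part 4: conclusion
-/

set_option autoImplicit false

namespace Pool.Agent.Lib.MP_410da7_agN

open Filter Topology Module WithZero
open Pool.Agent.Lib.MP_410da7_agA

/-- Siu's inequality with the information that there is no quadratic term for curves. -/
def SiuWStmt : Prop :=
  ∀ (K : Type) [Field K] [Algebra ℂ K] (n : ℕ) (P Q G : Row K), Fg K → 1 ≤ n →
    Algebra.trdeg ℂ K = n → Bir P → Bir Q → Bir G → (∃ j, P.b j = 1) → (∃ j, Q.b j = 1) →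
    (∀ v : Valuation K ℤᵐ⁰, Tr ℂ v → rz P v ≤ rz G v) →
    ∃ g : ℕ, (n = 1 → g = 0) ∧ ∀ (M : Row K) (m : ℕ), Bir M →
      (∀ v, Tr ℂ v → rz M v ≤ rz G v ^ m) → ∀ a b : ℕ,
      (Pr.base K).d (rspan M ^ a) + b * ((Pr.base K).cut P).d (rspan M ^ a) ≤
        (Pr.base K).h (fun v => rz M v ^ a * rz P v ^ b / rz Q v ^ b) +
          b * ((Pr.base K).deg (Q :: List.replicate (n - 1) M) * (a + (n - 1)).choose (n - 1)) +
          b ^ 2 * (g * (m * a + b + (n - 2)).choose (n - 2))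

section

variable {K : Type} [Field K] [Algebra ℂ K]

omit [Algebra ℂ K] in
theorem one_le_rz {r : Row K} (h : ∃ j, r.b j = 1) (v : Valuation K ℤᵐ⁰) : 1 ≤ rz r v :=
  one_le_rsize r h v

theorem exists_rowpow (G : Row K) (hG : Bir G) (h1 : ∃ j, G.b j = 1) (t : ℕ) (ht : 1 ≤ t) :
    ∃ A : Row K, Bir A ∧ ∀ v, rz A v = rz G v ^ t := by
  obtain ⟨B, hB1, hBs⟩ := exists_row_pow G (t - 1)
  obtain ⟨A, hA, hAs⟩ := exists_row_mul B G
  refine ⟨A, bir_of_subset h1 ?_ hG, fun v => ?_⟩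
  · rw [hA]
    rintro _ ⟨j, rfl⟩
    obtain ⟨i, hi⟩ := hB1 h1
    exact ⟨1, ⟨i, hi⟩, G.b j, ⟨j, rfl⟩, one_mul _⟩
  · rw [rz, hAs, hBs, ← pow_succ, Nat.sub_add_cancel ht]
    rfl

/-- Multiples of powers. -/
theorem st_mul_pow {W U : Submodule ℂ K} {c : K} (h : ∀ x ∈ W, c * x ∈ U) (j : ℕ) :
    ∀ x ∈ W ^ j, c ^ j * x ∈ U ^ j := by
  induction j with
  | zero =>
    intro x hx
    rw [pow_zero] at hx
    rw [pow_zero, pow_zero, one_mul]
    exact hx
  | succ j ih =>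
    intro x hx
    rw [pow_succ] at hx
    rw [pow_succ U]
    refine Submodule.mul_induction_on hx (fun m hm n hn => ?_) (fun x y hx hy => ?_)
    · have e1 : c ^ (j + 1) * (m * n) = (c ^ j * m) * (c * n) := by ring
      rw [e1]
      exact Submodule.mul_mem_mul (ih m hm) (h n hn)
    · rw [mul_add]; exact add_mem hx hy

theorem st_finrank_le {W U : Submodule ℂ K} [Module.Finite ℂ U] {c : K} (hc : c ≠ 0)
    (h : ∀ x ∈ W, c * x ∈ U) : finrank ℂ W ≤ finrank ℂ U := by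
  let f : W →ₗ[ℂ] U :=
    { toFun := fun x => ⟨c * x, h x x.2⟩
      map_add' := fun x y => by apply Subtype.ext; change c * ((x : K) + y) = _; rw [mul_add]; rfl
      map_smul' := fun a x => by
        apply Subtype.ext
        change c * (a • (x : K)) = a • (c * (x : K))
        rw [mul_smul_comm] }
  refine LinearMap.finrank_le_finrank_of_injective (f := f) ?_
  intro x y hxy
  have h1 : c * (x : K) = c * (y : K) := congrArg Subtype.val hxy
  exact Subtype.ext (mul_left_cancel₀ hc h1)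

end

theorem st_val (a b c d : ℤᵐ⁰) (hb : b ≠ 0) (m e s₁ s₂ : ℕ)
    (h : a * b ^ m ≤ c ^ m * d ^ e) :
    (a ^ s₂ * c ^ (s₁ * m) / b ^ (s₁ * m)) * b ^ (s₂ * m + s₁ * m) ≤
      c ^ (s₂ * m + s₁ * m) * d ^ (s₂ * e) := by
  have e1 : (a ^ s₂ * c ^ (s₁ * m) / b ^ (s₁ * m)) * b ^ (s₂ * m + s₁ * m) =
      (a * b ^ m) ^ s₂ * c ^ (s₁ * m) := by
    have hb' : b ^ (s₁ * m) ≠ 0 := pow_ne_zero _ hb
    rw [pow_add, mul_pow, ← pow_mul, mul_comm m s₂]
    field_simp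
  have e2 : c ^ (s₂ * m + s₁ * m) * d ^ (s₂ * e) = (c ^ m * d ^ e) ^ s₂ * c ^ (s₁ * m) := by
    rw [pow_add, mul_pow, ← pow_mul, ← pow_mul, mul_comm m s₂, mul_comm e s₂]
    rw [mul_assoc, mul_assoc, mul_comm (c ^ (s₁ * m))]
  rw [e1, e2]
  exact mul_le_mul' (pow_le_pow_left' h s₂) le_rfl

end Pool.Agent.Lib.MP_410da7_agN
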